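import Pool.Agent.Helper82.QR.Fl
import Pool.Agent.Helper46.QP.Meas

/-! Block QR-TAN: the standard maps with a real parameter on the torus and on the tangent bundle `TT × ℝ²`.

`sh_mp`, `shY_mp`, `sr_mp`, `srY_mp`: `MeasurePreserving.skew_product` and swaps (compare `stp_mp` in `Helper46/QP/Meas.lean`; `sr a = stp (a : ℂ)`). `act_mp`: `MeasureTheory.Measure.map_linearMap_addHaar_eq_smul_addHaar` (the determinant of the linear map `act M` of `ℝ × ℝ` is `det M`: `LinearMap.det_toLin`, `Basis.finTwoProd`),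
or a product of shears. `ob_srY`: induction on `n` (`Mx_succ`, `orb_succ`, `act_mul`; `act (mv v) w = (v w₁ - w₂, w₁)`). -/

set_option autoImplicit false
open MeasureTheory Real Set
open scoped ENNReal

namespace Pool.Agent.Helper82.QR

open Pool.Agent.Helper46.QP (dl BM TT ee va stp orb Mx)
open Pool.Agent.Helper95.PV (mv)

/-- `sin 2πx`, `cos 2πx` -/
noncomputable def sn (x : UnitAddCircle) : ℝ := (ee x).im
noncomputable def cs (x : UnitAddCircle) : ℝ := (ee x).re

/-- the tangent bundle -/
abbrev YY := TT × (ℝ × ℝ)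

/-- the shear of the torus by `t sin` -/
noncomputable def sh (t : ℝ) (z : TT) : TT := (z.1 + ((t * sn z.2 : ℝ) : UnitAddCircle), z.2)

/-- the standard map with the real parameter `a` -/
noncomputable def sr (a : ℝ) (z : TT) : TT := (z.1 + z.1 - z.2 + ((a * sn z.1 : ℝ) : UnitAddCircle), z.1)

/-- the entry of the derivative -/
noncomputable def vr (a : ℝ) (x : UnitAddCircle) : ℝ := 2 + 2 * π * a * cs x

noncomputable def shY (t : ℝ) (y : YY) : YY := (sh t y.1, (y.2.1 + 2 * π * t * cs y.1.2 * y.2.2, y.2.2))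

noncomputable def srY (a : ℝ) (y : YY) : YY := (sr a y.1, (vr a y.1.1 * y.2.1 - y.2.2, y.2.1))

/-- the action of a matrix -/
def act (M : Matrix (Fin 2) (Fin 2) ℝ) (w : ℝ × ℝ) : ℝ × ℝ := (M 0 0 * w.1 + M 0 1 * w.2, M 1 0 * w.1 + M 1 1 * w.2)

private theorem ee_add54 (x y : UnitAddCircle) : ee (x + y) = ee x * ee y := by
  unfold ee
  rw [fourier_apply, fourier_apply, fourier_apply, smul_add, AddCircle.toCircle_add, Circle.coe_mul]

private theorem ee_coe54 (h : ℝ) : ee (h : UnitAddCircle) = (Real.cos (2 * π * h) : ℂ) + (Real.sin (2 * π * h) : ℂ) * Complex.I := by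
  unfold ee
  rw [fourier_coe_apply, Complex.ofReal_cos, Complex.ofReal_sin, ← Complex.exp_mul_I]
  congr 1
  push_cast
  ring

private theorem im54 (c s : ℝ) : ((c : ℂ) + (s : ℂ) * Complex.I).im = s := by simp

private theorem re54 (c s : ℝ) : ((c : ℂ) + (s : ℂ) * Complex.I).re = c := by simp

private theorem norm_ee54 (x : UnitAddCircle) : ‖ee x‖ = 1 := by
  unfold ee
  rw [fourier_apply]
  exact Circle.norm_coe _

theorem sn_meas : Measurable sn := Complex.measurable_im.comp Pool.Agent.Helper46.QP.ee_meas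

theorem cs_meas : Measurable cs := Complex.measurable_re.comp Pool.Agent.Helper46.QP.ee_meas

theorem sn_cs (x : UnitAddCircle) : sn x ^ 2 + cs x ^ 2 = 1 := by
  have h := norm_ee54 x
  have h2 : Complex.normSq (ee x) = 1 := by rw [Complex.normSq_eq_norm_sq, h, one_pow]
  rw [Complex.normSq_apply] at h2
  unfold sn cs
  nlinarith

theorem sn_add (x : UnitAddCircle) (h : ℝ) :
    sn (x + (h : UnitAddCircle)) = sn x * Real.cos (2 * π * h) + cs x * Real.sin (2 * π * h) := by
  unfold sn cs
  rw [ee_add54, ee_coe54, Complex.mul_im, im54, re54]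
  ring

theorem cs_add (x : UnitAddCircle) (h : ℝ) :
    cs (x + (h : UnitAddCircle)) = cs x * Real.cos (2 * π * h) - sn x * Real.sin (2 * π * h) := by
  unfold sn cs
  rw [ee_add54, ee_coe54, Complex.mul_re, im54, re54]

theorem sn_add' (x y : UnitAddCircle) : sn (x + y) = sn x * cs y + cs x * sn y := by
  unfold sn cs
  rw [ee_add54, Complex.mul_im]
  ring

theorem sn_coe (h : ℝ) : sn (h : UnitAddCircle) = Real.sin (2 * π * h) := by
  unfold sn
  rw [ee_coe54, im54]

theorem cs_coe (h : ℝ) : cs (h : UnitAddCircle) = Real.cos (2 * π * h) := by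
  unfold cs
  rw [ee_coe54, re54]

theorem sr_eq (a : ℝ) (z : TT) : sr a z = stp (a : ℂ) z := by
  unfold sr stp sn
  rw [Complex.im_ofReal_mul]

theorem vr_eq (a : ℝ) (x : UnitAddCircle) : vr a x = va (a : ℂ) x := by
  unfold vr va cs
  rw [Complex.re_ofReal_mul]
  ring

theorem act_mul (M N : Matrix (Fin 2) (Fin 2) ℝ) (w : ℝ × ℝ) : act (M * N) w = act M (act N w) := by
  unfold act
  simp only [Matrix.mul_apply, Fin.sum_univ_two]
  refine Prod.ext ?_ ?_
  · show _ = _
    ring
  · show _ = _
    ring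

theorem act_mp {M : Matrix (Fin 2) (Fin 2) ℝ} (hM : M.det = 1) : MeasurePreserving (act M) volume volume := by
  have hf : LinearMap.det (Matrix.toLin (Module.Basis.finTwoProd ℝ) (Module.Basis.finTwoProd ℝ) M) = 1 := by
    rw [LinearMap.det_toLin, hM]
  have he : act M = (Matrix.toLin (Module.Basis.finTwoProd ℝ) (Module.Basis.finTwoProd ℝ) M : ℝ × ℝ → ℝ × ℝ) := by
    funext w
    have h1 : M = !![M 0 0, M 0 1; M 1 0, M 1 1] := by
      ext i j
      fin_cases i <;> fin_cases j <;> rfl
    conv_rhs => rw [h1]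
    rw [Matrix.toLin_finTwoProd_apply]
    rfl
  refine ⟨?_, ?_⟩
  · unfold act
    exact ((measurable_fst.const_mul _).add (measurable_snd.const_mul _)).prodMk
      ((measurable_fst.const_mul _).add (measurable_snd.const_mul _))
  · rw [he, Measure.map_linearMap_addHaar_eq_smul_addHaar volume (by rw [hf]; exact one_ne_zero), hf]
    simp

private theorem sh_meas54 : Measurable fun p : ℝ × TT => sh p.1 p.2 := by
  have hx : Measurable fun p : ℝ × TT => p.2.1 := measurable_fst.comp measurable_snd
  have hy : Measurable fun p : ℝ × TT => p.2.2 := measurable_snd.comp measurable_snd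
  unfold sh
  exact (hx.add (Pool.Agent.Helper46.QP.meas_coe.comp (measurable_fst.mul (sn_meas.comp hy)))).prodMk hy

private theorem sr_meas54 : Measurable fun p : ℝ × TT => sr p.1 p.2 := by
  have hx : Measurable fun p : ℝ × TT => p.2.1 := measurable_fst.comp measurable_snd
  have hy : Measurable fun p : ℝ × TT => p.2.2 := measurable_snd.comp measurable_snd
  unfold sr
  exact (((hx.add hx).sub hy).add (Pool.Agent.Helper46.QP.meas_coe.comp
    (measurable_fst.mul (sn_meas.comp hx)))).prodMk hx

private theorem sh_mp54 (t : ℝ) : MeasurePreserving (sh t) volume volume := by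
  have hc : Measurable fun x : UnitAddCircle => ((t * sn x : ℝ) : UnitAddCircle) :=
    Pool.Agent.Helper46.QP.meas_coe.comp (sn_meas.const_mul t)
  have hg : Measurable (Function.uncurry fun x y : UnitAddCircle => y + ((t * sn x : ℝ) : UnitAddCircle)) :=
    measurable_snd.add (hc.comp measurable_fst)
  have h := (MeasurePreserving.id (volume : Measure UnitAddCircle)).skew_product
    (μc := (volume : Measure UnitAddCircle)) (μd := (volume : Measure UnitAddCircle))
    (g := fun x y : UnitAddCircle => y + ((t * sn x : ℝ) : UnitAddCircle)) hg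
    (Filter.Eventually.of_forall fun x => (measurePreserving_add_right volume _).map_eq)
  have hs := Measure.measurePreserving_swap (μ := (volume : Measure UnitAddCircle))
    (ν := (volume : Measure UnitAddCircle))
  exact (hs.comp h).comp hs

private theorem sr_mp54 (a : ℝ) : MeasurePreserving (sr a) volume volume := by
  have e : sr a = stp (a : ℂ) := funext (sr_eq a)
  rw [e]
  exact Pool.Agent.Helper46.QP.stp_mp _

private theorem sh_add54 (s t : ℝ) (z : TT) : sh (s + t) z = sh s (sh t z) := by
  unfold sh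
  refine Prod.ext ?_ rfl
  show z.1 + (((s + t) * sn z.2 : ℝ) : UnitAddCircle) =
    z.1 + ((t * sn z.2 : ℝ) : UnitAddCircle) + ((s * sn z.2 : ℝ) : UnitAddCircle)
  rw [add_mul, AddCircle.coe_add]
  abel

private theorem sr_add54 (a t : ℝ) (z : TT) : sr (a + t) z = sh t (sr a z) := by
  unfold sh sr
  refine Prod.ext ?_ rfl
  show z.1 + z.1 - z.2 + (((a + t) * sn z.1 : ℝ) : UnitAddCircle) =
    z.1 + z.1 - z.2 + ((a * sn z.1 : ℝ) : UnitAddCircle) + ((t * sn z.1 : ℝ) : UnitAddCircle)
  rw [add_mul, AddCircle.coe_add]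
  abel

private theorem sh_zero54 (z : TT) : sh 0 z = z := by
  unfold sh
  refine Prod.ext ?_ rfl
  show z.1 + ((0 * sn z.2 : ℝ) : UnitAddCircle) = z.1
  rw [zero_mul, AddCircle.coe_zero, add_zero]

theorem sys_T : Sys (volume : Measure TT) sh sr := {
  fl := { meas := sh_meas54, mp := sh_mp54, zero := sh_zero54, add := sh_add54 }
  meas := sr_meas54
  mp := sr_mp54
  add := sr_add54 }

private theorem m1_54 : Measurable fun p : ℝ × YY => ((p.1, p.2.1) : ℝ × TT) :=
  measurable_fst.prodMk (measurable_fst.comp measurable_snd)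

private theorem shY_meas54 : Measurable fun p : ℝ × YY => shY p.1 p.2 := by
  have hy : Measurable fun p : ℝ × YY => p.2.1.2 :=
    measurable_snd.comp (measurable_fst.comp measurable_snd)
  have hw : Measurable fun p : ℝ × YY => p.2.2 := measurable_snd.comp measurable_snd
  have h1 : Measurable fun p : ℝ × YY => 2 * π * p.1 * cs p.2.1.2 * p.2.2.2 :=
    ((measurable_fst.const_mul (2 * π)).mul (cs_meas.comp hy)).mul (measurable_snd.comp hw)
  unfold shY
  exact (sh_meas54.comp m1_54).prodMk (((measurable_fst.comp hw).add h1).prodMk (measurable_snd.comp hw))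

private theorem srY_meas54 : Measurable fun p : ℝ × YY => srY p.1 p.2 := by
  have hx : Measurable fun p : ℝ × YY => p.2.1.1 :=
    measurable_fst.comp (measurable_fst.comp measurable_snd)
  have hw : Measurable fun p : ℝ × YY => p.2.2 := measurable_snd.comp measurable_snd
  have h1 : Measurable fun p : ℝ × YY => vr p.1 p.2.1.1 := by
    unfold vr
    exact ((measurable_fst.const_mul (2 * π)).mul (cs_meas.comp hx)).const_add 2
  unfold srY
  exact (sr_meas54.comp m1_54).prodMk (((h1.mul (measurable_fst.comp hw)).sub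
    (measurable_snd.comp hw)).prodMk (measurable_fst.comp hw))

/-- a skew product over a measure preserving map -/
private theorem skew54 {T : TT → TT} (hT : MeasurePreserving T volume volume)
    {M : TT → Matrix (Fin 2) (Fin 2) ℝ} (hM : ∀ z, (M z).det = 1) {F : YY → YY} (hF : Measurable F)
    (he : ∀ y : YY, F y = (T y.1, act (M y.1) y.2)) : MeasurePreserving F volume volume := by
  have hg : Measurable (Function.uncurry fun (z : TT) (w : ℝ × ℝ) => act (M z) w) := by
    have h1 : (Function.uncurry fun (z : TT) (w : ℝ × ℝ) => act (M z) w) = fun y : YY => (F y).2 := by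
      funext y
      rw [he]
      rfl
    rw [h1]
    exact measurable_snd.comp hF
  have h := hT.skew_product (μc := (volume : Measure (ℝ × ℝ))) (μd := (volume : Measure (ℝ × ℝ)))
    (g := fun z w => act (M z) w) hg (Filter.Eventually.of_forall fun z => (act_mp (hM z)).map_eq)
  have e : F = fun p : TT × (ℝ × ℝ) => (T p.1, act (M p.1) p.2) := funext he
  rw [e]
  exact h

theorem sys_Y : Sys (volume : Measure YY) shY srY := {
  fl := {
    meas := shY_meas54
    mp := fun t => by
      refine skew54 (sh_mp54 t) (M := fun z => !![1, 2 * π * t * cs z.2; 0, 1])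
        (fun z => by rw [Matrix.det_fin_two_of]; ring) (shY_meas54.comp measurable_prodMk_left) fun y => ?_
      unfold shY act
      refine Prod.ext rfl (Prod.ext ?_ ?_)
      · show _ = 1 * y.2.1 + 2 * π * t * cs y.1.2 * y.2.2
        rw [one_mul]
      · show _ = 0 * y.2.1 + 1 * y.2.2
        rw [zero_mul, one_mul, zero_add]
    zero := fun y => by
      unfold shY
      rw [sh_zero54]
      simp
    add := fun s t y => by
      unfold shY
      refine Prod.ext (sh_add54 s t y.1) (Prod.ext ?_ rfl)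
      show y.2.1 + 2 * π * (s + t) * cs y.1.2 * y.2.2 =
        y.2.1 + 2 * π * t * cs y.1.2 * y.2.2 + 2 * π * s * cs y.1.2 * y.2.2
      ring }
  meas := srY_meas54
  mp := fun a => by
    refine skew54 (sr_mp54 a) (M := fun z => mv (vr a z.1))
      (fun z => Pool.Agent.Helper95.PV.det_mv _) (srY_meas54.comp measurable_prodMk_left) fun y => ?_
    unfold srY act mv
    refine Prod.ext rfl (Prod.ext ?_ ?_)
    · show _ = vr a y.1.1 * y.2.1 + -1 * y.2.2
      ring
    · show _ = 1 * y.2.1 + 0 * y.2.2
      ring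
  add := fun a t y => by
    unfold srY shY
    refine Prod.ext (sr_add54 a t y.1) (Prod.ext ?_ rfl)
    show vr (a + t) y.1.1 * y.2.1 - y.2.2 = vr a y.1.1 * y.2.1 - y.2.2 + 2 * π * t * cs (sr a y.1).2 * y.2.1
    unfold vr sr
    ring }

/-- orbits on the torus are orbits of `stp` -/
theorem ob_sr (A : ℕ → ℝ) (z : TT) (n : ℕ) : ob sr A z n = orb (fun j => (A j : ℂ)) z n := by
  induction n with
  | zero => rfl
  | succ n ih => rw [ob_succ, ih, Pool.Agent.Helper46.QP.orb_succ, sr_eq]

theorem ob_srY (A : ℕ → ℝ) (z : TT) (w : ℝ × ℝ) (n : ℕ) :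
    ob srY A (z, w) n = (orb (fun j => (A j : ℂ)) z n, act (Mx (fun j => (A j : ℂ)) z n) w) := by
  induction n with
  | zero =>
    refine Prod.ext rfl (Prod.ext ?_ ?_)
    · show w.1 = (1 : Matrix (Fin 2) (Fin 2) ℝ) 0 0 * w.1 + (1 : Matrix (Fin 2) (Fin 2) ℝ) 0 1 * w.2
      simp
    · show w.2 = (1 : Matrix (Fin 2) (Fin 2) ℝ) 1 0 * w.1 + (1 : Matrix (Fin 2) (Fin 2) ℝ) 1 1 * w.2
      simp
  | succ n ih =>
    rw [ob_succ, ih, Pool.Agent.Helper46.QP.orb_succ, Pool.Agent.Helper46.QP.Mx_succ, act_mul]
    unfold srY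
    rw [sr_eq, vr_eq]
    refine Prod.ext rfl (Prod.ext ?_ ?_)
    · show _ = _ * _ + -1 * _
      rw [neg_one_mul, ← sub_eq_add_neg]
      rfl
    · show _ = 1 * _ + 0 * _
      rw [one_mul, zero_mul, add_zero]

/-- the norm of `act M w` -/
theorem act_le (M : Matrix (Fin 2) (Fin 2) ℝ) (w : ℝ × ℝ) : |(act M w).1| + |(act M w).2| ≤
    Pool.Agent.Helper18.UC.nn M * max |w.1| |w.2| := by
  unfold act Pool.Agent.Helper18.UC.nn
  have h1 : ∀ a b : ℝ, |a * w.1 + b * w.2| ≤ (|a| + |b|) * max |w.1| |w.2| := by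
    intro a b
    refine (abs_add_le _ _).trans ?_
    rw [abs_mul, abs_mul, add_mul]
    exact add_le_add (mul_le_mul_of_nonneg_left (le_max_left _ _) (abs_nonneg _))
      (mul_le_mul_of_nonneg_left (le_max_right _ _) (abs_nonneg _))
  have h2 := h1 (M 0 0) (M 0 1)
  have h3 := h1 (M 1 0) (M 1 1)
  show |M 0 0 * w.1 + M 0 1 * w.2| + |M 1 0 * w.1 + M 1 1 * w.2| ≤ _
  linarith

end Pool.Agent.Helper82.QR
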