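import Pool.Agent.Helper82.QR.GapR
import Pool.Agent.Helper46.QR.Defs

/-! Block QR-GROW: the mean of the inverse square of the norm of the derivative. -/

set_option autoImplicit false
open MeasureTheory Real Set
open scoped ENNReal

namespace Pool.Agent.Helper82.QR

open Pool.Agent.Helper18.UC (nn)
open Pool.Agent.Helper46.QP
open Pool.Agent.Helper46.QR (Ar)

variable {d : ℕ} {D : Dat d}

section chain

variable {Y : Type*} [MeasurableSpace Y]

omit [MeasurableSpace Y] in
theorem ch_ob (st : ℝ → Y → Y) (g : Y → ℝ) (n : ℕ) : ∀ (A : ℕ → ℂ) (y : Y),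
    ch (fun a : ℂ => st a.re) (fun _ _ => 1) (fun y => ENNReal.ofReal (g y)) A n y =
      ENNReal.ofReal (g (ob st (fun j => (A j).re) y n)) := by
  induction n with
  | zero => intro A y; rfl
  | succ n ih =>
    intro A y
    show 1 * ch (fun a : ℂ => st a.re) (fun _ _ => 1) (fun y => ENNReal.ofReal (g y)) (fun j => A (j + 1)) n
      (st (A 0).re y) = _
    rw [one_mul, ih, ob_one_add]

theorem Qr_w {st : ℝ → Y → Y} (hst : Measurable fun p : ℝ × Y => st p.1 p.2) {g : Y → ℝ} (hg : BM g) (s : ℝ) (n : ℕ)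
    (A : ℕ → ℝ) (y : Y) (a : ℝ) : BM fun w : ℂ => Qr st s g A n (st (a + s * w.re) y) :=
  (Qr_BM hst hg s n).comp (measurable_const.prodMk (hst.comp
    ((measurable_const.add (measurable_const.mul Complex.measurable_re)).prodMk measurable_const)))

omit [MeasurableSpace Y] in
theorem Qr_nonneg {st : ℝ → Y → Y} {g : Y → ℝ} (h0 : ∀ x, 0 ≤ g x) (s : ℝ) (n : ℕ) : ∀ (A : ℕ → ℝ) (y : Y),
    0 ≤ Qr st s g A n y := by
  induction n with
  | zero => intro A y; exact h0 y
  | succ n ih => intro A y; exact integral_nonneg fun w => ih _ _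

theorem ach_Qr {st : ℝ → Y → Y} (hst : Measurable fun p : ℝ × Y => st p.1 p.2) {g : Y → ℝ} (hg : BM g)
    (h0 : ∀ x, 0 ≤ g x) (s : ℝ) (n : ℕ) : ∀ (A : ℕ → ℂ) (y : Y),
    ach (fun a : ℂ => st a.re) (fun _ _ => 1) (fun y => ENNReal.ofReal (g y)) s A n y =
      ENNReal.ofReal (Qr st s g (fun j => (A j).re) n y) := by
  induction n with
  | zero => intro A y; rfl
  | succ n ih =>
    intro A y
    show (∫⁻ w, 1 * ach (fun a : ℂ => st a.re) (fun _ _ => 1) (fun y => ENNReal.ofReal (g y)) s (fun j => A (j + 1)) n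
      (st (A 0 + s * w).re y) ∂dl) = ENNReal.ofReal (∫ w, Qr st s g (fun j => (A (j + 1)).re) n
        (st ((A 0).re + s * w.re) y) ∂dl)
    rw [ofReal_integral_eq_lintegral_ofReal ((Qr_w hst hg s n _ y (A 0).re).int dl)
      (Filter.Eventually.of_forall fun w => Qr_nonneg h0 s n _ _)]
    refine lintegral_congr fun w => ?_
    rw [one_mul, ih]
    congr 3
    simp

theorem annR0 (hD : D.Ok) {st : ℝ → Y → Y} (hst : Measurable fun p : ℝ × Y => st p.1 p.2) {g : Y → ℝ} (hg : BM g)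
    (h0 : ∀ x, 0 ≤ g x) {l n : ℕ} (hi : D.iso l n) (θ : Td d) (y : Y) :
    ∫⁻ ω, ENNReal.ofReal (g (ob st (fun j => (D.As ω θ j).re) y n)) ∂law d =
      ∫⁻ ω, ENNReal.ofReal (Qr st (D.s l) g (fun j => (D.Ams l ω θ j).re) n y) ∂law d := by
  have h := ann hD (st := fun a : ℂ => st a.re) (kk := fun _ _ => 1) (φ := fun y => ENNReal.ofReal (g y))
    (hst.comp ((Complex.measurable_re.comp measurable_fst).prodMk measurable_snd)) measurable_const
    (ENNReal.measurable_ofReal.comp hg.1) hi θ (ζ := fun _ => y) measurable_const (H := fun _ => 1) measurable_const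
    (fun _ _ _ _ => rfl) (fun _ _ _ _ => rfl)
  simp only [mul_one, ch_ob, ach_Qr hst hg h0] at h
  exact h

end chain

/-! ### the test function -/

/-- `1 / ((1 + |w₁|) (1 + |w₂|))` -/
noncomputable def tf (y : YY) : ℝ := (1 + |y.2.1|)⁻¹ * (1 + |y.2.2|)⁻¹

theorem tf_nonneg (y : YY) : 0 ≤ tf y := by unfold tf; positivity

theorem tf_BM : BM tf := by
  refine ⟨?_, 1, fun y => ?_⟩
  · unfold tf
    exact ((measurable_const.add (measurable_fst.comp measurable_snd).abs).inv).mul
      ((measurable_const.add (measurable_snd.comp measurable_snd).abs).inv)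
  · rw [abs_of_nonneg (tf_nonneg y)]
    unfold tf
    have h1 : (1 + |y.2.1|)⁻¹ ≤ 1 := inv_le_one_of_one_le₀ (by linarith [abs_nonneg y.2.1])
    have h2 : (1 + |y.2.2|)⁻¹ ≤ 1 := inv_le_one_of_one_le₀ (by linarith [abs_nonneg y.2.2])
    exact mul_le_one₀ h1 (by positivity) h2

theorem int_one : Integrable fun x : ℝ => ((1 + |x|)⁻¹) ^ 2 := by
  have h := integrable_one_add_norm (E := ℝ) (μ := volume) (r := 2) (by simp)
  refine h.congr (Filter.Eventually.of_forall fun x => ?_)
  simp only [Real.norm_eq_abs]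
  rw [Real.rpow_neg (by positivity), inv_pow]
  norm_num

theorem tf_SQ : SQ volume tf := by
  refine ⟨tf_BM, ?_⟩
  have e : (fun y : YY => tf y ^ 2) = fun y : YY => (fun _ : TT => (1 : ℝ)) y.1 *
      (fun w : ℝ × ℝ => ((1 + |w.1|)⁻¹) ^ 2 * ((1 + |w.2|)⁻¹) ^ 2) y.2 := by
    funext y
    simp only [tf]
    ring
  rw [e]
  have h2 : Integrable (fun w : ℝ × ℝ => ((1 + |w.1|)⁻¹) ^ 2 * ((1 + |w.2|)⁻¹) ^ 2) (volume : Measure (ℝ × ℝ)) :=
    Integrable.mul_prod (f := fun x : ℝ => ((1 + |x|)⁻¹) ^ 2) (g := fun x : ℝ => ((1 + |x|)⁻¹) ^ 2) int_one int_one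
  exact Integrable.mul_prod (f := fun _ : TT => (1 : ℝ))
    (g := fun w : ℝ × ℝ => ((1 + |w.1|)⁻¹) ^ 2 * ((1 + |w.2|)⁻¹) ^ 2) (integrable_const (1 : ℝ)) h2

theorem tf_act {M : Matrix (Fin 2) (Fin 2) ℝ} (hM : M.det = 1) (z : TT) {w : ℝ × ℝ} (h1 : |w.1| ≤ 1) (h2 : |w.2| ≤ 1) :
    nn M ^ (-2 : ℤ) / 4 ≤ tf (z, act M w) := by
  have h3 := act_le M w
  have h4 : (2 : ℝ) ≤ nn M := Pool.Agent.Helper95.PV.nn_ge_two hM
  have h5 : nn M * max |w.1| |w.2| ≤ nn M := mul_le_of_le_one_right (by linarith) (max_le h1 h2)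
  have h6 : |(act M w).1| ≤ nn M := by linarith [abs_nonneg (act M w).2]
  have h7 : |(act M w).2| ≤ nn M := by linarith [abs_nonneg (act M w).1]
  have h8 : (2 * nn M)⁻¹ ≤ (1 + |(act M w).1|)⁻¹ := inv_anti₀ (by positivity) (by linarith)
  have h9 : (2 * nn M)⁻¹ ≤ (1 + |(act M w).2|)⁻¹ := inv_anti₀ (by positivity) (by linarith)
  have h10 := mul_le_mul h8 h9 (by positivity) (by positivity)
  refine le_trans (le_of_eq ?_) h10
  rw [zpow_neg]
  norm_num
  field_simp
  norm_num

theorem growR (hD : D.Ok) : ∃ C η : ℝ, 0 < C ∧ 0 < η ∧ η ≤ 1 ∧ ∀ l n : ℕ, D.iso l n → D.s l ≤ 1 → ∀ θ : Td d,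
    ∫⁻ ω, (∫⁻ z : TT, ENNReal.ofReal (nn (Mx (Ar D ω θ) z n) ^ (-2 : ℤ))) ∂law d ≤
      ENNReal.ofReal (C * (1 - η * D.s l ^ 2) ^ (n / 8)) := by
  obtain ⟨K, hK0, hK⟩ := Am_bd hD
  obtain ⟨η, h0, h1, hη⟩ := gapR K hK0
  refine ⟨2 * nm volume tf + 1, η, by have := nm_nonneg (μ := (volume : Measure YY)) tf; positivity, h0, h1, ?_⟩
  intro l n hi hs θ
  have hs0 : 0 < D.s l := by
    unfold Dat.s
    have := hD.hq
    have hN : (0 : ℝ) < (Pool.Agent.Helper18.FD.NN l : ℝ) := Pool.Agent.Helper18.FD.NN_pos l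
    positivity
  have hx0 : 0 ≤ 1 - η * D.s l ^ 2 := by nlinarith [sq_nonneg (D.s l)]
  have hx1 : 1 - η * D.s l ^ 2 ≤ 1 := by nlinarith [sq_nonneg (D.s l)]
  set Bx : Set (ℝ × ℝ) := Icc (-1) 1 ×ˢ Icc (-1) 1 with hBx
  have hBm : MeasurableSet Bx := measurableSet_Icc.prod measurableSet_Icc
  have hBv : (volume : Measure (ℝ × ℝ)) Bx = ENNReal.ofReal 4 := by
    rw [hBx, Measure.volume_eq_prod, Measure.prod_prod, Real.volume_Icc, ← ENNReal.ofReal_mul (by norm_num)]
    norm_num
  set E : Set YY := univ ×ˢ Bx with hE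
  have hEm : MeasurableSet E := MeasurableSet.univ.prod hBm
  have hAs : Measurable fun p : Om d × YY => (fun j => (D.As p.1 θ j).re : ℕ → ℝ) := by
    refine measurable_pi_lambda _ fun j => Complex.measurable_re.comp ?_
    exact (measurable_pi_apply j).comp ((As_meas hD).comp (measurable_fst.prodMk measurable_const))
  have hAm : Measurable fun p : Om d × YY => (fun j => (D.Ams l p.1 θ j).re : ℕ → ℝ) := by
    refine measurable_pi_lambda _ fun j => Complex.measurable_re.comp ?_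
    exact (measurable_pi_apply j).comp ((Ams_meas hD l).comp (measurable_fst.prodMk measurable_const))
  have hob : ∀ (ω : Om d) (y : YY), ob srY (fun j => (D.As ω θ j).re) y n =
      (orb (Ar D ω θ) y.1 n, act (Mx (Ar D ω θ) y.1 n) y.2) := fun ω y => ob_srY _ _ _ _
  -- joint measurability of the two integrands
  have m1 : Measurable fun p : Om d × YY => ENNReal.ofReal (tf (ob srY (fun j => (D.As p.1 θ j).re) p.2 n)) := by
    have hc := ch_meas (st := fun a : ℂ => srY a.re) (kk := fun _ _ => 1) (φ := fun y => ENNReal.ofReal (tf y))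
      (sys_Y.meas.comp ((Complex.measurable_re.comp measurable_fst).prodMk measurable_snd)) measurable_const
      (ENNReal.measurable_ofReal.comp tf_BM.1) n
    have h2 : Measurable fun p : Om d × YY => ((D.As p.1 θ, p.2) : (ℕ → ℂ) × YY) :=
      ((As_meas hD).comp (measurable_fst.prodMk measurable_const)).prodMk measurable_snd
    have h3 := hc.comp h2
    have e : (fun p : Om d × YY => ENNReal.ofReal (tf (ob srY (fun j => (D.As p.1 θ j).re) p.2 n))) =
        (fun p : (ℕ → ℂ) × YY => ch (fun a : ℂ => srY a.re) (fun _ _ => 1) (fun y => ENNReal.ofReal (tf y)) p.1 n p.2) ∘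
          fun p : Om d × YY => (D.As p.1 θ, p.2) := by
      funext p
      exact (ch_ob srY tf n (D.As p.1 θ) p.2).symm
    rw [e]; exact h3
  have q1 : BM fun p : Om d × YY => Qr srY (D.s l) tf (fun j => (D.Ams l p.1 θ j).re) n p.2 :=
    (Qr_BM sys_Y.meas tf_BM (D.s l) n).comp (hAm.prodMk measurable_snd)
  have m2 : Measurable fun p : Om d × YY =>
      ENNReal.ofReal (Qr srY (D.s l) tf (fun j => (D.Ams l p.1 θ j).re) n p.2) := ENNReal.measurable_ofReal.comp q1.1
  -- lower bound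
  have ha : ∀ ω : Om d, ∫⁻ z : TT, ENNReal.ofReal (nn (Mx (Ar D ω θ) z n) ^ (-2 : ℤ)) ≤
      ∫⁻ y in E, ENNReal.ofReal (tf (ob srY (fun j => (D.As ω θ j).re) y n)) := by
    intro ω
    have hm : Measurable fun y : YY => ENNReal.ofReal (tf (ob srY (fun j => (D.As ω θ j).re) y n)) :=
      Measurable.of_uncurry_left (f := fun (ω : Om d) (y : YY) =>
        ENNReal.ofReal (tf (ob srY (fun j => (D.As ω θ j).re) y n))) m1
    rw [hE, Measure.volume_eq_prod TT (ℝ × ℝ), ← Measure.prod_restrict, Measure.restrict_univ,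
      lintegral_prod _ hm.aemeasurable]
    refine lintegral_mono fun z => ?_
    calc ENNReal.ofReal (nn (Mx (Ar D ω θ) z n) ^ (-2 : ℤ))
        = ∫⁻ _ in Bx, ENNReal.ofReal (nn (Mx (Ar D ω θ) z n) ^ (-2 : ℤ) / 4) := by
          rw [setLIntegral_const, hBv, ← ENNReal.ofReal_mul (by
            have := Pool.Agent.Helper95.PV.nn_ge_two (det_Mx (Ar D ω θ) z n); positivity)]
          congr 1
          ring
      _ ≤ ∫⁻ w in Bx, ENNReal.ofReal (tf (ob srY (fun j => (D.As ω θ j).re) (z, w) n)) := by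
          refine setLIntegral_mono' hBm fun w hw => ENNReal.ofReal_le_ofReal ?_
          rw [hob]
          exact tf_act (det_Mx _ _ _) _ (abs_le.2 hw.1) (abs_le.2 hw.2)
  -- upper bound
  have hc : ∀ ω : Om d, ∫⁻ y in E, ENNReal.ofReal (Qr srY (D.s l) tf (fun j => (D.Ams l ω θ j).re) n y) ≤
      ENNReal.ofReal ((2 * nm volume tf + 1) * (1 - η * D.s l ^ 2) ^ (n / 8)) := by
    intro ω
    have hQ := Qr_SQ sys_Y tf_SQ (D.s l) (fun j => (D.Ams l ω θ j).re) n
    have hg := hη (D.s l) hs0 hs (fun j => (D.Ams l ω θ j).re)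
      (fun j => (Complex.abs_re_le_norm _).trans (hK l ω _)) tf tf_SQ n
    have h1E : SQ volume (E.indicator fun _ : YY => (1 : ℝ)) := by
      refine ⟨⟨measurable_const.indicator hEm, 1, fun y => ?_⟩, ?_⟩
      · by_cases hy : y ∈ E
        · rw [indicator_of_mem hy]; norm_num
        · rw [indicator_of_notMem hy]; norm_num
      · have e : (fun y : YY => (E.indicator (fun _ : YY => (1 : ℝ)) y) ^ 2) = E.indicator fun _ => (1 : ℝ) := by
          funext y
          by_cases hy : y ∈ E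
          · simp only [indicator_of_mem hy]; norm_num
          · simp only [indicator_of_notMem hy]; norm_num
        rw [e, integrable_indicator_iff hEm]
        refine integrableOn_const (by
          rw [hE, Measure.volume_eq_prod TT (ℝ × ℝ), Measure.prod_prod, hBv]
          simp)
    have h1v : nm volume (E.indicator fun _ : YY => (1 : ℝ)) = 2 := by
      have e : (fun y : YY => (E.indicator (fun _ : YY => (1 : ℝ)) y) ^ 2) = E.indicator fun _ => (1 : ℝ) := by
        funext y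
        by_cases hy : y ∈ E
        · simp only [indicator_of_mem hy]; norm_num
        · simp only [indicator_of_notMem hy]; norm_num
      unfold nm
      rw [e, integral_indicator hEm, setIntegral_const, Measure.real, hE, Measure.volume_eq_prod TT (ℝ × ℝ),
        Measure.prod_prod, hBv]
      simp only [measure_univ, one_mul, smul_eq_mul, mul_one]
      rw [ENNReal.toReal_ofReal (by norm_num), show (4 : ℝ) = 2 ^ 2 by norm_num, Real.sqrt_sq (by norm_num)]
    have hi1 : Integrable (fun y => (E.indicator (fun _ : YY => (1 : ℝ)) y) *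
        Qr srY (D.s l) tf (fun j => (D.Ams l ω θ j).re) n y) volume := mul_int h1E hQ
    have e1 : (fun y => (E.indicator (fun _ : YY => (1 : ℝ)) y) *
        Qr srY (D.s l) tf (fun j => (D.Ams l ω θ j).re) n y) =
        E.indicator (Qr srY (D.s l) tf (fun j => (D.Ams l ω θ j).re) n) := by
      funext y
      by_cases hy : y ∈ E
      · rw [indicator_of_mem hy, indicator_of_mem hy, one_mul]
      · rw [indicator_of_notMem hy, indicator_of_notMem hy, zero_mul]
    have h5 := cau h1E hQ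
    rw [e1] at hi1
    simp only [e1] at h5
    rw [integral_indicator hEm, h1v] at h5
    rw [integrable_indicator_iff hEm] at hi1
    rw [← ofReal_integral_eq_lintegral_ofReal hi1 (Filter.Eventually.of_forall fun y => Qr_nonneg tf_nonneg _ _ _ _)]
    refine ENNReal.ofReal_le_ofReal ((le_abs_self _).trans (h5.trans ?_))
    have h6 : nm volume (Qr srY (D.s l) tf (fun j => (D.Ams l ω θ j).re) n) ≤
        nm volume tf * (1 - η * D.s l ^ 2) ^ (n / 8) := by
      refine abs_le_of_sq_le_sq' ?_ (mul_nonneg (nm_nonneg _) (pow_nonneg hx0 _)) |>.2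
      rw [nm_sq, mul_pow, nm_sq, ← pow_mul]
      refine hg.trans ?_
      rw [mul_comm]
      refine mul_le_mul_of_nonneg_left ?_ (int_sq_nonneg _)
      exact pow_le_pow_of_le_one hx0 hx1 (by omega)
    have h7 := pow_nonneg hx0 (n / 8)
    nlinarith [nm_nonneg (μ := (volume : Measure YY)) tf]
  -- conclusion
  calc ∫⁻ ω, (∫⁻ z : TT, ENNReal.ofReal (nn (Mx (Ar D ω θ) z n) ^ (-2 : ℤ))) ∂law d
      ≤ ∫⁻ ω, (∫⁻ y in E, ENNReal.ofReal (tf (ob srY (fun j => (D.As ω θ j).re) y n))) ∂law d :=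
        lintegral_mono ha
    _ = ∫⁻ y in E, (∫⁻ ω, ENNReal.ofReal (tf (ob srY (fun j => (D.As ω θ j).re) y n)) ∂law d) :=
        lintegral_lintegral_swap m1.aemeasurable
    _ = ∫⁻ y in E, (∫⁻ ω, ENNReal.ofReal (Qr srY (D.s l) tf (fun j => (D.Ams l ω θ j).re) n y) ∂law d) :=
        lintegral_congr fun y => annR0 hD sys_Y.meas tf_BM tf_nonneg hi θ y
    _ = ∫⁻ ω, (∫⁻ y in E, ENNReal.ofReal (Qr srY (D.s l) tf (fun j => (D.Ams l ω θ j).re) n y)) ∂law d :=
        (lintegral_lintegral_swap m2.aemeasurable).symm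
    _ ≤ ∫⁻ _, ENNReal.ofReal ((2 * nm volume tf + 1) * (1 - η * D.s l ^ 2) ^ (n / 8)) ∂law d := lintegral_mono hc
    _ = _ := by rw [lintegral_const, measure_univ, mul_one]

end Pool.Agent.Helper82.QR
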