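import Pool.Agent.Helper82.QR.GapTA

/-! Block QR-GAPT: the gap on the torus, functions of mean zero (README, GAP 1).

Let `M = 3 + 2 π K`, `β = 1/(640 M²)`, `T = 1/β`. `flat`: for `0 ≤ t ≤ 1/β` the function moves by at most `e` under `sh t`; `∫ t in 0..1/β, ∫ z, (f (sh t z) - f z)^2 ≤ e²/β`; for `β ≤ |sn Y|` the substitution `h = t |sn Y|` (`|sn Y| ≤ 1`, the range contains `[0, 1]`) and
`∫ h in Ioc 0 1, ∫ X, (f (X + h, Y) - f (X, Y))^2 = 2 var` (`int_Dd` in `Helper46/QP/Gap1.lean`) give `∫ (indicator of |sn Y| ≥ β) (f - f̄)^2 ≤ e²/(2β)`.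
`edisp59`: the set `{sn x ≠ 0, |sn X| ≤ M |sn x|, |sn x| ≤ M β}` (`z = (X, x)`) is displaced by `t = M`, `m = 16`. `cover59`: if `|sn x₁| < β`, `|sn x₀| < β` (`z = (x₁, x₀)`) then `z` is in this set or `(x₀, x₋₁) ∈` this set, where `x₁ = 2 x₀ - x₋₁ + c sin 2πx₀`, `|c| ≤ K` (or one of the sines is zero: null set).
`gap3`: stages `J = 3`: `f_0 = f`, `f_1 = Qr sr s f (A (· + 2)) 1`, `f_2 = Qr sr s f (A (· + 1)) 2`. -/

set_option autoImplicit false
open MeasureTheory Real Set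
open scoped ENNReal

namespace Pool.Agent.Helper82.QR

open Pool.Agent.Helper46.QP (dl BM TT Dd Dd_nonneg Dd_BM Dd_eq int_Dd meas_coe)

lemma BM_ind59 {α : Type*} [MeasurableSpace α] {f : α → ℝ} (hf : BM f) {E : Set α} (hE : MeasurableSet E) :
    BM (E.indicator f) := by
  obtain ⟨h1, K, hK⟩ := hf
  refine ⟨h1.indicator hE, |K|, fun y => ?_⟩
  by_cases hy : y ∈ E
  · rw [indicator_of_mem hy]; exact (hK y).trans (le_abs_self K)
  · rw [indicator_of_notMem hy, abs_zero]; exact abs_nonneg K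

lemma Dd_neg59 (g : UnitAddCircle → ℝ) (h : ℝ) : Dd g (-h) = Dd g h := by
  rw [← Dd_eq g (-h) h]
  unfold Dd
  refine integral_congr_ae (Filter.Eventually.of_forall fun X => ?_)
  have e : X + ((-h : ℝ) : UnitAddCircle) + (h : UnitAddCircle) = X := by
    rw [add_assoc, ← AddCircle.coe_add, neg_add_cancel, AddCircle.coe_zero, add_zero]
  simp only [e]
  ring

lemma Dd_abs59 (g : UnitAddCircle → ℝ) (t σ : ℝ) : Dd g (t * σ) = Dd g (t * |σ|) := by
  rcases abs_choice σ with h | h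
  · rw [h]
  · rw [h, mul_neg, Dd_neg59]

/-- the substitution -/
lemma subst59 {g : UnitAddCircle → ℝ} (hg : BM g) {β σ : ℝ} (hβ : 0 < β) (h1 : β ≤ |σ|) (h2 : |σ| ≤ 1) :
    2 * ((∫ X, g X ^ 2) - (∫ X, g X) ^ 2) ≤ ∫ t in Ioc (0 : ℝ) (1 / β), Dd g (t * σ) := by
  have hDi : ∀ a b : ℝ, IntervalIntegrable (Dd g) volume a b := fun a b => by
    rw [intervalIntegrable_iff, uIoc]
    exact (Dd_BM hg).int _
  have hσ : 0 < |σ| := hβ.trans_le h1
  rw [← int_Dd hg, ← intervalIntegral.integral_of_le zero_le_one, ← intervalIntegral.integral_of_le (by positivity)]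
  have e1 : ∫ t in (0 : ℝ)..(1 / β), Dd g (t * σ) = ∫ t in (0 : ℝ)..(1 / β), Dd g (t * |σ|) :=
    intervalIntegral.integral_congr fun t _ => Dd_abs59 g t σ
  rw [e1, intervalIntegral.integral_comp_mul_right _ hσ.ne', zero_mul, smul_eq_mul]
  have h3 : (1 : ℝ) ≤ 1 / β * |σ| := by
    rw [div_mul_eq_mul_div, one_mul, le_div_iff₀ hβ, one_mul]
    exact h1
  have h4 : ∫ h in (0 : ℝ)..1, Dd g h ≤ ∫ h in (0 : ℝ)..(1 / β * |σ|), Dd g h := by
    rw [← intervalIntegral.integral_add_adjacent_intervals (hDi 0 1) (hDi 1 (1 / β * |σ|))]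
    have := intervalIntegral.integral_nonneg (μ := volume) h3 (f := Dd g) fun u _ => Dd_nonneg u
    linarith
  have h5 : 0 ≤ ∫ h in (0 : ℝ)..(1 / β * |σ|), Dd g h :=
    intervalIntegral.integral_nonneg (by positivity) fun u _ => Dd_nonneg u
  have h6 : 1 ≤ |σ|⁻¹ := (one_le_inv₀ hσ).2 h2
  nlinarith

lemma var_eq59 {g : UnitAddCircle → ℝ} (hg : BM g) :
    ∫ X, (g X - ∫ X', g X') ^ 2 = (∫ X, g X ^ 2) - (∫ X, g X) ^ 2 := by
  set m := ∫ X', g X' with hm
  have e : ∀ X, (g X - m) ^ 2 = g X ^ 2 - 2 * m * g X + m ^ 2 := fun X => by ring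
  simp only [e]
  have i1 : Integrable (fun X : UnitAddCircle => g X ^ 2) := hg.sq.int _
  have i2 : Integrable (fun X : UnitAddCircle => 2 * m * g X) := (hg.const_mul _).int _
  have i12 : Integrable (fun X : UnitAddCircle => g X ^ 2 - 2 * m * g X) := i1.sub i2
  rw [integral_add i12 (integrable_const _), integral_sub i1 i2, integral_const_mul, ← hm]
  simp
  ring

theorem flat {f : TT → ℝ} (hf : BM f) {β e : ℝ} (hβ : 0 < β) (_hβ1 : β ≤ 1)
    (h : ∀ t : ℝ, |t| ≤ 1 / β → nm volume (fun z => f (sh t z) - f z) ≤ e) :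
    ∫ z in {z : TT | β ≤ |sn z.2|}, (f z - ∫ X, f (X, z.2)) ^ 2 ≤ e ^ 2 / (2 * β) := by
  have hsn2 : Measurable fun z : TT => sn z.2 := sn_meas.comp measurable_snd
  have hA : MeasurableSet {z : TT | β ≤ |sn z.2|} := measurableSet_le measurable_const hsn2.norm
  have hS : MeasurableSet {Y : UnitAddCircle | β ≤ |sn Y|} := measurableSet_le measurable_const sn_meas.norm
  -- the slices
  have hsl : ∀ Y, BM fun X : UnitAddCircle => f (X, Y) := fun Y => hf.comp (measurable_id.prodMk measurable_const)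
  have hbar : BM fun Y : UnitAddCircle => ∫ X : UnitAddCircle, f (X, Y) := by
    have h1 : BM fun p : UnitAddCircle × UnitAddCircle => f (p.2, p.1) := hf.comp measurable_swap
    exact h1.integral volume
  have hFd : BM fun z : TT => (f z - ∫ X, f (X, z.2)) ^ 2 := (hf.sub (hbar.comp measurable_snd)).sq
  -- the double integral
  have hmap : Measurable fun q : (ℝ × UnitAddCircle) × UnitAddCircle =>
      ((q.2 + ((q.1.1 * sn q.1.2 : ℝ) : UnitAddCircle), q.1.2) : TT) :=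
    (measurable_snd.add (meas_coe.comp ((measurable_fst.comp measurable_fst).mul
      (sn_meas.comp (measurable_snd.comp measurable_fst))))).prodMk (measurable_snd.comp measurable_fst)
  have hid : Measurable fun q : (ℝ × UnitAddCircle) × UnitAddCircle => ((q.2, q.1.2) : TT) :=
    measurable_snd.prodMk (measurable_snd.comp measurable_fst)
  have hU0 : BM fun q : (ℝ × UnitAddCircle) × UnitAddCircle =>
      (f (q.2 + ((q.1.1 * sn q.1.2 : ℝ) : UnitAddCircle), q.1.2) - f (q.2, q.1.2)) ^ 2 :=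
    ((hf.comp hmap).sub (hf.comp hid)).sq
  have hU : BM fun p : ℝ × UnitAddCircle => Dd (fun X => f (X, p.2)) (p.1 * sn p.2) := hU0.integral volume
  have h1 : ∀ t : ℝ, |t| ≤ 1 / β → ∫ Y : UnitAddCircle, Dd (fun X => f (X, Y)) (t * sn Y) ≤ e ^ 2 := by
    intro t ht
    have hG : BM fun z : TT => (f (sh t z) - f z) ^ 2 := by
      have hst : Measurable fun z : TT => sh t z := (sys_T.fl.mp t).measurable
      exact ((hf.comp hst).sub hf).sq
    have e1 : ∫ z : TT, (f (sh t z) - f z) ^ 2 = ∫ Y : UnitAddCircle, Dd (fun X => f (X, Y)) (t * sn Y) := by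
      rw [Measure.volume_eq_prod]
      exact integral_prod_symm _ (hG.int _)
    rw [← e1, ← nm_sq]
    exact pow_le_pow_left₀ (nm_nonneg _) (h t ht) 2
  have h2 : ∫ t in Ioc (0 : ℝ) (1 / β), ∫ Y : UnitAddCircle, Dd (fun X => f (X, Y)) (t * sn Y) ≤ e ^ 2 * (1 / β) := by
    have e2 : ∫ _ in Ioc (0 : ℝ) (1 / β), e ^ 2 = e ^ 2 * (1 / β) := by
      rw [setIntegral_const, Measure.real, Real.volume_Ioc, sub_zero, ENNReal.toReal_ofReal (by positivity), smul_eq_mul,
        mul_comm]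
    rw [← e2]
    refine setIntegral_mono_on ((hU.integral volume).int _) (integrable_const _) measurableSet_Ioc fun t ht => ?_
    refine h1 t ?_
    rw [abs_of_pos ht.1]
    exact ht.2
  have h3 : ∫ t in Ioc (0 : ℝ) (1 / β), ∫ Y : UnitAddCircle, Dd (fun X => f (X, Y)) (t * sn Y) =
      ∫ Y : UnitAddCircle, ∫ t in Ioc (0 : ℝ) (1 / β), Dd (fun X => f (X, Y)) (t * sn Y) :=
    integral_integral_swap (f := fun (t : ℝ) (Y : UnitAddCircle) => Dd (fun X => f (X, Y)) (t * sn Y)) (hU.int _)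
  have hI : BM fun Y : UnitAddCircle => ∫ t in Ioc (0 : ℝ) (1 / β), Dd (fun X => f (X, Y)) (t * sn Y) := by
    obtain ⟨K, hK⟩ := hU.2
    have h4 : StronglyMeasurable (Function.uncurry fun (Y : UnitAddCircle) (t : ℝ) => Dd (fun X => f (X, Y)) (t * sn Y)) :=
      (hU.1.comp measurable_swap).stronglyMeasurable
    refine ⟨h4.integral_prod_right.measurable, K * (1 / β), fun Y => ?_⟩
    have := norm_setIntegral_le_of_norm_le_const (μ := volume) (s := Ioc (0 : ℝ) (1 / β))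
      (f := fun t => Dd (fun X => f (X, Y)) (t * sn Y)) (C := K) (by rw [Real.volume_Ioc]; exact ENNReal.ofReal_lt_top)
      (fun t _ => hK (t, Y))
    rw [Measure.real, Real.volume_Ioc, sub_zero, ENNReal.toReal_ofReal (by positivity)] at this
    exact this
  -- the left side
  have h5 : ∫ z in {z : TT | β ≤ |sn z.2|}, (f z - ∫ X, f (X, z.2)) ^ 2 =
      ∫ Y : UnitAddCircle, {Y : UnitAddCircle | β ≤ |sn Y|}.indicator
        (fun Y => (∫ X, f (X, Y) ^ 2) - (∫ X, f (X, Y)) ^ 2) Y := by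
    rw [← integral_indicator hA, Measure.volume_eq_prod, integral_prod_symm _ ((BM_ind59 hFd hA).int _)]
    refine integral_congr_ae (Filter.Eventually.of_forall fun Y => ?_)
    by_cases hY : β ≤ |sn Y|
    · have e1 : ∀ X : UnitAddCircle, {z : TT | β ≤ |sn z.2|}.indicator (fun z => (f z - ∫ X, f (X, z.2)) ^ 2) (X, Y) =
          (f (X, Y) - ∫ X', f (X', Y)) ^ 2 := fun X => indicator_of_mem (s := {z : TT | β ≤ |sn z.2|}) (a := (X, Y)) hY _
      simp only [e1]
      rw [indicator_of_mem (s := {Y : UnitAddCircle | β ≤ |sn Y|}) (a := Y) hY]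
      exact var_eq59 (hsl Y)
    · have e1 : ∀ X : UnitAddCircle, {z : TT | β ≤ |sn z.2|}.indicator (fun z => (f z - ∫ X, f (X, z.2)) ^ 2) (X, Y) =
          0 := fun X => indicator_of_notMem (s := {z : TT | β ≤ |sn z.2|}) (a := (X, Y)) hY _
      simp only [e1]
      rw [indicator_of_notMem (s := {Y : UnitAddCircle | β ≤ |sn Y|}) (a := Y) hY]
      simp
  rw [h5]
  have hsq : BM fun Y : UnitAddCircle => ∫ X : UnitAddCircle, f (X, Y) ^ 2 := by
    have h1 : BM fun p : UnitAddCircle × UnitAddCircle => f (p.2, p.1) ^ 2 := (hf.comp measurable_swap).sq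
    exact h1.integral volume
  have hv : BM fun Y : UnitAddCircle => (∫ X, f (X, Y) ^ 2) - (∫ X, f (X, Y)) ^ 2 := hsq.sub hbar.sq
  have h6 : ∫ Y : UnitAddCircle, {Y : UnitAddCircle | β ≤ |sn Y|}.indicator
        (fun Y => (∫ X, f (X, Y) ^ 2) - (∫ X, f (X, Y)) ^ 2) Y ≤
      ∫ Y : UnitAddCircle, 1 / 2 * ∫ t in Ioc (0 : ℝ) (1 / β), Dd (fun X => f (X, Y)) (t * sn Y) := by
    refine integral_mono ((BM_ind59 hv hS).int _) ((hI.const_mul _).int _) fun Y => ?_
    by_cases hY : β ≤ |sn Y|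
    · rw [indicator_of_mem (s := {Y : UnitAddCircle | β ≤ |sn Y|}) (a := Y) hY]
      have := subst59 (hsl Y) hβ hY (abs_sn59 Y)
      simp only
      linarith
    · rw [indicator_of_notMem (s := {Y : UnitAddCircle | β ≤ |sn Y|}) (a := Y) hY]
      exact mul_nonneg (by norm_num) (setIntegral_nonneg measurableSet_Ioc fun t _ => Dd_nonneg _)
  refine h6.trans ?_
  rw [integral_const_mul, ← h3]
  calc 1 / 2 * ∫ t in Ioc (0 : ℝ) (1 / β), ∫ Y : UnitAddCircle, Dd (fun X => f (X, Y)) (t * sn Y)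
      ≤ 1 / 2 * (e ^ 2 * (1 / β)) := mul_le_mul_of_nonneg_left h2 (by norm_num)
    _ = e ^ 2 / (2 * β) := by field_simp

/-! ### nearly constant functions -/

/-- Cauchy-Schwarz on a set -/
lemma cs59 {α : Type*} [MeasurableSpace α] {μ : Measure α} [IsProbabilityMeasure μ] {g : α → ℝ} (hg : BM g) (S : Set α) :
    (∫ z in S, g z ∂μ) ^ 2 ≤ μ.real S * ∫ z in S, g z ^ 2 ∂μ := by
  have h1 : SQ (μ.restrict S) fun _ : α => (1 : ℝ) := ⟨BM.const 1, integrable_const _⟩
  have h2 : SQ (μ.restrict S) g := ⟨hg, hg.sq.int _⟩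
  have h3 := cau h1 h2
  simp only [one_mul] at h3
  have h4 : (∫ z in S, g z ∂μ) ^ 2 ≤ (nm (μ.restrict S) (fun _ => (1 : ℝ)) * nm (μ.restrict S) g) ^ 2 := by
    rw [← sq_abs]
    exact pow_le_pow_left₀ (abs_nonneg _) h3 2
  rw [mul_pow, nm_sq, nm_sq] at h4
  refine h4.trans (le_of_eq ?_)
  congr 1
  simp [Measure.real]

lemma rect59 {a b : UnitAddCircle → ℝ} (ha : BM a) (hb : BM b) (R : Set UnitAddCircle) :
    ∫ z in R ×ˢ R, (a z.1 - b z.2) ^ 2 ∂(volume.prod volume) =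
      (volume : Measure UnitAddCircle).real R * (∫ x in R, a x ^ 2) + (volume : Measure UnitAddCircle).real R * (∫ x in R, b x ^ 2) -
        2 * ((∫ x in R, a x) * ∫ x in R, b x) := by
  have e : ∀ z : UnitAddCircle × UnitAddCircle, (a z.1 - b z.2) ^ 2 = a z.1 ^ 2 * 1 - 2 * (a z.1 * b z.2) + 1 * b z.2 ^ 2 :=
    fun z => by ring
  have ha1 : BM fun z : UnitAddCircle × UnitAddCircle => a z.1 := ha.comp measurable_fst
  have hb1 : BM fun z : UnitAddCircle × UnitAddCircle => b z.2 := hb.comp measurable_snd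
  simp only [e]
  have i1 : Integrable (fun z : UnitAddCircle × UnitAddCircle => a z.1 ^ 2 * 1) ((volume.prod volume).restrict (R ×ˢ R)) :=
    (ha1.sq.mul (BM.const 1)).int _
  have i2 : Integrable (fun z : UnitAddCircle × UnitAddCircle => 2 * (a z.1 * b z.2)) ((volume.prod volume).restrict (R ×ˢ R)) :=
    ((ha1.mul hb1).const_mul 2).int _
  have i3 : Integrable (fun z : UnitAddCircle × UnitAddCircle => 1 * b z.2 ^ 2) ((volume.prod volume).restrict (R ×ˢ R)) :=
    (hb1.sq.const_mul 1).int _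
  have i12 : Integrable (fun z : UnitAddCircle × UnitAddCircle => a z.1 ^ 2 * 1 - 2 * (a z.1 * b z.2))
      ((volume.prod volume).restrict (R ×ˢ R)) := i1.sub i2
  rw [integral_add i12 i3, integral_sub i1 i2, integral_const_mul,
    setIntegral_prod_mul (fun x => a x ^ 2) (fun _ => (1 : ℝ)) R R, setIntegral_prod_mul a b R R,
    setIntegral_prod_mul (fun _ => (1 : ℝ)) (fun x => b x ^ 2) R R]
  have e1 : ∫ _ in R, (1 : ℝ) = (volume : Measure UnitAddCircle).real R := by simp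
  rw [e1]
  ring

/-- a function close to a function of the first variable on a strip and to a function of the second variable on a strip -/
lemma near59 {φ : TT → ℝ} (hφ : BM φ) (h0 : ∫ z, φ z = 0) {a b : UnitAddCircle → ℝ} (ha : BM a) (hb : BM b) {β E1 E2 : ℝ}
    (hβ : 0 < β) (hβ1 : β ≤ 1 / 4)
    (h1 : ∫ z in {z : TT | β ≤ |sn z.1|}, (φ z - a z.1) ^ 2 ≤ E1)
    (h2 : ∫ z in {z : TT | β ≤ |sn z.2|}, (φ z - b z.2) ^ 2 ≤ E2) :
    (∫ z in {z : TT | β ≤ |sn z.1|}, φ z ^ 2) + ∫ z in {z : TT | β ≤ |sn z.2|}, φ z ^ 2 ≤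
      42 * (E1 + E2) + 256 * β * ∫ z, φ z ^ 2 := by
  set R : Set UnitAddCircle := {x | β ≤ |sn x|} with hR
  set A1 : Set TT := {z : TT | β ≤ |sn z.1|} with hA1
  set A2 : Set TT := {z : TT | β ≤ |sn z.2|} with hA2
  have hRm : MeasurableSet R := measurableSet_le measurable_const sn_meas.norm
  have hA1m : MeasurableSet A1 := measurable_fst hRm
  have hA2m : MeasurableSet A2 := measurable_snd hRm
  have hRR : (R ×ˢ R : Set TT) = A1 ∩ A2 := by
    ext z
    simp only [hR, hA1, hA2, mem_prod, mem_inter_iff]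
    rfl
  have hRRm : MeasurableSet (R ×ˢ R : Set TT) := hRm.prod hRm
  have hA1R : A1 = R ×ˢ (univ : Set UnitAddCircle) := by
    ext z
    simp only [hR, hA1, mem_prod, mem_univ, and_true]
    rfl
  have hA2R : A2 = (univ : Set UnitAddCircle) ×ˢ R := by
    ext z
    simp only [hR, hA2, mem_prod, mem_univ, true_and]
    rfl
  have ha1 : BM fun z : TT => a z.1 := ha.comp measurable_fst
  have hb1 : BM fun z : TT => b z.2 := hb.comp measurable_snd
  set I : ℝ := ∫ z, φ z ^ 2 with hI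
  have hI0 : 0 ≤ I := integral_nonneg fun _ => sq_nonneg _
  have hE1 : 0 ≤ E1 := (setIntegral_nonneg hA1m fun _ _ => sq_nonneg _).trans h1
  have hE2 : 0 ≤ E2 := (setIntegral_nonneg hA2m fun _ _ => sq_nonneg _).trans h2
  set r : ℝ := (volume : Measure UnitAddCircle).real R with hr
  have hr1 : r ≤ 1 := measureReal_le_one
  have hRc : (volume : Measure UnitAddCircle).real Rᶜ ≤ 2 * β := by
    have e1 : Rᶜ = {x : UnitAddCircle | |sn x| < β} := by
      ext x
      simp only [hR, mem_compl_iff, mem_ofPred_eq, not_le]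
    rw [e1, Measure.real]
    exact ENNReal.toReal_le_of_le_ofReal (by positivity) (strip59 hβ.le)
  have hr2 : 1 / 2 ≤ r := by
    have := probReal_compl_eq_one_sub (μ := (volume : Measure UnitAddCircle)) hRm
    linarith
  -- the complement of the square
  have hcompl : (volume : Measure TT).real (R ×ˢ R : Set TT)ᶜ ≤ 4 * β := by
    have e1 : (R ×ˢ R : Set TT)ᶜ ⊆ (Rᶜ ×ˢ (univ : Set UnitAddCircle)) ∪ ((univ : Set UnitAddCircle) ×ˢ Rᶜ) := by
      intro z hz
      by_cases h : z.1 ∈ R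
      · right
        refine ⟨mem_univ _, fun h' => hz ⟨h, h'⟩⟩
      · left
        exact ⟨h, mem_univ _⟩
    have e2 : (volume : Measure TT).real (Rᶜ ×ˢ (univ : Set UnitAddCircle)) = (volume : Measure UnitAddCircle).real Rᶜ := by
      rw [Measure.volume_eq_prod, measureReal_prod_prod, probReal_univ, mul_one]
    have e3 : (volume : Measure TT).real ((univ : Set UnitAddCircle) ×ˢ Rᶜ) = (volume : Measure UnitAddCircle).real Rᶜ := by
      rw [Measure.volume_eq_prod, measureReal_prod_prod, probReal_univ, one_mul]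
    calc (volume : Measure TT).real (R ×ˢ R : Set TT)ᶜ ≤ _ := measureReal_mono e1
      _ ≤ _ := measureReal_union_le _ _
      _ ≤ 4 * β := by rw [e2, e3]; linarith
  have hφRR : (∫ z in (R ×ˢ R : Set TT), φ z) ^ 2 ≤ 4 * β * I := by
    have e1 := integral_add_compl hRRm (hφ.int (volume : Measure TT))
    rw [h0] at e1
    have e2 : ∫ z in (R ×ˢ R : Set TT), φ z = -∫ z in (R ×ˢ R : Set TT)ᶜ, φ z := by linarith
    rw [e2, neg_sq]
    refine (cs59 hφ _).trans ?_
    have e3 : ∫ z in (R ×ˢ R : Set TT)ᶜ, φ z ^ 2 ≤ I :=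
      setIntegral_le_integral (hφ.sq.int _) (Filter.Eventually.of_forall fun _ => sq_nonneg _)
    have e4 : 0 ≤ ∫ z in (R ×ˢ R : Set TT)ᶜ, φ z ^ 2 := setIntegral_nonneg hRRm.compl fun _ _ => sq_nonneg _
    exact mul_le_mul hcompl e3 e4 (by positivity)
  -- errors on the square
  have hda : BM fun z : TT => φ z - a z.1 := hφ.sub ha1
  have hdb : BM fun z : TT => φ z - b z.2 := hφ.sub hb1
  have g1 : ∫ z in (R ×ˢ R : Set TT), (φ z - a z.1) ^ 2 ≤ E1 := by
    refine le_trans ?_ h1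
    refine setIntegral_mono_set (hda.sq.int _) (Filter.Eventually.of_forall fun _ => sq_nonneg _) ?_
    rw [hRR]
    exact LE.le.eventuallyLE (inter_subset_left : A1 ∩ A2 ⊆ A1)
  have g2 : ∫ z in (R ×ˢ R : Set TT), (φ z - b z.2) ^ 2 ≤ E2 := by
    refine le_trans ?_ h2
    refine setIntegral_mono_set (hdb.sq.int _) (Filter.Eventually.of_forall fun _ => sq_nonneg _) ?_
    rw [hRR]
    exact LE.le.eventuallyLE (inter_subset_right : A1 ∩ A2 ⊆ A2)
  have g3 : ∫ z in (R ×ˢ R : Set TT), (a z.1 - b z.2) ^ 2 ≤ 2 * E1 + 2 * E2 := by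
    have e1 : ∫ z in (R ×ˢ R : Set TT), (a z.1 - b z.2) ^ 2 ≤
        ∫ z in (R ×ˢ R : Set TT), (2 * (φ z - a z.1) ^ 2 + 2 * (φ z - b z.2) ^ 2) := by
      refine setIntegral_mono ((ha1.sub hb1).sq.int _) (((hda.sq.const_mul 2).add (hdb.sq.const_mul 2)).int _) fun z => ?_
      simp only
      nlinarith [sq_nonneg ((φ z - a z.1) + (φ z - b z.2))]
    have i1 : Integrable (fun z : TT => 2 * (φ z - a z.1) ^ 2) (volume.restrict (R ×ˢ R : Set TT)) := (hda.sq.const_mul 2).int _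
    have i2 : Integrable (fun z : TT => 2 * (φ z - b z.2) ^ 2) (volume.restrict (R ×ˢ R : Set TT)) := (hdb.sq.const_mul 2).int _
    rw [integral_add i1 i2, integral_const_mul, integral_const_mul] at e1
    linarith
  have hvol1 : (volume : Measure TT).real (R ×ˢ R : Set TT) ≤ 1 := measureReal_le_one
  have hmean : ∀ (c : TT → ℝ), BM c → ∀ E : ℝ, 0 ≤ E → ∫ z in (R ×ˢ R : Set TT), (φ z - c z) ^ 2 ≤ E →
      (∫ z in (R ×ˢ R : Set TT), c z) ^ 2 ≤ 8 * β * I + 2 * E := by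
    intro c hc E hE h
    have e1 : ∫ z in (R ×ˢ R : Set TT), c z = (∫ z in (R ×ˢ R : Set TT), φ z) - ∫ z in (R ×ˢ R : Set TT), (φ z - c z) := by
      rw [integral_sub (hφ.int _) (hc.int _)]
      ring
    have e2 := cs59 (μ := (volume : Measure TT)) (hφ.sub hc) (R ×ˢ R : Set TT)
    have e3 : (∫ z in (R ×ˢ R : Set TT), (φ z - c z)) ^ 2 ≤ E := by
      refine e2.trans ?_
      have e4 : 0 ≤ ∫ z in (R ×ˢ R : Set TT), (φ z - c z) ^ 2 := setIntegral_nonneg hRRm fun _ _ => sq_nonneg _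
      calc (volume : Measure TT).real (R ×ˢ R : Set TT) * ∫ z in (R ×ˢ R : Set TT), (φ z - c z) ^ 2
          ≤ 1 * ∫ z in (R ×ˢ R : Set TT), (φ z - c z) ^ 2 := mul_le_mul_of_nonneg_right hvol1 e4
        _ ≤ E := by rw [one_mul]; exact h
    rw [e1]
    nlinarith [sq_nonneg ((∫ z in (R ×ˢ R : Set TT), φ z) + ∫ z in (R ×ˢ R : Set TT), (φ z - c z))]
  have m1 : ∫ z in (R ×ˢ R : Set TT), a z.1 = r * ∫ x in R, a x := by
    have := setIntegral_prod_mul (μ := (volume : Measure UnitAddCircle)) (ν := (volume : Measure UnitAddCircle)) a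
      (fun _ => (1 : ℝ)) R R
    simp only [mul_one] at this
    rw [Measure.volume_eq_prod, this]
    have e1 : ∫ _ in R, (1 : ℝ) = r := by simp [hr]
    rw [e1, mul_comm]
  have m2 : ∫ z in (R ×ˢ R : Set TT), b z.2 = r * ∫ x in R, b x := by
    have := setIntegral_prod_mul (μ := (volume : Measure UnitAddCircle)) (ν := (volume : Measure UnitAddCircle))
      (fun _ => (1 : ℝ)) b R R
    simp only [one_mul] at this
    rw [Measure.volume_eq_prod, this]
    have e1 : ∫ _ in R, (1 : ℝ) = r := by simp [hr]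
    rw [e1]
  have n1 := hmean (fun z => a z.1) ha1 E1 hE1 g1
  have n2 := hmean (fun z => b z.2) hb1 E2 hE2 g2
  rw [m1] at n1
  rw [m2] at n2
  have g4 := rect59 ha hb R
  rw [← Measure.volume_eq_prod, ← hr] at g4
  set α := ∫ x in R, a x with hα
  set γ := ∫ x in R, b x with hγ
  set P := ∫ x in R, a x ^ 2 with hP
  set Q := ∫ x in R, b x ^ 2 with hQ
  have hP0 : 0 ≤ P := setIntegral_nonneg hRm fun _ _ => sq_nonneg _
  have hQ0 : 0 ≤ Q := setIntegral_nonneg hRm fun _ _ => sq_nonneg _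
  have p1 : α ^ 2 ≤ 4 * (8 * β * I + 2 * E1) := by
    have e1 : 1 / 4 * α ^ 2 ≤ r ^ 2 * α ^ 2 := mul_le_mul_of_nonneg_right (by nlinarith) (sq_nonneg _)
    rw [mul_pow] at n1
    linarith
  have p2 : γ ^ 2 ≤ 4 * (8 * β * I + 2 * E2) := by
    have e1 : 1 / 4 * γ ^ 2 ≤ r ^ 2 * γ ^ 2 := mul_le_mul_of_nonneg_right (by nlinarith) (sq_nonneg _)
    rw [mul_pow] at n2
    linarith
  have p3 : P + Q ≤ 20 * (E1 + E2) + 128 * β * I := by
    have e1 : 1 / 2 * P ≤ r * P := mul_le_mul_of_nonneg_right hr2 hP0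
    have e2 : 1 / 2 * Q ≤ r * Q := mul_le_mul_of_nonneg_right hr2 hQ0
    have e3 : 2 * (α * γ) ≤ α ^ 2 + γ ^ 2 := by nlinarith [sq_nonneg (α - γ)]
    linarith
  -- the two strips
  have q1 : ∫ z in A1, φ z ^ 2 ≤ 2 * E1 + 2 * P := by
    have e1 : ∫ z in A1, φ z ^ 2 ≤ ∫ z in A1, (2 * (φ z - a z.1) ^ 2 + 2 * a z.1 ^ 2) := by
      refine setIntegral_mono (hφ.sq.int _) (((hda.sq.const_mul 2).add (ha1.sq.const_mul 2)).int _) fun z => ?_
      simp only
      nlinarith [sq_nonneg (φ z - 2 * a z.1)]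
    have i1 : Integrable (fun z : TT => 2 * (φ z - a z.1) ^ 2) (volume.restrict A1) := (hda.sq.const_mul 2).int _
    have i2 : Integrable (fun z : TT => 2 * a z.1 ^ 2) (volume.restrict A1) := (ha1.sq.const_mul 2).int _
    rw [integral_add i1 i2, integral_const_mul, integral_const_mul] at e1
    have e2 : ∫ z in A1, a z.1 ^ 2 = P := by
      have := setIntegral_prod_mul (μ := (volume : Measure UnitAddCircle)) (ν := (volume : Measure UnitAddCircle))
        (fun x => a x ^ 2) (fun _ => (1 : ℝ)) R univ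
      simp only [mul_one] at this
      rw [hA1R, Measure.volume_eq_prod, this]
      simp [hP]
    rw [e2] at e1
    linarith
  have q2 : ∫ z in A2, φ z ^ 2 ≤ 2 * E2 + 2 * Q := by
    have e1 : ∫ z in A2, φ z ^ 2 ≤ ∫ z in A2, (2 * (φ z - b z.2) ^ 2 + 2 * b z.2 ^ 2) := by
      refine setIntegral_mono (hφ.sq.int _) (((hdb.sq.const_mul 2).add (hb1.sq.const_mul 2)).int _) fun z => ?_
      simp only
      nlinarith [sq_nonneg (φ z - 2 * b z.2)]
    have i1 : Integrable (fun z : TT => 2 * (φ z - b z.2) ^ 2) (volume.restrict A2) := (hdb.sq.const_mul 2).int _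
    have i2 : Integrable (fun z : TT => 2 * b z.2 ^ 2) (volume.restrict A2) := (hb1.sq.const_mul 2).int _
    rw [integral_add i1 i2, integral_const_mul, integral_const_mul] at e1
    have e2 : ∫ z in A2, b z.2 ^ 2 = Q := by
      have := setIntegral_prod_mul (μ := (volume : Measure UnitAddCircle)) (ν := (volume : Measure UnitAddCircle))
        (fun _ => (1 : ℝ)) (fun x => b x ^ 2) univ R
      simp only [one_mul] at this
      rw [hA2R, Measure.volume_eq_prod, this]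
      simp [hQ]
    rw [e2] at e1
    linarith
  linarith

/-! ### means and norms of the averaged chain -/

lemma av_int59 {Y : Type*} [MeasurableSpace Y] {μ : Measure Y} [IsProbabilityMeasure μ] {V : ℝ → Y → Y} (hV : Flow μ V)
    {f : Y → ℝ} (hf : BM f) (s : ℝ) : ∫ y, av V s f y ∂μ = ∫ y, f y ∂μ := by
  have hm : Measurable fun p : Y × ℂ => V (s * p.2.re) p.1 :=
    hV.meas.comp ((measurable_const.mul (Complex.measurable_re.comp measurable_snd)).prodMk measurable_fst)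
  have h1 : ∫ y, av V s f y ∂μ = ∫ w, ∫ y, f (V (s * w.re) y) ∂μ ∂dl := by
    unfold av
    exact integral_integral_swap (f := fun (y : Y) (w : ℂ) => f (V (s * w.re) y)) ((hf.comp hm).int _)
  rw [h1]
  have h2 : ∀ w : ℂ, ∫ y, f (V (s * w.re) y) ∂μ = ∫ y, f y ∂μ := fun w => int_comp hf.1 (hV.mp _)
  simp only [h2]
  rw [integral_const, probReal_univ, one_smul]

lemma Qr_int59 {Y : Type*} [MeasurableSpace Y] {μ : Measure Y} [IsProbabilityMeasure μ] {V : ℝ → Y → Y} {st : ℝ → Y → Y}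
    (hS : Sys μ V st) {f : Y → ℝ} (hf : BM f) (s : ℝ) (n : ℕ) : ∀ A : ℕ → ℝ, ∫ y, Qr st s f A n y ∂μ = ∫ y, f y ∂μ := by
  have hfS : SQ μ f := ⟨hf, hf.sq.int _⟩
  induction n with
  | zero => intro A; rfl
  | succ n ih =>
    intro A
    have h1 := (Qr_SQ hS hfS s (fun j => A (j + 1)) n).1
    have h2 : BM (av V s (Qr st s f (fun j => A (j + 1)) n)) := (av_SQ hS.fl ⟨h1, h1.sq.int _⟩ s).1.1
    simp only [Qr_succ hS]
    rw [int_comp h2.1 (hS.mp (A 0)), av_int59 hS.fl h1 s, ih]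

lemma Qr_le59 {Y : Type*} [MeasurableSpace Y] {μ : Measure Y} [IsProbabilityMeasure μ] {V : ℝ → Y → Y} {st : ℝ → Y → Y}
    (hS : Sys μ V st) {f : Y → ℝ} (hf : BM f) (s : ℝ) (n : ℕ) : ∀ A : ℕ → ℝ, nm μ (Qr st s f A n) ≤ nm μ f := by
  have hfS : SQ μ f := ⟨hf, hf.sq.int _⟩
  induction n with
  | zero => intro A; exact le_rfl
  | succ n ih =>
    intro A
    have h1 := Qr_SQ hS hfS s (fun j => A (j + 1)) n
    have h2 := av_SQ hS.fl h1 s
    have e : Qr st s f A (n + 1) = fun y => av V s (Qr st s f (fun j => A (j + 1)) n) (st (A 0) y) := by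
      funext y; exact Qr_succ hS s f A n y
    rw [e, nm_comp h2.1 (hS.mp (A 0))]
    exact h2.2.trans (ih _)

lemma ind_sq59 {Y : Type*} [MeasurableSpace Y] {μ : Measure Y} {f : Y → ℝ} {E : Set Y} (hE : MeasurableSet E) :
    ∫ y in E, f y ^ 2 ∂μ = nm μ (E.indicator f) ^ 2 := by
  rw [nm_sq, ← integral_indicator hE]
  refine integral_congr_ae (Filter.Eventually.of_forall fun y => ?_)
  by_cases hy : y ∈ E
  · simp only [indicator_of_mem hy]
  · simp only [indicator_of_notMem hy]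
    ring

theorem gap3 (K : ℝ) (hK : 0 ≤ K) : ∃ η : ℝ, 0 < η ∧ η ≤ 1 ∧ ∀ s : ℝ, 0 < s → s ≤ 1 → ∀ A : ℕ → ℝ, (∀ j, |A j| ≤ K) →
    ∀ f : TT → ℝ, BM f → ∫ z, f z = 0 → ∫ z, Qr sr s f A 3 z ^ 2 ≤ (1 - η * s ^ 2) * ∫ z, f z ^ 2 := by
  set M : ℝ := 3 + 2 * π * K with hM
  have hM1 : 3 ≤ M := by
    have : 0 ≤ 2 * π * K := by positivity
    linarith
  set T : ℝ := 640 * M ^ 2 with hT
  have hT1 : 1 ≤ T := by nlinarith
  have hT0 : 0 < T := by linarith
  set β : ℝ := 1 / T with hβ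
  have hβ0 : 0 < β := by positivity
  have hβT : 1 / β = T := by rw [hβ, one_div_one_div]
  have hβM : M ^ 2 * β = 1 / 640 := by
    rw [hβ, hT]
    field_simp
  have hβ1 : β ≤ 1 / 5760 := by nlinarith
  set C1 : ℝ := 157 * 16129 * T ^ 3 with hC1
  have hC10 : 0 < C1 := by positivity
  refine ⟨1 / (2 * (1 + C1)), by positivity, ?_, ?_⟩
  · rw [div_le_one (by positivity)]
    linarith
  intro s hs hs1 A hA f hf h0
  have hfS : SQ (volume : Measure TT) f := ⟨hf, hf.sq.int _⟩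
  set Λ : ℝ := (∫ z, f z ^ 2) - ∫ z, Qr sr s f A 3 z ^ 2 with hΛ
  set e : ℝ := 127 * T / s * √Λ with he
  obtain ⟨s0a, s0b, s0c, -⟩ := stages sys_T hfS hs hs1 hT1 A (J := 3) (i := 0) (by norm_num) he
  obtain ⟨s1a, s1b, s1c, s1d⟩ := stages sys_T hfS hs hs1 hT1 A (J := 3) (i := 1) (by norm_num) he
  obtain ⟨s2a, -, -, s2d⟩ := stages sys_T hfS hs hs1 hT1 A (J := 3) (i := 2) (by norm_num) he
  set f1 : TT → ℝ := Qr sr s f (fun k => A (k + 2)) 1 with hf1
  set f2 : TT → ℝ := Qr sr s f (fun k => A (k + 1)) 2 with hf2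
  have t0a : ∀ t : ℝ, |t| ≤ T → nm volume (fun y => f (sh t y) - f y) ≤ e := s0a
  have t0b : nm volume (fun y => av sh s f y - f y) ≤ e := s0b
  have t0c : nm volume (Qr sr s f A 3) ≤ nm volume f := s0c
  have t1a : ∀ t : ℝ, |t| ≤ T → nm volume (fun y => f1 (sh t y) - f1 y) ≤ e := s1a
  have t1b : nm volume (fun y => av sh s f1 y - f1 y) ≤ e := s1b
  have t1c : nm volume (Qr sr s f A 3) ≤ nm volume f1 := s1c
  have t1d : nm volume f1 ≤ nm volume f := s1d
  have t2a : ∀ t : ℝ, |t| ≤ T → nm volume (fun y => f2 (sh t y) - f2 y) ≤ e := s2a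
  have t2d : nm volume f2 ≤ nm volume f := s2d
  have f1_eq : ∀ y, f1 y = av sh s f (sr (A 2) y) := fun y => Qr_succ sys_T s f (fun k => A (k + 2)) 0 y
  have f2_eq : ∀ y, f2 y = av sh s f1 (sr (A 1) y) := fun y => Qr_succ sys_T s f (fun k => A (k + 1)) 1 y
  have hf1S : SQ (volume : Measure TT) f1 := Qr_SQ sys_T hfS s _ 1
  have hf2S : SQ (volume : Measure TT) f2 := Qr_SQ sys_T hfS s _ 2
  have havS : SQ (volume : Measure TT) (av sh s f) := (av_SQ sys_T.fl hfS s).1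
  have hav1S : SQ (volume : Measure TT) (av sh s f1) := (av_SQ sys_T.fl hf1S s).1
  have he0 : 0 ≤ e := (nm_nonneg _).trans t0b
  set N : ℝ := nm volume f with hN
  have hN0 : 0 ≤ N := nm_nonneg _
  have hN2 : N ^ 2 = ∫ z, f z ^ 2 := nm_sq f
  -- the functions of one variable
  have hbar : ∀ g : TT → ℝ, BM g → BM fun Y : UnitAddCircle => ∫ X : UnitAddCircle, g (X, Y) := by
    intro g hg
    have h1 : BM fun p : UnitAddCircle × UnitAddCircle => g (p.2, p.1) := hg.comp measurable_swap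
    exact h1.integral volume
  have I1 := flat hf hβ0 (by linarith) (e := e) (fun t ht => t0a t (by rwa [hβT] at ht))
  have I2 := flat hf1S.1 hβ0 (by linarith) (e := e) (fun t ht => t1a t (by rwa [hβT] at ht))
  have hsn2 : Measurable fun z : TT => sn z.2 := sn_meas.comp measurable_snd
  have hsn1 : Measurable fun z : TT => sn z.1 := sn_meas.comp measurable_fst
  have hA2 : MeasurableSet {z : TT | β ≤ |sn z.2|} := measurableSet_le measurable_const hsn2.norm
  have hA1 : MeasurableSet {z : TT | β ≤ |sn z.1|} := measurableSet_le measurable_const hsn1.norm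
  have I3 : ∫ z in {z : TT | β ≤ |sn z.1|}, (f1 z - ∫ X, f (X, z.1)) ^ 2 ≤ 2 * e ^ 2 + e ^ 2 / β := by
    have hG : BM fun w : TT => (av sh s f w - ∫ X, f (X, w.2)) ^ 2 :=
      (havS.1.sub ((hbar f hf).comp measurable_snd)).sq
    have e1 : ∫ z in {z : TT | β ≤ |sn z.1|}, (f1 z - ∫ X, f (X, z.1)) ^ 2 =
        ∫ w in {w : TT | β ≤ |sn w.2|}, (av sh s f w - ∫ X, f (X, w.2)) ^ 2 := by
      rw [← integral_indicator hA1, ← integral_indicator hA2,
        ← int_comp (BM_ind59 hG hA2).1 (sys_T.mp (A 2))]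
      refine integral_congr_ae (Filter.Eventually.of_forall fun z => ?_)
      have e2 : (sr (A 2) z).2 = z.1 := rfl
      by_cases hz : β ≤ |sn z.1|
      · have e3 : {z : TT | β ≤ |sn z.1|}.indicator (fun z => (f1 z - ∫ X, f (X, z.1)) ^ 2) z =
            (f1 z - ∫ X, f (X, z.1)) ^ 2 := indicator_of_mem (s := {z : TT | β ≤ |sn z.1|}) hz _
        have e4 : {w : TT | β ≤ |sn w.2|}.indicator (fun w => (av sh s f w - ∫ X, f (X, w.2)) ^ 2) (sr (A 2) z) =
            (av sh s f (sr (A 2) z) - ∫ X, f (X, (sr (A 2) z).2)) ^ 2 :=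
          indicator_of_mem (s := {w : TT | β ≤ |sn w.2|}) (a := sr (A 2) z) (by
            show β ≤ |sn (sr (A 2) z).2|
            rw [e2]; exact hz) _
        refine e3.trans (Eq.trans ?_ e4.symm)
        rw [f1_eq, e2]
      · have e3 : {z : TT | β ≤ |sn z.1|}.indicator (fun z => (f1 z - ∫ X, f (X, z.1)) ^ 2) z = 0 :=
          indicator_of_notMem (s := {z : TT | β ≤ |sn z.1|}) hz _
        have e4 : {w : TT | β ≤ |sn w.2|}.indicator (fun w => (av sh s f w - ∫ X, f (X, w.2)) ^ 2) (sr (A 2) z) = 0 :=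
          indicator_of_notMem (s := {w : TT | β ≤ |sn w.2|}) (a := sr (A 2) z) (by
            show ¬ β ≤ |sn (sr (A 2) z).2|
            rw [e2]; exact hz) _
        exact e3.trans e4.symm
    rw [e1]
    have hd1 : BM fun w : TT => av sh s f w - f w := havS.1.sub hf
    have hd2 : BM fun w : TT => f w - ∫ X, f (X, w.2) := hf.sub ((hbar f hf).comp measurable_snd)
    have e5 : ∫ w in {w : TT | β ≤ |sn w.2|}, (av sh s f w - ∫ X, f (X, w.2)) ^ 2 ≤
        ∫ w in {w : TT | β ≤ |sn w.2|}, (2 * (av sh s f w - f w) ^ 2 + 2 * (f w - ∫ X, f (X, w.2)) ^ 2) := by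
      refine setIntegral_mono (hG.int _) (((hd1.sq.const_mul 2).add (hd2.sq.const_mul 2)).int _) fun w => ?_
      simp only
      nlinarith [sq_nonneg ((av sh s f w - f w) - (f w - ∫ X, f (X, w.2)))]
    have i1 : Integrable (fun w : TT => 2 * (av sh s f w - f w) ^ 2) (volume.restrict {w : TT | β ≤ |sn w.2|}) :=
      (hd1.sq.const_mul 2).int _
    have i2 : Integrable (fun w : TT => 2 * (f w - ∫ X, f (X, w.2)) ^ 2) (volume.restrict {w : TT | β ≤ |sn w.2|}) :=
      (hd2.sq.const_mul 2).int _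
    rw [integral_add i1 i2, integral_const_mul, integral_const_mul] at e5
    have e6 : ∫ w in {w : TT | β ≤ |sn w.2|}, (av sh s f w - f w) ^ 2 ≤ e ^ 2 := by
      have e7 : ∫ w in {w : TT | β ≤ |sn w.2|}, (av sh s f w - f w) ^ 2 ≤ ∫ w : TT, (av sh s f w - f w) ^ 2 :=
        setIntegral_le_integral (hd1.sq.int _) (Filter.Eventually.of_forall fun _ => sq_nonneg _)
      have e9 := nm_sq (μ := (volume : Measure TT)) (fun w => av sh s f w - f w)
      have e10 := pow_le_pow_left₀ (nm_nonneg _) t0b 2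
      rw [e9] at e10
      exact e7.trans e10
    have e8 : e ^ 2 / β = 2 * (e ^ 2 / (2 * β)) := by field_simp
    rw [e8]
    linarith
  have hmean1 : ∫ z, f1 z = 0 := by rw [hf1, Qr_int59 sys_T hf]; exact h0
  have I4 := near59 hf1S.1 hmean1 (hbar f hf) (hbar f1 hf1S.1) hβ0 (by linarith) I3 I2
  -- the rest
  set E : Set TT := EE59 M β with hE
  have hEm : MeasurableSet E := EE_meas59 M β
  set W : Set TT := {z | |sn z.1| < β ∧ |sn z.2| < β ∧ sn z.2 ≠ 0 ∧ z ∉ E} with hW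
  have hWm : MeasurableSet W := by
    have w1 : MeasurableSet {z : TT | |sn z.1| < β} := measurableSet_lt hsn1.norm measurable_const
    have w2 : MeasurableSet {z : TT | |sn z.2| < β} := measurableSet_lt hsn2.norm measurable_const
    have w3 : MeasurableSet {z : TT | sn z.2 ≠ 0} := (hsn2 (measurableSet_singleton 0)).compl
    exact w1.inter (w2.inter (w3.inter hEm.compl))
  have h60 : 60 * M ^ 2 * β ≤ 1 := by
    have : 60 * M ^ 2 * β = 60 * (M ^ 2 * β) := by ring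
    rw [this, hβM]; norm_num
  have hkM : ∀ k : ℕ, k < 16 → |(k : ℝ) * M| ≤ T := by
    intro k hk
    have hk15 : (k : ℝ) ≤ 15 := by exact_mod_cast (by omega : k ≤ 15)
    rw [abs_of_nonneg (by positivity), hT]
    have : (k : ℝ) * M ≤ 15 * M := mul_le_mul_of_nonneg_right hk15 (by linarith)
    nlinarith
  have h16 : √((16 : ℕ) : ℝ) = 4 := by
    rw [show ((16 : ℕ) : ℝ) = 4 ^ 2 by norm_num, Real.sqrt_sq (by norm_num)]
  have D1 : nm volume (E.indicator f1) ≤ N / 4 + e := by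
    have h := disp sys_T.fl hf1S hEm (m := 16) (by norm_num) (t := M) (e := e)
      (fun k hk hk' y hy => edisp59 (by linarith) h60 k hk hk' y hy) (fun k hk => t1a _ (hkM k hk))
    rw [h16] at h
    have : nm volume f1 / 4 ≤ N / 4 := div_le_div_of_nonneg_right t1d (by norm_num)
    linarith
  have D2 : nm volume (E.indicator f2) ≤ N / 4 + e := by
    have h := disp sys_T.fl hf2S hEm (m := 16) (by norm_num) (t := M) (e := e)
      (fun k hk hk' y hy => edisp59 (by linarith) h60 k hk hk' y hy) (fun k hk => t2a _ (hkM k hk))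
    rw [h16] at h
    have : nm volume f2 / 4 ≤ N / 4 := div_le_div_of_nonneg_right t2d (by norm_num)
    linarith
  have D3 : nm volume (W.indicator f1) ≤ N / 4 + 2 * e := by
    have e1 := nm_sub (μ := (volume : Measure TT)) (hf1S.ind hWm) (hav1S.ind hWm)
    have e2 : nm volume (fun y => W.indicator f1 y - W.indicator (av sh s f1) y) ≤
        nm volume (fun y => av sh s f1 y - f1 y) := by
      refine nm_mono (hav1S.sub hf1S) fun y => ?_
      by_cases hy : y ∈ W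
      · rw [indicator_of_mem hy, indicator_of_mem hy, abs_sub_comm]
      · rw [indicator_of_notMem hy, indicator_of_notMem hy, sub_zero, abs_zero]
        exact abs_nonneg _
    have e3 : nm volume (W.indicator (av sh s f1)) ≤ nm volume (E.indicator f2) := by
      rw [← nm_comp (hav1S.ind hWm) (sys_T.mp (A 1))]
      refine nm_mono (hf2S.ind hEm) fun y => ?_
      by_cases hy : sr (A 1) y ∈ W
      · have hyE : y ∈ E := cover59 hM hK hβ0.le (hA 1) y hy.1 hy.2.1 hy.2.2.1 hy.2.2.2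
        rw [indicator_of_mem hy, indicator_of_mem hyE, f2_eq]
      · rw [indicator_of_notMem hy, abs_zero]
        exact abs_nonneg _
    linarith
  -- the sum
  have hnull : ∀ᵐ z : TT, sn z.2 ≠ 0 := by
    have h1 : ∀ᵐ x : UnitAddCircle, sn x ≠ 0 := by
      rw [ae_iff]
      simpa using null59
    rw [Measure.volume_eq_prod]
    exact Measure.quasiMeasurePreserving_snd.ae h1
  have hsq : BM fun z : TT => f1 z ^ 2 := hf1S.1.sq
  have S1 : ∫ z, f1 z ^ 2 ≤ ((∫ z in {z : TT | β ≤ |sn z.1|}, f1 z ^ 2) + ∫ z in {z : TT | β ≤ |sn z.2|}, f1 z ^ 2) +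
      ((∫ z in E, f1 z ^ 2) + ∫ z in W, f1 z ^ 2) := by
    rw [← integral_indicator hA1, ← integral_indicator hA2, ← integral_indicator hEm, ← integral_indicator hWm]
    have b1 := BM_ind59 hsq hA1
    have b2 := BM_ind59 hsq hA2
    have b3 := BM_ind59 hsq hEm
    have b4 := BM_ind59 hsq hWm
    rw [← integral_add (b1.int _) (b2.int _), ← integral_add (b3.int _) (b4.int _),
      ← integral_add ((b1.add b2).int _) ((b3.add b4).int _)]
    refine integral_mono_ae (hsq.int _) (((b1.add b2).add (b3.add b4)).int _) ?_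
    filter_upwards [hnull] with z hz
    have p1 : 0 ≤ {z : TT | β ≤ |sn z.1|}.indicator (fun z => f1 z ^ 2) z := indicator_nonneg (fun _ _ => sq_nonneg _) z
    have p2 : 0 ≤ {z : TT | β ≤ |sn z.2|}.indicator (fun z => f1 z ^ 2) z := indicator_nonneg (fun _ _ => sq_nonneg _) z
    have p3 : 0 ≤ E.indicator (fun z => f1 z ^ 2) z := indicator_nonneg (fun _ _ => sq_nonneg _) z
    have p4 : 0 ≤ W.indicator (fun z => f1 z ^ 2) z := indicator_nonneg (fun _ _ => sq_nonneg _) z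
    by_cases c1 : β ≤ |sn z.1|
    · have q : {z : TT | β ≤ |sn z.1|}.indicator (fun z => f1 z ^ 2) z = f1 z ^ 2 :=
        indicator_of_mem (s := {z : TT | β ≤ |sn z.1|}) c1 _
      linarith
    by_cases c2 : β ≤ |sn z.2|
    · have q : {z : TT | β ≤ |sn z.2|}.indicator (fun z => f1 z ^ 2) z = f1 z ^ 2 :=
        indicator_of_mem (s := {z : TT | β ≤ |sn z.2|}) c2 _
      linarith
    by_cases c3 : z ∈ E
    · have q : E.indicator (fun z => f1 z ^ 2) z = f1 z ^ 2 := indicator_of_mem c3 _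
      linarith
    · have q : W.indicator (fun z => f1 z ^ 2) z = f1 z ^ 2 :=
        indicator_of_mem (s := W) ⟨not_le.1 c1, not_le.1 c2, hz, c3⟩ _
      linarith
  rw [ind_sq59 hEm, ind_sq59 hWm] at S1
  have hf1N : ∫ z, f1 z ^ 2 ≤ N ^ 2 := by
    rw [← nm_sq]
    exact pow_le_pow_left₀ (nm_nonneg _) t1d 2
  have g1 : nm volume (E.indicator f1) ^ 2 ≤ (N / 4 + e) ^ 2 := pow_le_pow_left₀ (nm_nonneg _) D1 2
  have g2 : nm volume (W.indicator f1) ^ 2 ≤ (N / 4 + 2 * e) ^ 2 := pow_le_pow_left₀ (nm_nonneg _) D3 2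
  have hf10 : 0 ≤ ∫ z, f1 z ^ 2 := integral_nonneg fun _ => sq_nonneg _
  have g3 : 256 * β * ∫ z, f1 z ^ 2 ≤ N ^ 2 / 20 := by
    have : 256 * β ≤ 1 / 20 := by linarith
    calc 256 * β * ∫ z, f1 z ^ 2 ≤ 1 / 20 * N ^ 2 := mul_le_mul this hf1N hf10 (by norm_num)
      _ = N ^ 2 / 20 := by ring
  have hTβ : e ^ 2 / β = e ^ 2 * T := by rw [div_eq_mul_one_div, hβT]
  have hTβ2 : e ^ 2 / (2 * β) = e ^ 2 * T / 2 := by
    rw [← hTβ]; field_simp
  rw [hTβ, hTβ2] at I4
  have hsum : ∫ z, f1 z ^ 2 ≤ 3 / 10 * N ^ 2 + 157 * (e ^ 2 * T) := by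
    have k1 : (N / 4 + e) ^ 2 ≤ N ^ 2 / 8 + 2 * e ^ 2 := by nlinarith [sq_nonneg (N / 4 - e)]
    have k2 : (N / 4 + 2 * e) ^ 2 ≤ N ^ 2 / 8 + 8 * e ^ 2 := by nlinarith [sq_nonneg (N / 4 - 2 * e)]
    have k3 : e ^ 2 ≤ e ^ 2 * T := le_mul_of_one_le_right (sq_nonneg _) hT1
    linarith
  have hΛ0 : 0 ≤ Λ := by
    have h := pow_le_pow_left₀ (nm_nonneg _) t0c 2
    rw [nm_sq, nm_sq] at h
    linarith
  have hQ1 : ∫ z, Qr sr s f A 3 z ^ 2 ≤ ∫ z, f1 z ^ 2 := by
    have h := pow_le_pow_left₀ (nm_nonneg _) t1c 2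
    rw [nm_sq, nm_sq] at h
    exact h
  have he2 : e ^ 2 = 16129 * T ^ 2 / s ^ 2 * Λ := by
    rw [he, mul_pow, Real.sq_sqrt hΛ0, div_pow, mul_pow]
    norm_num
  have hmain : 7 / 10 * (s ^ 2 * N ^ 2) ≤ (1 + C1) * Λ := by
    have k1 : 157 * (e ^ 2 * T) = C1 * Λ / s ^ 2 := by
      rw [he2, hC1]; ring
    have k2 : 7 / 10 * N ^ 2 ≤ Λ + C1 * Λ / s ^ 2 := by
      rw [← k1, hN2]
      rw [hN2] at hsum
      linarith
    have k3 : s ^ 2 ≤ 1 := pow_le_one₀ hs.le hs1
    have k4 := mul_le_mul_of_nonneg_left k2 (sq_nonneg s)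
    have k5 : s ^ 2 * (Λ + C1 * Λ / s ^ 2) = s ^ 2 * Λ + C1 * Λ := by field_simp
    rw [k5] at k4
    nlinarith
  have hfin : 1 / (2 * (1 + C1)) * s ^ 2 * N ^ 2 ≤ Λ := by
    have k1 : 1 / (2 * (1 + C1)) * s ^ 2 * N ^ 2 = s ^ 2 * N ^ 2 / (2 * (1 + C1)) := by ring
    rw [k1, div_le_iff₀ (by positivity)]
    have k2 : 0 ≤ s ^ 2 * N ^ 2 := by positivity
    linarith
  have : ∫ z, Qr sr s f A 3 z ^ 2 = (∫ z, f z ^ 2) - Λ := by rw [hΛ]; ring
  rw [this, ← hN2]
  linarith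

theorem gapT (K : ℝ) (hK : 0 ≤ K) : ∃ η : ℝ, 0 < η ∧ η ≤ 1 ∧ ∀ s : ℝ, 0 < s → s ≤ 1 → ∀ A : ℕ → ℝ, (∀ j, |A j| ≤ K) →
    ∀ f : TT → ℝ, BM f → ∫ z, f z = 0 → ∀ n : ℕ, ∫ z, Qr sr s f A n z ^ 2 ≤ (1 - η * s ^ 2) ^ (n / 3) * ∫ z, f z ^ 2 := by
  obtain ⟨η, hη, hη1, h⟩ := gap3 K hK
  refine ⟨η, hη, hη1, fun s hs hs1 A hA f hf h0 n => ?_⟩
  have hs2 : s ^ 2 ≤ 1 := pow_le_one₀ hs.le hs1
  have hq : 0 ≤ 1 - η * s ^ 2 := by
    have : η * s ^ 2 ≤ 1 * 1 := mul_le_mul hη1 hs2 (by positivity) (by norm_num)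
    linarith
  induction n using Nat.strong_induction_on generalizing A with
  | _ n ih =>
    rcases lt_or_ge n 3 with hn | hn
    · rw [Nat.div_eq_of_lt hn, pow_zero, one_mul]
      have h1 := pow_le_pow_left₀ (nm_nonneg _) (Qr_le59 sys_T hf s n A) 2
      rw [nm_sq, nm_sq] at h1
      exact h1
    · obtain ⟨m, rfl⟩ : ∃ m, n = 3 + m := ⟨n - 3, by omega⟩
      have hfS : SQ (volume : Measure TT) f := ⟨hf, hf.sq.int _⟩
      have hg : BM (Qr sr s f (fun j => A (j + 3)) m) := (Qr_SQ sys_T hfS s _ m).1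
      have hg0 : ∫ z, Qr sr s f (fun j => A (j + 3)) m z = 0 := by
        rw [Qr_int59 sys_T hf]; exact h0
      have h1 := h s hs hs1 A hA _ hg hg0
      have h2 := ih m (by omega) (fun j => A (j + 3)) fun j => hA _
      have e1 : (3 + m) / 3 = m / 3 + 1 := by omega
      simp only [Qr_add]
      rw [e1, pow_succ]
      calc ∫ z, Qr sr s (Qr sr s f (fun j => A (j + 3)) m) A 3 z ^ 2 ≤
            (1 - η * s ^ 2) * ∫ z, Qr sr s f (fun j => A (j + 3)) m z ^ 2 := h1
        _ ≤ (1 - η * s ^ 2) * ((1 - η * s ^ 2) ^ (m / 3) * ∫ z, f z ^ 2) := mul_le_mul_of_nonneg_left h2 hq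
        _ = (1 - η * s ^ 2) ^ (m / 3) * (1 - η * s ^ 2) * ∫ z, f z ^ 2 := by ring

end Pool.Agent.Helper82.QR
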