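import Pool.Agent.Helper46.QR.MainR
import Pool.Agent.Helper82.QR.GapT
import Pool.Agent.Helper82.QR.GrowR

/-! Project QR: the final theorem: existence of a random `C^r` function. -/

set_option autoImplicit false
open MeasureTheory Real Set Filter Topology

namespace Pool.Agent.Helper82.QR

open Pool.Agent.Helper18.UC (nn)
open Pool.Agent.Helper46
open Pool.Agent.Helper46.QP
open Pool.Agent.Helper46.QR (Fr Ar GapT GrowR ergR fibR lyaR eigR exponentR std_eq liftn_eq)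

variable {d : ℕ}

/-- the lift of a function on the torus -/
def lf (f : (Fin d → UnitAddCircle) → ℝ) (x : Fin d → ℝ) : ℝ := f fun m => (x m : UnitAddCircle)

/-- the conclusions for the skew product `(θ, z) ↦ (θ + α, S_(a(θ)) z)` -/
def Good (α : Fin d → UnitAddCircle) (a : (Fin d → UnitAddCircle) → ℝ) : Prop :=
  Ergodic (QRO.skew α a) volume ∧
  (∀ (ξ : ℂ) (h : (Fin d → UnitAddCircle) × (UnitAddCircle × UnitAddCircle) → ℂ), Measurable h →
    (∀ᵐ p, h (QRO.skew α a p) = ξ * h p) →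
    (∀ᵐ p, h p = 0) ∨ ∃ k : Fin d → ℤ, ∃ c : ℂ, fourier 1 (∑ m, k m • α m) = ξ ∧
      ∀ᵐ p : (Fin d → UnitAddCircle) × (UnitAddCircle × UnitAddCircle), h p = c * fourier 1 (∑ m, k m • p.1 m)) ∧
  ∃ L : ℝ, 0 < L ∧ ∀ᵐ θ : Fin d → UnitAddCircle, ∀ᵐ z : ℝ × ℝ,
    Tendsto (fun n : ℕ => Real.log ‖fderiv ℝ (QRO.liftn α a θ n) z‖ / n) atTop (𝓝 L)

/-- the conclusions from the facts about one noise -/
theorem good_of {D : Dat d} (hD : D.Ok) (hind : ∀ k : Fin d → ℤ, k ≠ 0 → ∑ m, k m • D.α m ≠ 0) {ω : Om d}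
    (hE : Ergodic (Fr D ω) volume)
    (hF : ∀ (ξ : ℂ) (h : Td d × TT → ℂ), ‖ξ‖ = 1 → Measurable h → (∃ K : ℝ, ∀ p, ‖h p‖ ≤ K) →
      (∀ᵐ p, h (Fr D ω p) = ξ * h p) → ∃ u : Td d → ℂ, Measurable u ∧ ∀ᵐ p : Td d × TT, h p = u p.1)
    (hL : ∃ G : Td d × TT → ℝ, Measurable G ∧ (∀ᵐ p, 0 < G p) ∧
      ∀ᵐ p : Td d × TT, Tendsto (fun n : ℕ => Real.log (nn (Mx (Ar D ω p.1) p.2 n)) / n) atTop (𝓝 (G p)))
    {a : (Fin d → UnitAddCircle) → ℝ} (ha : ∀ θ, a θ = (D.A ω θ).re) : Good D.α a := by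
  have hAe : a = fun θ => (D.A ω θ).re := funext ha
  have hsk : QRO.skew D.α a = Fr D ω := by
    rw [hAe]
    funext p
    unfold QRO.skew Fr
    rw [std_eq]
  unfold Good
  rw [hsk, hAe]
  refine ⟨hE, fun ξ h hm hh => eigR hD hind hF ξ h hm hh, ?_⟩
  obtain ⟨L, hL0, hLl⟩ := exponentR hE hL
  refine ⟨L, hL0, ?_⟩
  have h1 := Measure.ae_ae_of_ae_prod hLl
  filter_upwards [h1] with θ hθ
  filter_upwards [ae_tor hθ] with z hz
  rw [show (fun n : ℕ => Real.log ‖fderiv ℝ (QRO.liftn D.α (fun θ => (D.A ω θ).re) θ n) z‖ / n) =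
    fun n : ℕ => Real.log ‖fderiv ℝ (Fn (Ar D ω θ) n) z‖ / n from ?_]
  · exact Fn_lim hz
  · funext n
    rw [liftn_eq]
    rfl

theorem hgapT : ∀ K, ∃ η, 0 < η ∧ η ≤ 1 ∧ Pool.Agent.Helper46.QR.GapT K η := by
  intro K
  rcases le_or_gt 0 K with hK | hK
  · obtain ⟨η, h0, h1, h⟩ := gapT K hK
    exact ⟨η, h0, h1, fun f s A n hf h2 hs hs1 hA => h s hs hs1 A hA f hf h2 n⟩
  · refine ⟨1, one_pos, le_rfl, fun f s A n hf h2 hs hs1 hA => ?_⟩
    exact absurd ((abs_nonneg _).trans (hA 0)) (not_le.2 hK)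

theorem hgrowR : ∀ (d : ℕ) (D : Dat d), D.Ok → ∃ C η, 0 < C ∧ 0 < η ∧ η ≤ 1 ∧ Pool.Agent.Helper46.QR.GrowR D C η := by
  intro d D hD
  obtain ⟨C, η, h0, h1, h2, h⟩ := growR hD
  refine ⟨C, η, h0, h1, h2, fun l n hi hs θ => ?_⟩
  refine le_trans (le_of_eq ?_) (h l n hi hs θ)
  refine lintegral_congr fun ω => lintegral_congr fun z => ?_
  congr 1
  rw [zpow_neg, inv_pow]
  norm_num

theorem exR (d r : ℕ) (hr : 2 * r < d) (ε : ℝ) (hε : 0 < ε) :
    ∃ (Ω : Type) (_ : MeasurableSpace Ω) (P : Measure Ω) (N : Ω → (Fin d → UnitAddCircle) → ℝ),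
      IsProbabilityMeasure P ∧ (∀ θ, Measurable fun ω => N ω θ) ∧
      (∀ ω, ContDiff ℝ r (lf (N ω)) ∧ ∀ k : ℕ, k ≤ r → ∀ x, ‖iteratedFDeriv ℝ k (lf (N ω)) x‖ ≤ ε) ∧
      ∀ᵐ α : Fin d → UnitAddCircle, ∀ b : (Fin d → UnitAddCircle) → ℝ, Continuous b →
        ∀ᵐ ω ∂P, Good α fun θ => b θ + N ω θ := by
  have hd : 0 < d := by omega
  -- the bump
  set φ : ContDiffBump (0 : ℝ) := ⟨1 / 2, 1, by norm_num, by norm_num⟩ with hφ
  have hφs : ∀ n : ℕ, ContDiff ℝ n (fun t : ℝ => φ t) := fun n => φ.contDiff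
  have hφ1 : ∀ t : ℝ, |t| ≤ 1 / 2 → φ t = 1 := fun t ht => φ.one_of_mem_closedBall (by
    rw [mem_closedBall_zero_iff, Real.norm_eq_abs]; exact ht)
  have hφ0 : ∀ t : ℝ, 1 ≤ |t| → φ t = 0 := fun t ht => φ.zero_of_le_dist (by
    rw [dist_zero_right, Real.norm_eq_abs]; exact ht)
  -- the exponent
  set β : ℝ := ((r : ℝ) + d / 2) / 2 with hβ
  have hrd : (r : ℝ) < d / 2 := by
    have : ((2 * r : ℕ) : ℝ) < d := by exact_mod_cast hr
    push_cast at this
    linarith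
  have hrβ : (r : ℝ) < β := by rw [hβ]; linarith
  have hβd : β < d / 2 := by rw [hβ]; linarith
  have hβ0 : 0 < β := lt_of_le_of_lt (Nat.cast_nonneg r) hrβ
  obtain ⟨K, hK0, hK⟩ := nz_bd (d := d) (hφs r) hφ0 hrβ
  set q : ℝ := ε / (K + 1) with hq
  have hq0 : 0 < q := by positivity
  have hqK : q * K ≤ ε := by
    rw [hq, div_mul_eq_mul_div, div_le_iff₀ (by positivity)]
    nlinarith
  refine ⟨Om d, inferInstance, law d, fun ω θ => q * (nz (fun t => φ t) β ω θ).re, inferInstance, ?_, ?_, ?_⟩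
  · intro θ
    set D₀ : Dat d := { α := 0, A0 := fun _ => 0, q := 1, b := β, χ := fun t => φ t } with hD₀
    have hDk : D₀.Ok := ⟨hd, continuous_const, one_pos, hβ0, (hφs 0).continuous, hφ1, hφ0⟩
    have h1 := (A_meas hDk).comp (measurable_prodMk_right (y := θ))
    have e : (fun ω : Om d => q * (nz (fun t => φ t) β ω θ).re) = fun ω : Om d => q * (D₀.A ω θ).re := by
      funext ω
      unfold Dat.A
      simp [hD₀]
    rw [e]
    exact (Complex.measurable_re.comp h1).const_mul q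
  · intro ω
    have hs := nz_smooth (hφs r) hφ0 hrβ ω
    have hs2 : ContDiff ℝ r (fun x : Fin d → ℝ => (nz (fun t => φ t) β ω fun m => (x m : UnitAddCircle)).re) :=
      Complex.reCLM.contDiff.comp hs
    refine ⟨contDiff_const.mul hs2, fun k hk x => ?_⟩
    have e : lf (fun θ => q * (nz (fun t => φ t) β ω θ).re) =
        (q • Complex.reCLM) ∘ fun x : Fin d → ℝ => nz (fun t => φ t) β ω fun m => (x m : UnitAddCircle) := by
      funext x
      simp [lf]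
    rw [e, ContinuousLinearMap.iteratedFDeriv_comp_left _ hs.contDiffAt (by exact_mod_cast hk)]
    refine (ContinuousLinearMap.norm_compContinuousMultilinearMap_le _ _).trans ?_
    have h1 : ‖q • Complex.reCLM‖ ≤ q := by
      rw [norm_smul, Real.norm_of_nonneg hq0.le, Complex.reCLM_norm, mul_one]
    exact (mul_le_mul h1 (hK ω k hk x) (norm_nonneg _) hq0.le).trans hqK
  · filter_upwards [Pool.Agent.Helper82.QP.dio_ae hd, Pool.Agent.Helper82.QP.ind_ae] with α hα hind b hb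
    set D : Dat d := { α := α, A0 := fun θ => ((b θ : ℝ) : ℂ), q := q, b := β, χ := fun t => φ t } with hDdef
    have hD : D.Ok := ⟨hd, Complex.continuous_ofReal.comp hb, hq0, hβ0, (hφs 0).continuous, hφ1, hφ0⟩
    have hR := Pool.Agent.Helper82.QP.rot_erg hind
    filter_upwards [ergR hD hβd hgapT hα hR, fibR hD hβd hgapT hα, lyaR hD hβd (hgrowR d D hD) hα] with ω hE hF hL
    refine good_of hD hind hE hF hL fun θ => ?_
    unfold Dat.A
    rw [Complex.add_re, Complex.ofReal_re, Complex.re_ofReal_mul]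

end Pool.Agent.Helper82.QR
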