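import Pool.Agent.Helper46.QA.AllC
import Pool.Agent.Helper46.QA.AllG
import Pool.Agent.Helper46.QA.AllL
import Pool.Agent.Helper46.QA.Det
import Pool.Agent.Helper82.QR.Fin

/-! Project QA (MP_9ee088_an): the final theorem, all parameters at once: existence of a random `C^r` function. -/

set_option autoImplicit false
open MeasureTheory Real Set Filter Topology

namespace Pool.Agent.Helper82.QR

open Pool.Agent.Helper18.UC (nn)
open Pool.Agent.Helper18.FD (NN)
open Pool.Agent.Helper46.QP Pool.Agent.Helper46.QA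
open Pool.Agent.Helper46.QR (Fr Ar)

variable {d : ℕ}

/-! ### the symmetry of the noise -/

theorem dl_neg : MeasurePreserving (fun w : ℂ => -w) dl dl := by
  have h : MeasurePreserving (fun w : ℂ => -w) (volume.restrict (Metric.closedBall (0 : ℂ) 1))
      (volume.restrict (Metric.closedBall (0 : ℂ) 1)) := by
    have h1 := (Measure.measurePreserving_neg (volume : Measure ℂ)).restrict_preimage
      (s := Metric.closedBall (0 : ℂ) 1) Metric.isClosed_closedBall.measurableSet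
    have e : (Neg.neg : ℂ → ℂ) ⁻¹' Metric.closedBall (0 : ℂ) 1 = Metric.closedBall (0 : ℂ) 1 := by
      ext w
      simp
    rw [e] at h1
    exact h1
  refine ⟨h.measurable, ?_⟩
  unfold dl
  rw [Measure.map_smul, h.map_eq]

theorem law_neg (d : ℕ) : MeasurePreserving (fun ω : Om d => -ω) (law d) (law d) := by
  have hm : Measurable fun ω : Om d => -ω := measurable_neg
  refine ⟨hm, ?_⟩
  unfold law
  refine Measure.eq_infinitePi _ fun s t ht => ?_
  have hms : MeasurableSet (Set.pi (s : Set (Ix d)) t) := MeasurableSet.pi s.countable_toSet fun i _ => ht i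
  rw [Measure.map_apply hm hms]
  have e : (fun ω : Om d => -ω) ⁻¹' Set.pi (s : Set (Ix d)) t = Set.pi (s : Set (Ix d)) fun i => (fun w : ℂ => -w) ⁻¹' t i := by
    ext ω
    simp [Set.mem_pi]
  rw [e, Measure.infinitePi_pi _ fun i _ => dl_neg.measurable (ht i)]
  exact Finset.prod_congr rfl fun i _ => dl_neg.measure_preimage (ht i).nullMeasurableSet

theorem nz_neg (χ : ℝ → ℝ) (b : ℝ) (ω : Om d) (θ : Td d) : nz χ b (-ω) θ = -nz χ b ω θ := by
  have h1 : ∀ w : ℂ, clip (-w) = -clip w := by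
    intro w
    unfold clip
    rw [norm_neg]
    split_ifs
    · rfl
    · exact neg_zero.symm
  have h2 : ∀ l, lvl χ (-ω) l θ = -lvl χ ω l θ := by
    intro l
    unfold lvl
    rw [← Finset.sum_neg_distrib]
    refine Finset.sum_congr rfl fun c _ => ?_
    rw [Pi.neg_apply, h1, mul_neg]
  unfold nz
  rw [← tsum_neg]
  exact tsum_congr fun l => by rw [h2, mul_neg]

/-! ### all parameters in a box -/

theorem cont_mean (g : C(Td d × TT, ℝ)) : Continuous fun p : Td d × TT => g p - ∫ z : TT, g (p.1, z) := by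
  have h1 : Continuous fun θ : Td d => ∫ z in (univ : Set TT), g (θ, z) :=
    continuous_parametric_integral_of_continuous (f := fun (θ : Td d) (z : TT) => g (θ, z)) (by
      exact g.continuous.comp (continuous_fst.prodMk continuous_snd)) isCompact_univ
  simp only [Measure.restrict_univ] at h1
  exact g.continuous.sub (h1.comp continuous_fst)

theorem allU {D : Dat d} (hD : D.Ok) (hb : D.b < d / 4)
    (hα : ∀ τ : ℝ, 1 / (d : ℝ) < τ → ∃ c : ℝ, 0 < c ∧ ∀ k : ℕ, 1 ≤ k → c * (k : ℝ) ^ (-τ) ≤ ‖k • D.α‖)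
    (hind : ∀ k : Fin d → ℤ, k ≠ 0 → ∑ m, k m • D.α m ≠ 0)
    {k : ℕ} {e : Fin k → Td d → ℝ} (he : ∀ i, Continuous (e i)) {R : ℝ} (hR : 1 ≤ R) :
    ∀ᵐ ω ∂law d, ∀ u ∈ Bx k R, Good D.α fun θ => (∑ i : Fin k, u i.succ * e i θ) + u 0 * (nz D.χ D.b ω θ).re := by
  obtain ⟨S, hSc, hSd⟩ := TopologicalSpace.exists_countable_dense C(Td d × TT, ℝ)
  obtain ⟨δ, hδ, hG⟩ := all_gro hD hb hα he hR
  obtain ⟨C, hC, hL⟩ := all_los hD hb hα he hR
  have hc : ∀ᵐ ω ∂law d, ∀ g ∈ S, ∀ g' ∈ S, ∀ m : ℕ, ∃ i₁ : ℕ, ∀ i ≥ i₁, ∀ u ∈ Bx k R,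
      |∫ p, g ((Fr (fam D e u) ω)^[2 ^ i] p) * (g' p - ∫ z, g' (p.1, z))| ≤ 1 / ((m : ℝ) + 1) := by
    rw [ae_ball_iff hSc]
    intro g hg
    rw [ae_ball_iff hSc]
    intro g' hg'
    rw [ae_all_iff]
    intro m
    refine all_cor hD hb hgapT hα he hR (G := g) (Ψ := fun p => g' p - ∫ z, g' (p.1, z)) g.continuous
      (cont_mean g') (fun θ => ?_) (by positivity)
    have hi : Integrable (fun z : TT => g' (θ, z)) volume :=
      (g'.continuous.comp (continuous_const.prodMk continuous_id)).integrable_of_hasCompactSupport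
        (HasCompactSupport.of_compactSpace _)
    show ∫ z : TT, (g' (θ, z) - ∫ z', g' (θ, z')) = 0
    rw [integral_sub hi (integrable_const _), integral_const]
    simp
  have hg : ∀ᵐ ω ∂law d, ∀ m : ℕ, ∃ i₁ : ℕ, ∀ i ≥ i₁, ∀ u ∈ Bx k R,
      (volume : Measure (Td d × TT)).real
        {p | Real.log (nn (Mx (Ar (fam D e u) ω p.1) p.2 (2 ^ i))) < (2 : ℝ) ^ (δ * i)} ≤ 1 / ((m : ℝ) + 1) :=
    ae_all_iff.2 fun m => hG _ (by positivity)
  filter_upwards [hc, hg, hL] with ω h1 h2 h3 u hu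
  have hok := fam_ok hD he hR hu
  have hcor : ∀ g ∈ S, ∀ g' ∈ S, Tendsto (fun i : ℕ => ∫ p, g ((Fr (fam D e u) ω)^[2 ^ i] p) *
      (g' p - ∫ z, g' (p.1, z))) atTop (𝓝 0) := by
    intro g hg g' hg'
    rw [Metric.tendsto_atTop]
    intro ε hε
    obtain ⟨m, hm⟩ := exists_nat_one_div_lt hε
    obtain ⟨i₁, hi₁⟩ := h1 g hg g' hg' m
    refine ⟨i₁, fun i hi => ?_⟩
    rw [Real.dist_eq, sub_zero]
    exact (hi₁ i hi u hu).trans_lt hm
  have hgro : ∀ ε : ℝ, 0 < ε → ∃ i₀ : ℕ, ∀ i ≥ i₀, (volume : Measure (Td d × TT)).real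
      {p | Real.log (nn (Mx (Ar (fam D e u) ω p.1) p.2 (2 ^ i))) < (2 : ℝ) ^ (δ * i)} ≤ ε := by
    intro ε hε
    obtain ⟨m, hm⟩ := exists_nat_one_div_lt hε
    obtain ⟨i₁, hi₁⟩ := h2 m
    exact ⟨i₁, fun i hi => (hi₁ i hi u hu).trans hm.le⟩
  have hlos : ∃ i₁ : ℕ, ∀ i ≥ i₁, ∫ p : Td d × TT, los (fam D e u) (2 ^ i) ω p.1 p.2 ≤ C * (i + 1) := by
    obtain ⟨i₁, hi₁⟩ := h3
    exact ⟨i₁, fun i hi => hi₁ i hi u hu⟩
  have hR' := Pool.Agent.Helper82.QP.rot_erg hind
  refine good_of (D := fam D e u) (ω := ω) hok hind (det_erg hok ω hSd hcor hR') (det_fib hok ω hSd hcor)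
    (det_lya hok ω hδ hgro hlos) fun θ => ?_
  show _ = (((∑ i : Fin k, u i.succ * e i θ : ℝ) : ℂ) + ((u 0 : ℝ) : ℂ) * nz D.χ D.b ω θ).re
  rw [Complex.add_re, Complex.ofReal_re, Complex.re_ofReal_mul]

/-! ### the final form -/

theorem exM (d r : ℕ) (hr : 2 * r < d) :
    ∃ (Ω : Type) (_ : MeasurableSpace Ω) (P : Measure Ω) (N : Ω → (Fin d → UnitAddCircle) → ℝ),
      IsProbabilityMeasure P ∧ (∀ θ, Measurable fun ω => N ω θ) ∧
      (∀ ω, ContDiff ℝ r (lf (N ω)) ∧ ∀ k : ℕ, k ≤ r → ∀ x, ‖iteratedFDeriv ℝ k (lf (N ω)) x‖ ≤ 1) ∧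
      ∀ᵐ α : Fin d → UnitAddCircle,
        (∀ b : (Fin d → UnitAddCircle) → ℝ, Continuous b → ∀ q : ℝ, q ≠ 0 →
          ∀ᵐ ω ∂P, Good α fun θ => b θ + q * N ω θ) ∧
        (4 * r < d → ∀ e : ℕ → (Fin d → UnitAddCircle) → ℝ, (∀ i, Continuous (e i)) →
          ∀ᵐ ω ∂P, ∀ (k : ℕ) (c : ℕ → ℝ) (q : ℝ), q ≠ 0 →
            Good α fun θ => (∑ i ∈ Finset.range k, c i * e i θ) + q * N ω θ) := by
  have hd : 0 < d := by omega
  -- the bump
  set φ : ContDiffBump (0 : ℝ) := ⟨1 / 2, 1, by norm_num, by norm_num⟩ with hφ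
  have hφs : ∀ n : ℕ, ContDiff ℝ n (fun t : ℝ => φ t) := fun n => φ.contDiff
  have hφ1 : ∀ t : ℝ, |t| ≤ 1 / 2 → φ t = 1 := fun t ht => φ.one_of_mem_closedBall (by
    rw [mem_closedBall_zero_iff, Real.norm_eq_abs]; exact ht)
  have hφ0 : ∀ t : ℝ, 1 ≤ |t| → φ t = 0 := fun t ht => φ.zero_of_le_dist (by
    rw [dist_zero_right, Real.norm_eq_abs]; exact ht)
  -- the exponent
  have hrd : (r : ℝ) < d / 2 := by
    have : ((2 * r : ℕ) : ℝ) < d := by exact_mod_cast hr
    push_cast at this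
    linarith
  obtain ⟨β, hrβ, hβd, hβ4⟩ : ∃ β : ℝ, (r : ℝ) < β ∧ β < d / 2 ∧ (4 * r < d → β < d / 4) := by
    by_cases h4 : 4 * r < d
    · have h5 : (r : ℝ) < d / 4 := by
        have : ((4 * r : ℕ) : ℝ) < d := by exact_mod_cast h4
        push_cast at this
        linarith
      have h6 : (0 : ℝ) < d := by exact_mod_cast hd
      exact ⟨((r : ℝ) + d / 4) / 2, by linarith, by linarith, fun _ => by linarith⟩
    · exact ⟨((r : ℝ) + d / 2) / 2, by linarith, by linarith, fun h => absurd h h4⟩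
  have hβ0 : 0 < β := lt_of_le_of_lt (Nat.cast_nonneg r) hrβ
  obtain ⟨K, hK0, hK⟩ := nz_bd (d := d) (hφs r) hφ0 hrβ
  set q₀ : ℝ := 1 / (K + 1) with hq
  have hq0 : 0 < q₀ := by positivity
  have hqK : q₀ * K ≤ 1 := by
    rw [hq, div_mul_eq_mul_div, div_le_iff₀ (by positivity)]
    linarith
  refine ⟨Om d, inferInstance, law d, fun ω θ => q₀ * (nz (fun t => φ t) β ω θ).re, inferInstance, ?_, ?_, ?_⟩
  · intro θ
    set D₀ : Dat d := { α := 0, A0 := fun _ => 0, q := 1, b := β, χ := fun t => φ t } with hD₀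
    have hDk : D₀.Ok := ⟨hd, continuous_const, one_pos, hβ0, (hφs 0).continuous, hφ1, hφ0⟩
    have h1 := (A_meas hDk).comp (measurable_prodMk_right (y := θ))
    have e : (fun ω : Om d => q₀ * (nz (fun t => φ t) β ω θ).re) = fun ω : Om d => q₀ * (D₀.A ω θ).re := by
      funext ω
      unfold Dat.A
      simp [hD₀]
    rw [e]
    exact (Complex.measurable_re.comp h1).const_mul q₀
  · intro ω
    have hs := nz_smooth (hφs r) hφ0 hrβ ω
    have hs2 : ContDiff ℝ r (fun x : Fin d → ℝ => (nz (fun t => φ t) β ω fun m => (x m : UnitAddCircle)).re) :=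
      Complex.reCLM.contDiff.comp hs
    refine ⟨contDiff_const.mul hs2, fun k hk x => ?_⟩
    have e : lf (fun θ => q₀ * (nz (fun t => φ t) β ω θ).re) =
        (q₀ • Complex.reCLM) ∘ fun x : Fin d → ℝ => nz (fun t => φ t) β ω fun m => (x m : UnitAddCircle) := by
      funext x
      simp [lf]
    rw [e, ContinuousLinearMap.iteratedFDeriv_comp_left _ hs.contDiffAt (by exact_mod_cast hk)]
    refine (ContinuousLinearMap.norm_compContinuousMultilinearMap_le _ _).trans ?_
    have h1 : ‖q₀ • Complex.reCLM‖ ≤ q₀ := by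
      rw [norm_smul, Real.norm_of_nonneg hq0.le, Complex.reCLM_norm, mul_one]
    exact (mul_le_mul h1 (hK ω k hk x) (norm_nonneg _) hq0.le).trans hqK
  · filter_upwards [Pool.Agent.Helper82.QP.dio_ae hd, Pool.Agent.Helper82.QP.ind_ae] with α hα hind
    constructor
    · -- one background
      intro b hb
      have key : ∀ q : ℝ, 0 < q → ∀ᵐ ω ∂law d, Good α fun θ => b θ + q * (q₀ * (nz (fun t => φ t) β ω θ).re) := by
        intro q hqp
        set D : Dat d := { α := α, A0 := fun θ => ((b θ : ℝ) : ℂ), q := q * q₀, b := β, χ := fun t => φ t } with hDdef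
        have hD : D.Ok := ⟨hd, Complex.continuous_ofReal.comp hb, mul_pos hqp hq0, hβ0, (hφs 0).continuous, hφ1, hφ0⟩
        have hR := Pool.Agent.Helper82.QP.rot_erg hind
        filter_upwards [Pool.Agent.Helper46.QR.ergR hD hβd hgapT hα hR, Pool.Agent.Helper46.QR.fibR hD hβd hgapT hα,
          Pool.Agent.Helper46.QR.lyaR hD hβd (hgrowR d D hD) hα] with ω hE hF hL
        refine good_of hD hind hE hF hL fun θ => ?_
        unfold Dat.A
        rw [Complex.add_re, Complex.ofReal_re, Complex.re_ofReal_mul, mul_assoc]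
      intro q hq'
      rcases lt_or_gt_of_ne hq' with hn | hp
      · filter_upwards [(law_neg d).quasiMeasurePreserving.ae (key (-q) (by linarith))] with ω h3
        have e1 : (fun θ => b θ + q * (q₀ * (nz (fun t => φ t) β ω θ).re)) =
            fun θ => b θ + -q * (q₀ * (nz (fun t => φ t) β (-ω) θ).re) := by
          funext θ
          rw [nz_neg, Complex.neg_re]
          ring
        rw [e1]
        exact h3
      · exact key q hp
    · -- all parameters at once
      intro h4 e he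
      set D : Dat d := { α := α, A0 := fun _ => 0, q := 1, b := β, χ := fun t => φ t } with hDdef
      have hD : D.Ok := ⟨hd, continuous_const, one_pos, hβ0, (hφs 0).continuous, hφ1, hφ0⟩
      have hP : ∀ᵐ ω ∂law d, ∀ k R : ℕ, ∀ u ∈ Bx k ((R : ℝ) + 1),
          Good α fun θ => (∑ i : Fin k, u i.succ * e i θ) + u 0 * (nz (fun t => φ t) β ω θ).re := by
        rw [ae_all_iff]
        intro k
        rw [ae_all_iff]
        intro R
        exact allU hD (hβ4 h4) hα hind (e := fun i : Fin k => e i) (fun i => he i) (by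
          have : (0 : ℝ) ≤ R := Nat.cast_nonneg R
          linarith)
      have hQ := (law_neg d).quasiMeasurePreserving.ae hP
      have key : ∀ ω : Om d, (∀ k R : ℕ, ∀ u ∈ Bx k ((R : ℝ) + 1),
          Good α fun θ => (∑ i : Fin k, u i.succ * e i θ) + u 0 * (nz (fun t => φ t) β ω θ).re) →
          ∀ (k : ℕ) (c : ℕ → ℝ) (q : ℝ), 0 < q →
            Good α fun θ => (∑ i ∈ Finset.range k, c i * e i θ) + q * (q₀ * (nz (fun t => φ t) β ω θ).re) := by
        intro ω h k c q hq'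
        set u : Fin (k + 1) → ℝ := Fin.cons (q * q₀) fun i : Fin k => c i with hu
        have hu0 : u 0 = q * q₀ := by rw [hu, Fin.cons_zero]
        have hus : ∀ i : Fin k, u i.succ = c i := fun i => by rw [hu, Fin.cons_succ]
        have hup : 0 < u 0 := by rw [hu0]; positivity
        obtain ⟨R, hR⟩ := exists_nat_gt (max ‖u‖ (1 / u 0))
        have hm : u ∈ Bx k ((R : ℝ) + 1) := by
          refine ⟨(le_max_left _ _).trans (hR.le.trans (by linarith)), ?_⟩
          have h1 : 1 / u 0 ≤ (R : ℝ) + 1 := (le_max_right _ _).trans (hR.le.trans (by linarith))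
          have h2 : (0 : ℝ) < (R : ℝ) + 1 := by positivity
          rw [div_le_iff₀ h2]
          rw [div_le_iff₀ hup] at h1
          linarith
        have h1 := h k R u hm
        have e1 : (fun θ => (∑ i ∈ Finset.range k, c i * e i θ) + q * (q₀ * (nz (fun t => φ t) β ω θ).re)) =
            fun θ => (∑ i : Fin k, u i.succ * e i θ) + u 0 * (nz (fun t => φ t) β ω θ).re := by
          funext θ
          rw [Finset.sum_range, hu0, mul_assoc]
          simp only [hus]
        rw [e1]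
        exact h1
      filter_upwards [hP, hQ] with ω h1 h2 k c q hq'
      rcases lt_or_gt_of_ne hq' with hn | hp
      · have h3 := key (-ω) h2 k c (-q) (by linarith)
        have e1 : (fun θ => (∑ i ∈ Finset.range k, c i * e i θ) + q * (q₀ * (nz (fun t => φ t) β ω θ).re)) =
            fun θ => (∑ i ∈ Finset.range k, c i * e i θ) + -q * (q₀ * (nz (fun t => φ t) β (-ω) θ).re) := by
          funext θ
          rw [nz_neg, Complex.neg_re]
          ring
        rw [e1]
        exact h3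
      · exact key ω h1 k c q hp

theorem exA (d r : ℕ) (hr : 4 * r < d) :
    ∃ (Ω : Type) (_ : MeasurableSpace Ω) (P : Measure Ω) (N : Ω → (Fin d → UnitAddCircle) → ℝ),
      IsProbabilityMeasure P ∧ (∀ θ, Measurable fun ω => N ω θ) ∧
      (∀ ω, ContDiff ℝ r (lf (N ω)) ∧ ∀ k : ℕ, k ≤ r → ∀ x, ‖iteratedFDeriv ℝ k (lf (N ω)) x‖ ≤ 1) ∧
      ∀ᵐ α : Fin d → UnitAddCircle, ∀ e : ℕ → (Fin d → UnitAddCircle) → ℝ, (∀ i, Continuous (e i)) →
        ∀ᵐ ω ∂P, ∀ (k : ℕ) (c : ℕ → ℝ) (q : ℝ), q ≠ 0 →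
          Good α fun θ => (∑ i ∈ Finset.range k, c i * e i θ) + q * N ω θ := by
  obtain ⟨Ω, mΩ, P, N, h1, h2, h3, h4⟩ := exM d r (by omega)
  refine ⟨Ω, mΩ, P, N, h1, h2, h3, ?_⟩
  filter_upwards [h4] with α hα
  exact hα.2 hr

end Pool.Agent.Helper82.QR
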