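import Pool.Agent.Helper82.QR.Loss

/-! Block QR-STG: the averaged chain, its stages, displaced sets.

`Qr_succ`: `st (A 0 + s w.re) y = V (s w.re) (st (A 0) y)` (`hS.add`). `Qr_SQ`: induction, `av_SQ`, `SQ.comp`. `Qr_add`: induction on `m`. `Qr_meas`: joint measurability in `(A, y)` (compare `Qn_BM` in `Helper46/QP/Meas.lean`).
`stages`: let `f_i = Qr st s f (fun k => A (k + (J - i))) i`; `f_(i+1) = (av V s f_i) ∘ st (A (J - i - 1))` (`Qr_succ`; `k + 1 + (J - (i+1)) = k + (J - i)`), so `∫ f_(i+1)^2 = ∫ (av f_i)^2 ≤ ∫ f_i^2` (`nm_comp`, `av_SQ`), the losses are nonnegative and sum up to `∫ f^2 - ∫ (Qr f A J)^2`;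
so each loss is at most that; `loss`, `loss_av`, `√16000 ≤ 127`, `1 ≤ T`.
`disp`: the sets `E_k = {y | V (k t) y ∈ E}`, `k < m`, are pairwise disjoint (for `i < k` and `y` in both: `y' = V (i t) y ∈ E`, `V ((k-i) t) y' = V (k t) y ∈ E`, contradiction). `nm (E.indicator f) = nm (E_k.indicator (f ∘ V (k t))) ≤ nm (E_k.indicator f) + nm (f ∘ V (k t) - f)` (`nm_comp`, `nm_add`, `nm_ind_le`),
`Σ_k nm (E_k.indicator f)^2 ≤ nm f^2` (disjoint), so `m (nm (E.indicator f) - e)^2 ≤ nm f^2` if `nm (E.indicator f) ≥ e`.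
`pull`: `nm ((st a ⁻¹' E).indicator (av f ∘ st a)) = nm (E.indicator (av f)) ≤ nm (E.indicator f) + nm (av f - f)`. -/

set_option autoImplicit false
open MeasureTheory Real Set
open scoped ENNReal

namespace Pool.Agent.Helper82.QR

open Pool.Agent.Helper46.QP (dl BM)

variable {Y : Type*} [MeasurableSpace Y] {μ : Measure Y}

theorem Qr_succ {V : ℝ → Y → Y} {st : ℝ → Y → Y} (hS : Sys μ V st) (s : ℝ) (f : Y → ℝ) (A : ℕ → ℝ) (n : ℕ) (y : Y) :
    Qr st s f A (n + 1) y = av V s (Qr st s f (fun j => A (j + 1)) n) (st (A 0) y) := by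
  show ∫ w, Qr st s f (fun j => A (j + 1)) n (st (A 0 + s * w.re) y) ∂dl =
    ∫ w, Qr st s f (fun j => A (j + 1)) n (V (s * w.re) (st (A 0) y)) ∂dl
  simp only [hS.add]

theorem Qr_SQ [SFinite μ] {V : ℝ → Y → Y} {st : ℝ → Y → Y} (hS : Sys μ V st) {f : Y → ℝ} (hf : SQ μ f) (s : ℝ) (A : ℕ → ℝ)
    (n : ℕ) : SQ μ (Qr st s f A n) := by
  induction n generalizing A with
  | zero => exact hf
  | succ n ih =>
    have e : Qr st s f A (n + 1) = fun y => av V s (Qr st s f (fun j => A (j + 1)) n) (st (A 0) y) :=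
      funext fun y => Qr_succ hS s f A n y
    rw [e]
    exact (av_SQ hS.fl (ih fun j => A (j + 1)) s).1.comp (hS.mp (A 0))

theorem Qr_add (st : ℝ → Y → Y) (s : ℝ) (f : Y → ℝ) (A : ℕ → ℝ) (m n : ℕ) (y : Y) :
    Qr st s f A (m + n) y = Qr st s (Qr st s f (fun j => A (j + m)) n) A m y := by
  induction m generalizing A y with
  | zero =>
    rw [zero_add]
    rfl
  | succ m ih =>
    have e : m + 1 + n = m + n + 1 := by omega
    rw [e]
    show ∫ w, Qr st s f (fun j => A (j + 1)) (m + n) (st (A 0 + s * w.re) y) ∂dl =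
      ∫ w, Qr st s (Qr st s f (fun j => A (j + (m + 1))) n) (fun j => A (j + 1)) m (st (A 0 + s * w.re) y) ∂dl
    simp only [ih]
    rfl

theorem Qr_BM {st : ℝ → Y → Y} (hst : Measurable fun p : ℝ × Y => st p.1 p.2) {f : Y → ℝ} (hf : BM f) (s : ℝ) (n : ℕ) :
    BM fun p : (ℕ → ℝ) × Y => Qr st s f p.1 n p.2 := by
  induction n with
  | zero => exact hf.comp measurable_snd
  | succ n ih =>
    have h1 : Measurable fun q : ((ℕ → ℝ) × Y) × ℂ => fun j : ℕ => q.1.1 (j + 1) :=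
      measurable_pi_lambda _ fun j => (measurable_pi_apply (j + 1)).comp (measurable_fst.comp measurable_fst)
    have h2 : Measurable fun q : ((ℕ → ℝ) × Y) × ℂ => q.1.1 0 + s * q.2.re :=
      ((measurable_pi_apply 0).comp (measurable_fst.comp measurable_fst)).add
        (measurable_const.mul (Complex.measurable_re.comp measurable_snd))
    have h3 : Measurable fun q : ((ℕ → ℝ) × Y) × ℂ => st (q.1.1 0 + s * q.2.re) q.1.2 :=
      hst.comp (h2.prodMk (measurable_snd.comp measurable_fst))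
    exact (ih.comp (h1.prodMk h3)).integral dl

private theorem stage_succ67 {V : ℝ → Y → Y} {st : ℝ → Y → Y} (hS : Sys μ V st) (s : ℝ) (f : Y → ℝ) (A : ℕ → ℝ)
    {J i : ℕ} (hi : i < J) (y : Y) :
    Qr st s f (fun k => A (k + (J - (i + 1)))) (i + 1) y =
      av V s (Qr st s f (fun k => A (k + (J - i))) i) (st (A (J - (i + 1))) y) := by
  rw [Qr_succ hS]
  have e : (fun j => A (j + 1 + (J - (i + 1)))) = fun j => A (j + (J - i)) := by
    funext j
    congr 1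
    omega
  rw [zero_add, e]

private theorem drop67 [SFinite μ] {V : ℝ → Y → Y} {st : ℝ → Y → Y} (hS : Sys μ V st) {f : Y → ℝ} (hf : SQ μ f) (s : ℝ)
    (A : ℕ → ℝ) {J i : ℕ} (hi : i < J) :
    (∫ y, Qr st s f (fun k => A (k + (J - (i + 1)))) (i + 1) y ^ 2 ∂μ) =
      (∫ y, av V s (Qr st s f (fun k => A (k + (J - i))) i) y ^ 2 ∂μ) ∧
    (∫ y, av V s (Qr st s f (fun k => A (k + (J - i))) i) y ^ 2 ∂μ) ≤
      ∫ y, Qr st s f (fun k => A (k + (J - i))) i y ^ 2 ∂μ := by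
  have h1 := Qr_SQ hS hf s (fun k => A (k + (J - i))) i
  have h2 := av_SQ hS.fl h1 s
  refine ⟨?_, ?_⟩
  · simp only [stage_succ67 hS s f A hi]
    exact int_comp (f := fun y => av V s (Qr st s f (fun k => A (k + (J - i))) i) y ^ 2) (h2.1.1.1.pow_const 2)
      (hS.mp _)
  · have h3 := h2.2
    unfold nm at h3
    exact (Real.sqrt_le_sqrt_iff (int_sq_nonneg _)).1 h3

private theorem anti67 [SFinite μ] {V : ℝ → Y → Y} {st : ℝ → Y → Y} (hS : Sys μ V st) {f : Y → ℝ} (hf : SQ μ f) (s : ℝ)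
    (A : ℕ → ℝ) {J : ℕ} (i d : ℕ) (hd : i + d ≤ J) :
    (∫ y, Qr st s f (fun k => A (k + (J - (i + d)))) (i + d) y ^ 2 ∂μ) ≤
      ∫ y, Qr st s f (fun k => A (k + (J - i))) i y ^ 2 ∂μ := by
  induction d with
  | zero => exact le_rfl
  | succ d ih =>
    have h1 := drop67 hS hf s A (J := J) (i := i + d) (by omega)
    have h2 := ih (by omega)
    rw [← add_assoc, h1.1]
    exact h1.2.trans h2

private theorem sqrt67 {T s x y : ℝ} (hs : 0 < s) (hT : 0 ≤ T) (hxy : x ≤ y) :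
    √(16000 * T ^ 2 / s ^ 2 * x) ≤ 127 * T / s * √y := by
  have h1 : 16000 * T ^ 2 / s ^ 2 * x ≤ (127 * T / s) ^ 2 * y ∨ x < 0 := by
    rcases lt_or_ge x 0 with h | h
    · exact Or.inr h
    · left
      have h2 : 16000 * T ^ 2 / s ^ 2 ≤ (127 * T / s) ^ 2 := by
        rw [div_pow]
        refine div_le_div_of_nonneg_right ?_ (by positivity)
        nlinarith [sq_nonneg T]
      exact mul_le_mul h2 hxy h (by positivity)
  have h0 : 0 ≤ 127 * T / s := by positivity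
  rcases h1 with h1 | h1
  · calc √(16000 * T ^ 2 / s ^ 2 * x) ≤ √((127 * T / s) ^ 2 * y) := Real.sqrt_le_sqrt h1
      _ = 127 * T / s * √y := by rw [Real.sqrt_mul (sq_nonneg _), Real.sqrt_sq h0]
  · have h2 : 16000 * T ^ 2 / s ^ 2 * x ≤ 0 := mul_nonpos_of_nonneg_of_nonpos (by positivity) h1.le
    rw [Real.sqrt_eq_zero_of_nonpos h2]
    exact mul_nonneg h0 (Real.sqrt_nonneg _)

theorem stages [SFinite μ] {V : ℝ → Y → Y} {st : ℝ → Y → Y} (hS : Sys μ V st) {f : Y → ℝ} (hf : SQ μ f) {s T : ℝ}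
    (hs : 0 < s) (hs1 : s ≤ 1) (hT : 1 ≤ T) (A : ℕ → ℝ) {J i : ℕ} (hi : i < J) {e : ℝ}
    (he : e = 127 * T / s * √((∫ y, f y ^ 2 ∂μ) - ∫ y, Qr st s f A J y ^ 2 ∂μ)) :
    (∀ t : ℝ, |t| ≤ T → nm μ (fun y => Qr st s f (fun k => A (k + (J - i))) i (V t y) -
      Qr st s f (fun k => A (k + (J - i))) i y) ≤ e) ∧
    nm μ (fun y => av V s (Qr st s f (fun k => A (k + (J - i))) i) y - Qr st s f (fun k => A (k + (J - i))) i y) ≤ e ∧
    nm μ (Qr st s f A J) ≤ nm μ (Qr st s f (fun k => A (k + (J - i))) i) ∧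
    nm μ (Qr st s f (fun k => A (k + (J - i))) i) ≤ nm μ f := by
  have h0 := anti67 hS hf s A (J := J) 0 i (by omega)
  rw [zero_add] at h0
  have h0' : (∫ y, Qr st s f (fun k => A (k + (J - i))) i y ^ 2 ∂μ) ≤ ∫ y, f y ^ 2 ∂μ := h0
  have h1 := anti67 hS hf s A (J := J) (i + 1) (J - (i + 1)) (by omega)
  have e1 : i + 1 + (J - (i + 1)) = J := by omega
  rw [e1, Nat.sub_self] at h1
  have h1' : (∫ y, Qr st s f A J y ^ 2 ∂μ) ≤
      ∫ y, Qr st s f (fun k => A (k + (J - (i + 1)))) (i + 1) y ^ 2 ∂μ := h1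
  have h2 := drop67 hS hf s A hi
  have h3 := Qr_SQ hS hf s (fun k => A (k + (J - i))) i
  set g : Y → ℝ := Qr st s f (fun k => A (k + (J - i))) i with hg
  have h4 : (∫ y, g y ^ 2 ∂μ) - ∫ y, av V s g y ^ 2 ∂μ ≤
      (∫ y, f y ^ 2 ∂μ) - ∫ y, Qr st s f A J y ^ 2 ∂μ := by
    rw [← h2.1]
    linarith
  refine ⟨fun t ht => ?_, ?_, ?_, ?_⟩
  · have h5 := loss hS.fl h3 hs hs1 hT ht
    rw [he]
    exact (Real.sqrt_le_sqrt h5).trans (sqrt67 hs (by linarith) h4)
  · have h5 := loss_av hS.fl h3 hs hs1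
    have h6 : (∫ y, (av V s g y - g y) ^ 2 ∂μ) ≤
        16000 * (1 : ℝ) ^ 2 / s ^ 2 * ((∫ y, g y ^ 2 ∂μ) - ∫ y, av V s g y ^ 2 ∂μ) := by
      rw [one_pow, mul_one]
      exact h5
    have h7 := (Real.sqrt_le_sqrt h6).trans (sqrt67 hs zero_le_one h4)
    rw [he]
    refine le_trans h7 (mul_le_mul_of_nonneg_right ?_ (Real.sqrt_nonneg _))
    exact div_le_div_of_nonneg_right (by linarith) hs.le
  · refine Real.sqrt_le_sqrt (h1'.trans ?_)
    rw [h2.1]
    exact h2.2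
  · exact Real.sqrt_le_sqrt h0'

private theorem disj67 {V : ℝ → Y → Y} (hV : Flow μ V) {E : Set Y} {m : ℕ} {t : ℝ}
    (hd : ∀ k : ℕ, 1 ≤ k → k < m → ∀ y ∈ E, V (k * t) y ∉ E) {i k : ℕ} (hik : i < k) (hk : k < m) {y : Y}
    (h1 : V (i * t) y ∈ E) : V (k * t) y ∉ E := by
  have h2 := hd (k - i) (by omega) (by omega) _ h1
  rw [← hV.add] at h2
  have e : ((k - i : ℕ) : ℝ) * t + i * t = k * t := by
    rw [Nat.cast_sub hik.le]
    ring
  rwa [e] at h2

private theorem sum67 {V : ℝ → Y → Y} (hV : Flow μ V) {E : Set Y} {m : ℕ} {t : ℝ}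
    (hd : ∀ k : ℕ, 1 ≤ k → k < m → ∀ y ∈ E, V (k * t) y ∉ E) (f : Y → ℝ) (y : Y) :
    ∑ k ∈ Finset.range m, ((V (k * t) ⁻¹' E).indicator f y) ^ 2 ≤ f y ^ 2 := by
  by_cases h : ∃ k, k < m ∧ V (k * t) y ∈ E
  · obtain ⟨k, hk, hkE⟩ := h
    have h1 : ∀ j ∈ Finset.range m, j ≠ k → ((V (j * t) ⁻¹' E).indicator f y) ^ 2 = 0 := by
      intro j hj hjk
      have hn : y ∉ V (j * t) ⁻¹' E := by
        intro hc
        rcases lt_or_gt_of_ne hjk with hlt | hgt
        · exact disj67 hV hd hlt hk hc hkE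
        · exact disj67 hV hd hgt (Finset.mem_range.1 hj) hkE hc
      rw [indicator_of_notMem hn, zero_pow two_ne_zero]
    rw [Finset.sum_eq_single_of_mem k (Finset.mem_range.2 hk) h1, indicator_of_mem (show y ∈ V (k * t) ⁻¹' E from hkE)]
  · have h1 : ∀ j ∈ Finset.range m, ((V (j * t) ⁻¹' E).indicator f y) ^ 2 = 0 := by
      intro j hj
      have hn : y ∉ V (j * t) ⁻¹' E := fun hc => h ⟨j, Finset.mem_range.1 hj, hc⟩
      rw [indicator_of_notMem hn, zero_pow two_ne_zero]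
    rw [Finset.sum_eq_zero h1]
    exact sq_nonneg _

theorem disp {V : ℝ → Y → Y} (hV : Flow μ V) {f : Y → ℝ} (hf : SQ μ f) {E : Set Y} (hE : MeasurableSet E)
    {m : ℕ} (hm : 0 < m) {t e : ℝ} (hd : ∀ k : ℕ, 1 ≤ k → k < m → ∀ y ∈ E, V (k * t) y ∉ E)
    (he : ∀ k : ℕ, k < m → nm μ (fun y => f (V (k * t) y) - f y) ≤ e) :
    nm μ (E.indicator f) ≤ nm μ f / √m + e := by
  have he0 : 0 ≤ e := (nm_nonneg _).trans (he 0 hm)
  have hEk : ∀ k : ℕ, MeasurableSet (V (k * t) ⁻¹' E) := fun k => (hV.mp _).measurable hE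
  have hk : ∀ k : ℕ, k < m → nm μ (E.indicator f) - e ≤ nm μ ((V (k * t) ⁻¹' E).indicator f) := by
    intro k hk
    have h1 := nm_comp (hf.ind hE) (hV.mp (k * t))
    have hc := hf.comp (hV.mp (k * t))
    have e1 : (fun y => E.indicator f (V (k * t) y)) =
        (V (k * t) ⁻¹' E).indicator fun y => f (V (k * t) y) := rfl
    rw [e1] at h1
    have h2 := nm_sub (hc.ind (hEk k)) (hf.ind (hEk k))
    have e2 : (fun y => (V (k * t) ⁻¹' E).indicator (fun y => f (V (k * t) y)) y -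
        (V (k * t) ⁻¹' E).indicator f y) = (V (k * t) ⁻¹' E).indicator fun y => f (V (k * t) y) - f y := by
      funext y
      by_cases hy : y ∈ V (k * t) ⁻¹' E
      · simp only [indicator_of_mem hy]
      · simp only [indicator_of_notMem hy, sub_zero]
    rw [e2] at h2
    have h3 := nm_ind_le (hc.sub hf) (V (k * t) ⁻¹' E)
    have h4 := he k hk
    linarith
  have hsum : ∑ k ∈ Finset.range m, nm μ ((V (k * t) ⁻¹' E).indicator f) ^ 2 ≤ nm μ f ^ 2 := by
    simp only [nm_sq]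
    rw [← integral_finsetSum _ fun k _ => (hf.ind (hEk k)).2]
    exact integral_mono (integrable_finsetSum _ fun k _ => (hf.ind (hEk k)).2) hf.2 fun y => sum67 hV hd f y
  have hm0 : (0 : ℝ) < m := Nat.cast_pos.2 hm
  rcases le_or_gt (nm μ (E.indicator f)) e with h | h
  · have h5 : 0 ≤ nm μ f / √m := div_nonneg (nm_nonneg _) (Real.sqrt_nonneg _)
    linarith
  · have h6 : (m : ℝ) * (nm μ (E.indicator f) - e) ^ 2 ≤ nm μ f ^ 2 := by
      refine le_trans ?_ hsum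
      have h7 : ∀ k ∈ Finset.range m, (nm μ (E.indicator f) - e) ^ 2 ≤ nm μ ((V (k * t) ⁻¹' E).indicator f) ^ 2 :=
        fun k hkm => pow_le_pow_left₀ (by linarith) (hk k (Finset.mem_range.1 hkm)) 2
      have h8 := Finset.sum_le_sum h7
      rwa [Finset.sum_const, Finset.card_range, nsmul_eq_mul] at h8
    have h9 : (√m * (nm μ (E.indicator f) - e)) ^ 2 ≤ nm μ f ^ 2 := by
      rw [mul_pow, Real.sq_sqrt hm0.le]
      exact h6
    have h10 := (abs_le_of_sq_le_sq' h9 (nm_nonneg f)).2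
    have h11 : nm μ (E.indicator f) - e ≤ nm μ f / √m := by
      rw [le_div_iff₀ (Real.sqrt_pos.2 hm0), mul_comm]
      exact h10
    linarith

theorem pull [SFinite μ] {V : ℝ → Y → Y} {st : ℝ → Y → Y} (hS : Sys μ V st) {f : Y → ℝ} (hf : SQ μ f) {s e : ℝ} (a : ℝ)
    {E : Set Y} (hE : MeasurableSet E) (he : nm μ (fun y => av V s f y - f y) ≤ e) :
    nm μ ((st a ⁻¹' E).indicator fun y => av V s f (st a y)) ≤ nm μ (E.indicator f) + e := by
  have h1 := (av_SQ hS.fl hf s).1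
  have h2 := nm_comp (h1.ind hE) (hS.mp a)
  have e1 : (fun y => E.indicator (av V s f) (st a y)) = (st a ⁻¹' E).indicator fun y => av V s f (st a y) := rfl
  rw [e1] at h2
  rw [h2]
  have h3 := nm_sub (h1.ind hE) (hf.ind hE)
  have e2 : (fun y => E.indicator (av V s f) y - E.indicator f y) = E.indicator fun y => av V s f y - f y := by
    funext y
    by_cases hy : y ∈ E
    · simp only [indicator_of_mem hy]
    · simp only [indicator_of_notMem hy, sub_zero]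
  rw [e2] at h3
  have h4 := nm_ind_le (h1.sub hf) E
  linarith

end Pool.Agent.Helper82.QR
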