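import Pool.Agent.Helper46.QP.Res

/-! Project QR (MP_9ee088_an): the standard map with a real, quasi-periodically modulated parameter. Abstract flows,
square integrable functions, averages. Proof in words of the whole project: /team-store/h82_QR_README.md. -/

set_option autoImplicit false
open MeasureTheory Real Set
open scoped ENNReal

namespace Pool.Agent.Helper82.QR

open Pool.Agent.Helper46.QP (dl BM)

variable {Y : Type*} [MeasurableSpace Y] {μ : Measure Y}

/-- a measurable flow which preserves the measure -/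
structure Flow (μ : Measure Y) (V : ℝ → Y → Y) : Prop where
  meas : Measurable fun p : ℝ × Y => V p.1 p.2
  mp : ∀ t, MeasurePreserving (V t) μ μ
  zero : ∀ y, V 0 y = y
  add : ∀ s t y, V (s + t) y = V s (V t y)

/-- bounded, measurable, square integrable -/
def SQ (μ : Measure Y) (f : Y → ℝ) : Prop := BM f ∧ Integrable (fun y => f y ^ 2) μ

/-- the norm of `L²` -/
noncomputable def nm (μ : Measure Y) (f : Y → ℝ) : ℝ := √(∫ y, f y ^ 2 ∂μ)

/-- average over the flow -/
noncomputable def av (V : ℝ → Y → Y) (s : ℝ) (f : Y → ℝ) (y : Y) : ℝ := ∫ w, f (V (s * w.re) y) ∂dl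

/-- maps `st a`, `a` real, with `st (a + t) = V t ∘ st a` -/
structure Sys (μ : Measure Y) (V : ℝ → Y → Y) (st : ℝ → Y → Y) : Prop where
  fl : Flow μ V
  meas : Measurable fun p : ℝ × Y => st p.1 p.2
  mp : ∀ a, MeasurePreserving (st a) μ μ
  add : ∀ a t y, st (a + t) y = V t (st a y)

/-- the averaged chain -/
noncomputable def Qr (st : ℝ → Y → Y) (s : ℝ) (f : Y → ℝ) : (ℕ → ℝ) → ℕ → Y → ℝ
  | _, 0, y => f y
  | A, n + 1, y => ∫ w, Qr st s f (fun j => A (j + 1)) n (st (A 0 + s * w.re) y) ∂dl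

/-- the orbit -/
noncomputable def ob (st : ℝ → Y → Y) (A : ℕ → ℝ) (y : Y) : ℕ → Y
  | 0 => y
  | n + 1 => st (A n) (ob st A y n)

omit [MeasurableSpace Y] in
lemma ob_succ (st : ℝ → Y → Y) (A : ℕ → ℝ) (y : Y) (n : ℕ) : ob st A y (n + 1) = st (A n) (ob st A y n) := rfl

omit [MeasurableSpace Y] in
lemma ob_add (st : ℝ → Y → Y) (A : ℕ → ℝ) (y : Y) (m n : ℕ) :
    ob st A y (m + n) = ob st (fun j => A (j + m)) (ob st A y m) n := by
  induction n with
  | zero => rfl
  | succ n ih => rw [← add_assoc, ob_succ, ih, ob_succ, add_comm m n]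

omit [MeasurableSpace Y] in
lemma ob_one_add (st : ℝ → Y → Y) (A : ℕ → ℝ) (y : Y) (n : ℕ) :
    ob st A y (n + 1) = ob st (fun j => A (j + 1)) (st (A 0) y) n := by
  rw [add_comm, ob_add]; rfl

/-! ### basic facts -/

lemma nm_nonneg (f : Y → ℝ) : 0 ≤ nm μ f := Real.sqrt_nonneg _

lemma int_sq_nonneg (f : Y → ℝ) : 0 ≤ ∫ y, f y ^ 2 ∂μ := integral_nonneg fun _ => sq_nonneg _

lemma nm_sq (f : Y → ℝ) : nm μ f ^ 2 = ∫ y, f y ^ 2 ∂μ := Real.sq_sqrt (int_sq_nonneg f)

theorem mul_int {f g : Y → ℝ} (hf : SQ μ f) (hg : SQ μ g) : Integrable (fun y => f y * g y) μ := by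
  refine Integrable.mono' (hf.2.add hg.2) (hf.1.1.mul hg.1.1).aestronglyMeasurable
    (Filter.Eventually.of_forall fun y => ?_)
  rw [Real.norm_eq_abs, abs_mul]
  show |f y| * |g y| ≤ f y ^ 2 + g y ^ 2
  nlinarith [sq_nonneg (|f y| - |g y|), sq_abs (f y), sq_abs (g y), abs_nonneg (f y), abs_nonneg (g y)]

theorem SQ.add {f g : Y → ℝ} (hf : SQ μ f) (hg : SQ μ g) : SQ μ fun y => f y + g y := by
  refine ⟨hf.1.add hg.1, ?_⟩
  have e : (fun y => (f y + g y) ^ 2) = fun y => f y ^ 2 + g y ^ 2 + 2 * (f y * g y) := by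
    funext y; ring
  rw [e]
  exact (hf.2.add hg.2).add ((mul_int hf hg).const_mul 2)

theorem SQ.const_mul {f : Y → ℝ} (hf : SQ μ f) (c : ℝ) : SQ μ fun y => c * f y := by
  refine ⟨hf.1.const_mul c, ?_⟩
  have e : (fun y => (c * f y) ^ 2) = fun y => c ^ 2 * f y ^ 2 := by
    funext y; ring
  rw [e]
  exact hf.2.const_mul _

theorem SQ.sub {f g : Y → ℝ} (hf : SQ μ f) (hg : SQ μ g) : SQ μ fun y => f y - g y := by
  have h := hf.add (hg.const_mul (-1))
  have e : (fun y => f y + -1 * g y) = fun y => f y - g y := by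
    funext y; ring
  rwa [e] at h

theorem SQ.comp {f : Y → ℝ} (hf : SQ μ f) {T : Y → Y} (hT : MeasurePreserving T μ μ) :
    SQ μ fun y => f (T y) :=
  ⟨hf.1.comp hT.measurable, hT.integrable_comp_of_integrable hf.2⟩

theorem int_comp {f : Y → ℝ} (hf : Measurable f) {T : Y → Y} (hT : MeasurePreserving T μ μ) :
    ∫ y, f (T y) ∂μ = ∫ y, f y ∂μ := by
  have h := integral_map (μ := μ) hT.measurable.aemeasurable (f := f)
    (hf.stronglyMeasurable.aestronglyMeasurable)
  rw [hT.map_eq] at h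
  exact h.symm

theorem nm_comp {f : Y → ℝ} (hf : SQ μ f) {T : Y → Y} (hT : MeasurePreserving T μ μ) :
    nm μ (fun y => f (T y)) = nm μ f := by
  unfold nm
  rw [int_comp (f := fun y => f y ^ 2) (hf.1.1.pow_const 2) hT]

theorem SQ.ind {f : Y → ℝ} (hf : SQ μ f) {E : Set Y} (hE : MeasurableSet E) : SQ μ (E.indicator f) := by
  obtain ⟨⟨h1, K, hK⟩, h2⟩ := hf
  refine ⟨⟨h1.indicator hE, |K|, fun y => ?_⟩, ?_⟩
  · by_cases hy : y ∈ E
    · rw [indicator_of_mem hy]; exact (hK y).trans (le_abs_self K)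
    · rw [indicator_of_notMem hy, abs_zero]; exact abs_nonneg K
  · have e : (fun y => E.indicator f y ^ 2) = E.indicator fun y => f y ^ 2 := by
      funext y
      by_cases hy : y ∈ E
      · rw [indicator_of_mem hy, indicator_of_mem hy]
      · rw [indicator_of_notMem hy, indicator_of_notMem hy, zero_pow two_ne_zero]
    rw [e]
    exact h2.indicator hE

theorem nm_mono {f g : Y → ℝ} (hg : SQ μ g) (h : ∀ y, |f y| ≤ |g y|) : nm μ f ≤ nm μ g := by
  unfold nm
  refine Real.sqrt_le_sqrt ?_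
  by_cases hf : Integrable (fun y => f y ^ 2) μ
  · refine integral_mono hf hg.2 fun y => ?_
    exact sq_le_sq.2 (h y)
  · rw [integral_undef hf]
    exact int_sq_nonneg g

theorem nm_ind_le {f : Y → ℝ} (hf : SQ μ f) (E : Set Y) : nm μ (E.indicator f) ≤ nm μ f := by
  refine nm_mono hf fun y => ?_
  by_cases hy : y ∈ E
  · rw [indicator_of_mem hy]
  · rw [indicator_of_notMem hy, abs_zero]; exact abs_nonneg _

/-- Cauchy-Schwarz -/
theorem cau {f g : Y → ℝ} (hf : SQ μ f) (hg : SQ μ g) : |∫ y, f y * g y ∂μ| ≤ nm μ f * nm μ g := by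
  have hfg := mul_int hf hg
  have h1 : ∀ t : ℝ, 0 ≤ (∫ y, g y ^ 2 ∂μ) * (t * t) + (2 * ∫ y, f y * g y ∂μ) * t + ∫ y, f y ^ 2 ∂μ := by
    intro t
    have e : ∫ y, (t * g y + f y) ^ 2 ∂μ =
        (∫ y, g y ^ 2 ∂μ) * (t * t) + (2 * ∫ y, f y * g y ∂μ) * t + ∫ y, f y ^ 2 ∂μ := by
      have e1 : ∀ y, (t * g y + f y) ^ 2 = t * t * g y ^ 2 + 2 * t * (f y * g y) + f y ^ 2 := fun y => by ring
      simp only [e1]
      have i1 : Integrable (fun y => t * t * g y ^ 2) μ := hg.2.const_mul _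
      have i2 : Integrable (fun y => 2 * t * (f y * g y)) μ := hfg.const_mul _
      have i12 : Integrable (fun y => t * t * g y ^ 2 + 2 * t * (f y * g y)) μ := i1.add i2
      rw [integral_add i12 hf.2, integral_add i1 i2, integral_const_mul, integral_const_mul]
      ring
    rw [← e]
    exact integral_nonneg fun _ => sq_nonneg _
  have h2 := discrim_le_zero h1
  unfold discrim at h2
  have h3 : (∫ y, f y * g y ∂μ) ^ 2 ≤ (nm μ f * nm μ g) ^ 2 := by
    rw [mul_pow, nm_sq, nm_sq]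
    nlinarith
  exact abs_le_of_sq_le_sq h3 (mul_nonneg (nm_nonneg f) (nm_nonneg g))

/-- Minkowski -/
theorem nm_add {f g : Y → ℝ} (hf : SQ μ f) (hg : SQ μ g) : nm μ (fun y => f y + g y) ≤ nm μ f + nm μ g := by
  have h1 := cau hf hg
  refine abs_le_of_sq_le_sq' ?_ (add_nonneg (nm_nonneg f) (nm_nonneg g)) |>.2
  rw [nm_sq]
  have e1 : ∀ y, (f y + g y) ^ 2 = f y ^ 2 + g y ^ 2 + 2 * (f y * g y) := fun y => by ring
  simp only [e1]
  have i12 : Integrable (fun y => f y ^ 2 + g y ^ 2) μ := hf.2.add hg.2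
  rw [integral_add i12 ((mul_int hf hg).const_mul 2), integral_add hf.2 hg.2, integral_const_mul, ← nm_sq, ← nm_sq]
  nlinarith [(abs_le.1 h1).2]

theorem nm_sub {f g : Y → ℝ} (hf : SQ μ f) (hg : SQ μ g) : nm μ f ≤ nm μ g + nm μ (fun y => f y - g y) := by
  have h := nm_add hg (hf.sub hg)
  have e : (fun y => g y + (f y - g y)) = f := by
    funext y; ring
  rwa [e] at h

end Pool.Agent.Helper82.QR
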