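import Pool.Agent.Helper82.QR.Stg
import Pool.Agent.Helper82.QR.Tan

/-! Block QR-GAPR: the gap on the tangent bundle (README, GAP 2).

Let `M = 3 + 2 π K`, `β = 1/128`, `δ = 1/8192`, `m = 32`, `T = 2^18 M` (`≥ 31 M/δ`). For `y = ((X, x), (U, W))`:
`sA = {δ ≤ |cs x|, W ≠ 0, |U| ≤ M |W|}`, displaced by `t = M/δ` (`U` moves by `2 π h W`, `|h| = k t |cs x| ≥ M`, so `2 π |h| > 2 M`); `sB = {β ≤ |sn x|, |cs X| < δ}`, displaced by `t = 1/128` (`sn_add`, `cs_add`: if `|cs X| < δ`, `|cs (X + h)| < δ` then `|sin 2πh| ≤ 2 δ`, strictly less; `|h| ≤ 31/128 < 1/4` gives `4|h| ≤ |sin 2πh|`, but `|h| ≥ β/128 = δ/2`);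
`sD = {1/2 ≤ |sn x|, |sn X| < β}`, displaced by `t = β`. `cover` (pure logic): `st (A 1)`, `st (A 2)`, `st (A 3)` applied successively: `w_(j+1) = v_j w_j - w_(j-1)`, `|v_j| ≤ 2 + 2 π K = M - 1`; see the README for the two cases `|C_2| < δ`, `|C_2| ≥ δ`. The functions on the four stages are
`f_3 = Qr srY s f (A (· + 1)) 3`, `f_2 = Qr .. (A (· + 2)) 2`, `f_1 = Qr .. (A (· + 3)) 1`, `f_0 = f` (`stages` with `J = 4`), `f_3 = (av f_2) ∘ srY (A 1)` etc. So by `disp`, `pull` (with `stages`): each of the eight sets, as a set of stage 1, has `nm (indicator f_3) ≤ nm f / √32 + 4 e`;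
`∫ f_3^2 ≤ Σ (..)^2 ≤ 8 (nm f/√32 + 4 e)^2 ≤ ∫ f^2 / 2 + 256 e^2` and `∫ f_3^2 ≥ ∫ (Qr f A 4)^2`, `e^2 = 127² T²/s² (∫ f^2 - ∫ (Qr f A 4)^2)`: `gap4` with `η = 1 / (2 (1 + 256 * 127² T²))`. `gapR`: induction on `n / 4` (`Qr_add`, `Qr_SQ`; for `n < 4` `Qr` does not increase the norm). -/

set_option autoImplicit false
open MeasureTheory Real Set
open scoped ENNReal

namespace Pool.Agent.Helper82.QR

open Pool.Agent.Helper46.QP (dl BM TT)

def sA (M δ : ℝ) : Set YY := {y | δ ≤ |cs y.1.2| ∧ y.2.2 ≠ 0 ∧ |y.2.1| ≤ M * |y.2.2|}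

def sB (β δ : ℝ) : Set YY := {y | β ≤ |sn y.1.2| ∧ |cs y.1.1| < δ}

def sD (β : ℝ) : Set YY := {y | 1 / 2 ≤ |sn y.1.2| ∧ |sn y.1.1| < β}

theorem dispA {M δ : ℝ} (hM : 1 ≤ M) (hδ : 0 < δ) {k : ℕ} (hk : 1 ≤ k) {y : YY} (hy : y ∈ sA M δ) :
    shY (k * (M / δ)) y ∉ sA M δ := by
  rintro ⟨-, -, h3⟩
  obtain ⟨g1, g2, g3⟩ := hy
  change |y.2.1 + 2 * π * (k * (M / δ)) * cs y.1.2 * y.2.2| ≤ M * |y.2.2| at h3
  have hW : 0 < |y.2.2| := abs_pos.2 g2
  have hk1 : (1 : ℝ) ≤ k := by exact_mod_cast hk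
  have h4 : |2 * π * (k * (M / δ)) * cs y.1.2 * y.2.2| ≤ 2 * M * |y.2.2| := by
    have h5 : 2 * π * (k * (M / δ)) * cs y.1.2 * y.2.2 =
        (y.2.1 + 2 * π * (k * (M / δ)) * cs y.1.2 * y.2.2) - y.2.1 := by ring
    rw [h5]
    refine (abs_sub _ _).trans ?_
    linarith
  rw [abs_mul, abs_mul, abs_of_nonneg (show (0 : ℝ) ≤ 2 * π * (k * (M / δ)) by positivity)] at h4
  have h6 : 2 * π * (k * (M / δ)) * |cs y.1.2| ≤ 2 * M := le_of_mul_le_mul_right h4 hW
  have h7 : 2 * π * (k * (M / δ)) * δ ≤ 2 * π * (k * (M / δ)) * |cs y.1.2| :=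
    mul_le_mul_of_nonneg_left g1 (by positivity)
  have h8 : 2 * π * (k * (M / δ)) * δ = 2 * π * (k * M) := by
    field_simp
  have h9 : M ≤ k * M := by nlinarith
  have h10 : 2 * π * M ≤ 2 * π * (k * M) := mul_le_mul_of_nonneg_left h9 (by positivity)
  have h11 : (1 : ℝ) < π := by linarith [Real.pi_gt_three]
  nlinarith

private theorem sin_sep32 (X : UnitAddCircle) (h : ℝ) :
    Real.sin (2 * π * h) = sn (X + (h : UnitAddCircle)) * cs X - cs (X + (h : UnitAddCircle)) * sn X := by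
  rw [sn_add, cs_add]
  have := sn_cs X
  linear_combination (-Real.sin (2 * π * h)) * this

private theorem sn_le32 (X : UnitAddCircle) : |sn X| ≤ 1 := by
  rw [← sq_le_one_iff_abs_le_one]
  nlinarith [sn_cs X, sq_nonneg (cs X)]

private theorem cs_le32 (X : UnitAddCircle) : |cs X| ≤ 1 := by
  rw [← sq_le_one_iff_abs_le_one]
  nlinarith [sn_cs X, sq_nonneg (sn X)]

private theorem sin_low32 {h : ℝ} (h1 : |h| ≤ 1 / 4) : 4 * |h| ≤ |Real.sin (2 * π * h)| := by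
  have hp := Real.pi_pos
  have h2 : |Real.sin (2 * π * h)| = Real.sin (2 * π * |h|) := by
    rcases abs_choice h with h3 | h3
    · rw [h3]
      rw [abs_of_nonneg]
      refine Real.sin_nonneg_of_nonneg_of_le_pi ?_ ?_
      · rw [← h3]; positivity
      · rw [h3] at h1; nlinarith
    · rw [h3, mul_neg, Real.sin_neg]
      rw [abs_of_nonpos]
      refine Real.sin_nonpos_of_nonpos_of_neg_pi_le ?_ ?_
      · have : 0 ≤ |h| := abs_nonneg h
        rw [h3] at this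
        nlinarith
      · rw [h3] at h1; nlinarith
  rw [h2]
  have h4 := Real.mul_le_sin (x := 2 * π * |h|) (by positivity) (by nlinarith)
  have h5 : 2 / π * (2 * π * |h|) = 4 * |h| := by
    field_simp
    ring
  rwa [h5] at h4

theorem dispB {k : ℕ} (hk : 1 ≤ k) (hk2 : k < 32) {y : YY} (hy : y ∈ sB (1 / 128) (1 / 8192)) :
    shY (k * (1 / 128)) y ∉ sB (1 / 128) (1 / 8192) := by
  rintro ⟨-, h2⟩
  obtain ⟨g1, g2⟩ := hy
  change |cs (y.1.1 + ((k * (1 / 128) * sn y.1.2 : ℝ) : UnitAddCircle))| < 1 / 8192 at h2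
  set h : ℝ := k * (1 / 128) * sn y.1.2 with hh
  have hk1 : (1 : ℝ) ≤ k := by exact_mod_cast hk
  have hk3 : (k : ℝ) ≤ 31 := by
    have : k ≤ 31 := by omega
    exact_mod_cast this
  have ha : |h| = k * (1 / 128) * |sn y.1.2| := by
    rw [hh, abs_mul, abs_of_nonneg (by positivity)]
  have hs1 := sn_le32 y.1.2
  have ha1 : |h| ≤ 1 / 4 := by
    rw [ha]
    nlinarith [abs_nonneg (sn y.1.2)]
  have ha2 : 1 / 16384 ≤ |h| := by
    rw [ha]
    nlinarith [abs_nonneg (sn y.1.2)]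
  have h5 := sin_low32 ha1
  have h6 : |Real.sin (2 * π * h)| < 1 / 4096 := by
    rw [sin_sep32 y.1.1 h]
    refine (abs_sub _ _).trans_lt ?_
    rw [abs_mul, abs_mul]
    have e1 := sn_le32 (y.1.1 + (h : UnitAddCircle))
    have e2 := sn_le32 y.1.1
    have e3 : |sn (y.1.1 + (h : UnitAddCircle))| * |cs y.1.1| ≤ 1 * |cs y.1.1| :=
      mul_le_mul_of_nonneg_right e1 (abs_nonneg _)
    have e4 : |cs (y.1.1 + (h : UnitAddCircle))| * |sn y.1.1| ≤
        |cs (y.1.1 + (h : UnitAddCircle))| * 1 := mul_le_mul_of_nonneg_left e2 (abs_nonneg _)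
    linarith
  linarith

theorem dispD {k : ℕ} (hk : 1 ≤ k) (hk2 : k < 32) {y : YY} (hy : y ∈ sD (1 / 128)) :
    shY (k * (1 / 128)) y ∉ sD (1 / 128) := by
  rintro ⟨-, h2⟩
  obtain ⟨g1, g2⟩ := hy
  change |sn (y.1.1 + ((k * (1 / 128) * sn y.1.2 : ℝ) : UnitAddCircle))| < 1 / 128 at h2
  set h : ℝ := k * (1 / 128) * sn y.1.2 with hh
  have hk1 : (1 : ℝ) ≤ k := by exact_mod_cast hk
  have hk3 : (k : ℝ) ≤ 31 := by
    have : k ≤ 31 := by omega
    exact_mod_cast this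
  have ha : |h| = k * (1 / 128) * |sn y.1.2| := by
    rw [hh, abs_mul, abs_of_nonneg (by positivity)]
  have hs1 := sn_le32 y.1.2
  have ha1 : |h| ≤ 1 / 4 := by
    rw [ha]
    nlinarith [abs_nonneg (sn y.1.2)]
  have ha2 : 1 / 256 ≤ |h| := by
    rw [ha]
    nlinarith [abs_nonneg (sn y.1.2)]
  have h5 := sin_low32 ha1
  have h6 : |Real.sin (2 * π * h)| < 1 / 64 := by
    rw [sin_sep32 y.1.1 h]
    refine (abs_sub _ _).trans_lt ?_
    rw [abs_mul, abs_mul]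
    have e1 := cs_le32 (y.1.1 + (h : UnitAddCircle))
    have e2 := cs_le32 y.1.1
    have e3 : |sn (y.1.1 + (h : UnitAddCircle))| * |cs y.1.1| ≤
        |sn (y.1.1 + (h : UnitAddCircle))| * 1 := mul_le_mul_of_nonneg_left e2 (abs_nonneg _)
    have e4 : |cs (y.1.1 + (h : UnitAddCircle))| * |sn y.1.1| ≤ 1 * |sn y.1.1| :=
      mul_le_mul_of_nonneg_right e1 (abs_nonneg _)
    linarith
  linarith

private theorem vr_le32 {K a : ℝ} (h : |a| ≤ K) (x : UnitAddCircle) : |vr a x| ≤ 2 + 2 * π * K := by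
  unfold vr
  refine (abs_add_le _ _).trans ?_
  have h1 : |2 * π * a * cs x| ≤ 2 * π * K := by
    rw [abs_mul, abs_mul, abs_of_nonneg (show (0 : ℝ) ≤ 2 * π by positivity)]
    have h2 := cs_le32 x
    have h3 : 2 * π * |a| * |cs x| ≤ 2 * π * |a| * 1 := mul_le_mul_of_nonneg_left h2 (by positivity)
    have h4 : 2 * π * |a| ≤ 2 * π * K := mul_le_mul_of_nonneg_left h (by positivity)
    linarith
  rw [abs_of_pos (show (0 : ℝ) < 2 by norm_num)]
  linarith

private theorem stepA32 {K M δ : ℝ} (hM : 3 + 2 * π * K ≤ M) {a : ℝ} (ha : |a| ≤ K) {y : YY}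
    (hy : y.2 ≠ 0) :
    (srY a y).2 ≠ 0 ∧ (y ∈ sA M δ ∨ srY a y ∈ sA M δ ∨ |cs y.1.2| < δ ∨ |cs y.1.1| < δ) := by
  have hK : 0 ≤ K := (abs_nonneg a).trans ha
  have hM1 : 1 ≤ M := by
    have : 0 ≤ 2 * π * K := by positivity
    linarith
  constructor
  · intro h
    apply hy
    have h1 : y.2.1 = 0 := congrArg Prod.snd h
    have h2 : vr a y.1.1 * y.2.1 - y.2.2 = 0 := congrArg Prod.fst h
    rw [h1, mul_zero, zero_sub, neg_eq_zero] at h2
    exact Prod.ext h1 h2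
  · by_contra hcon
    push Not at hcon
    obtain ⟨c1, c2, c3, c4⟩ := hcon
    have hlt : M * |y.2.2| < |y.2.1| := by
      by_contra hle
      push Not at hle
      by_cases hW : y.2.2 = 0
      · rw [hW, abs_zero, mul_zero] at hle
        exact hy (Prod.ext (abs_nonpos_iff.1 hle) hW)
      · exact c1 ⟨c3, hW, hle⟩
    have hw : y.2.1 ≠ 0 := by
      intro h0
      rw [h0, abs_zero] at hlt
      have : 0 ≤ M * |y.2.2| := by positivity
      linarith
    apply c2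
    refine ⟨c4, hw, ?_⟩
    change |vr a y.1.1 * y.2.1 - y.2.2| ≤ M * |y.2.1|
    refine (abs_sub _ _).trans ?_
    rw [abs_mul]
    have h1 := vr_le32 ha y.1.1
    have h2 : |vr a y.1.1| * |y.2.1| ≤ (2 + 2 * π * K) * |y.2.1| :=
      mul_le_mul_of_nonneg_right h1 (abs_nonneg _)
    have h3 : |y.2.2| ≤ |y.2.1| := by
      have : |y.2.2| ≤ M * |y.2.2| := by nlinarith [abs_nonneg y.2.2]
      linarith
    have h4 : (3 + 2 * π * K) * |y.2.1| ≤ M * |y.2.1| := mul_le_mul_of_nonneg_right hM (abs_nonneg _)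
    linarith

private theorem half_le32 {x : UnitAddCircle} (h : |cs x| < 1 / 8192) : 1 / 2 ≤ |sn x| := by
  by_contra hc
  push Not at hc
  have h1 := sn_cs x
  have h2 : sn x ^ 2 < (1 / 2) ^ 2 := by
    rw [← sq_abs]
    exact pow_lt_pow_left₀ hc (abs_nonneg _) two_ne_zero
  have h3 : cs x ^ 2 < (1 / 8192) ^ 2 := by
    rw [← sq_abs]
    exact pow_lt_pow_left₀ h (abs_nonneg _) two_ne_zero
  norm_num at h2 h3
  linarith

theorem cover {K M : ℝ} (hM : 3 + 2 * π * K ≤ M) {a₁ a₂ a₃ : ℝ} (h₁ : |a₁| ≤ K) (h₂ : |a₂| ≤ K) (h₃ : |a₃| ≤ K)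
    {y : YY} (hy : y.2 ≠ 0) {y₂ y₃ y₄ : YY} (e₂ : y₂ = srY a₁ y) (e₃ : y₃ = srY a₂ y₂) (e₄ : y₄ = srY a₃ y₃) :
    y ∈ sA M (1 / 8192) ∨ y ∈ sD (1 / 128) ∨ y₂ ∈ sA M (1 / 8192) ∨ y₂ ∈ sB (1 / 128) (1 / 8192) ∨ y₂ ∈ sD (1 / 128) ∨
      y₃ ∈ sA M (1 / 8192) ∨ y₃ ∈ sB (1 / 128) (1 / 8192) ∨ y₄ ∈ sA M (1 / 8192) := by
  obtain ⟨n2, s2⟩ := stepA32 (δ := 1 / 8192) hM h₁ hy
  rw [← e₂] at n2 s2
  obtain ⟨n3, s3⟩ := stepA32 (δ := 1 / 8192) hM h₂ n2
  rw [← e₃] at n3 s3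
  obtain ⟨n4, s4⟩ := stepA32 (δ := 1 / 8192) hM h₃ n3
  rw [← e₄] at n4 s4
  have x2 : y₂.1.2 = y.1.1 := by rw [e₂]; rfl
  have x3 : y₃.1.2 = y₂.1.1 := by rw [e₃]; rfl
  have x4 : y₄.1.2 = y₃.1.1 := by rw [e₄]; rfl
  by_contra hcon
  push Not at hcon
  obtain ⟨c1, c2, c3, c4, c5, c6, c7, c8⟩ := hcon
  have t2 : |cs y.1.2| < 1 / 8192 ∨ |cs y.1.1| < 1 / 8192 := by
    rcases s2 with h | h | h | h
    · exact absurd h c1
    · exact absurd h c3
    · exact Or.inl h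
    · exact Or.inr h
  have t3 : |cs y₂.1.2| < 1 / 8192 ∨ |cs y₂.1.1| < 1 / 8192 := by
    rcases s3 with h | h | h | h
    · exact absurd h c3
    · exact absurd h c6
    · exact Or.inl h
    · exact Or.inr h
  have t4 : |cs y₃.1.2| < 1 / 8192 ∨ |cs y₃.1.1| < 1 / 8192 := by
    rcases s4 with h | h | h | h
    · exact absurd h c6
    · exact absurd h c8
    · exact Or.inl h
    · exact Or.inr h
  by_cases hc : |cs y.1.1| < 1 / 8192
  · -- `|c₂| < δ`
    have k1 : 1 / 2 ≤ |sn y₂.1.2| := by rw [x2]; exact half_le32 hc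
    have k2 : ¬ |cs y₂.1.1| < 1 / 8192 := fun h => c4 ⟨by linarith, h⟩
    have k3 : |cs y₃.1.1| < 1 / 8192 := by
      rcases t4 with h | h
      · rw [x3] at h
        exact absurd h k2
      · exact h
    have k4 : |sn y₃.1.2| < 1 / 128 := by
      by_contra h
      push Not at h
      exact c7 ⟨h, k3⟩
    rw [x3] at k4
    exact c5 ⟨k1, k4⟩
  · have k1 : |cs y.1.2| < 1 / 8192 := by
      rcases t2 with h | h
      · exact h
      · exact absurd h hc
    have k2 : |cs y₂.1.1| < 1 / 8192 := by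
      rcases t3 with h | h
      · rw [x2] at h
        exact absurd h hc
      · exact h
    have k3 : |sn y₂.1.2| < 1 / 128 := by
      by_contra h
      push Not at h
      exact c4 ⟨h, k2⟩
    rw [x2] at k3
    exact c2 ⟨half_le32 k1, k3⟩

private theorem sA_meas32 (M δ : ℝ) : MeasurableSet (sA M δ) := by
  have h1 : Measurable fun y : YY => |cs y.1.2| :=
    continuous_abs.measurable.comp (cs_meas.comp (measurable_snd.comp measurable_fst))
  have h2 : Measurable fun y : YY => y.2.2 := measurable_snd.comp measurable_snd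
  have h3 : Measurable fun y : YY => |y.2.1| :=
    continuous_abs.measurable.comp (measurable_fst.comp measurable_snd)
  have h4 : Measurable fun y : YY => M * |y.2.2| := (continuous_abs.measurable.comp h2).const_mul M
  exact (measurableSet_le measurable_const h1).inter
    (((h2 (measurableSet_singleton 0)).compl).inter (measurableSet_le h3 h4))

private theorem sB_meas32 (β δ : ℝ) : MeasurableSet (sB β δ) := by
  have h1 : Measurable fun y : YY => |sn y.1.2| :=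
    continuous_abs.measurable.comp (sn_meas.comp (measurable_snd.comp measurable_fst))
  have h2 : Measurable fun y : YY => |cs y.1.1| :=
    continuous_abs.measurable.comp (cs_meas.comp (measurable_fst.comp measurable_fst))
  exact (measurableSet_le measurable_const h1).inter (measurableSet_lt h2 measurable_const)

private theorem sD_meas32 (β : ℝ) : MeasurableSet (sD β) := by
  have h1 : Measurable fun y : YY => |sn y.1.2| :=
    continuous_abs.measurable.comp (sn_meas.comp (measurable_snd.comp measurable_fst))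
  have h2 : Measurable fun y : YY => |sn y.1.1| :=
    continuous_abs.measurable.comp (sn_meas.comp (measurable_fst.comp measurable_fst))
  exact (measurableSet_le measurable_const h1).inter (measurableSet_lt h2 measurable_const)

private theorem ae_ne32 : ∀ᵐ y : YY ∂volume, y.2 ≠ 0 := by
  rw [ae_iff]
  have h1 : {y : YY | ¬ y.2 ≠ 0} = (univ : Set TT) ×ˢ {(0 : ℝ × ℝ)} := by
    ext y
    simp
  rw [h1, Measure.volume_eq_prod, Measure.prod_prod]
  have h2 : volume ({(0 : ℝ × ℝ)} : Set (ℝ × ℝ)) = 0 := measure_singleton _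
  rw [h2, mul_zero]

private theorem srY_meas32 (a : ℝ) : Measurable (srY a) := (sys_Y.mp a).measurable

/-- the square of a function is at most the sum over a cover -/
private theorem cover_le32 {F : YY → ℝ} (hF : SQ volume F) {ι : Type*} (S : Finset ι) (E : ι → Set YY)
    (hE : ∀ i ∈ S, MeasurableSet (E i)) (hcov : ∀ᵐ y : YY ∂volume, ∃ i ∈ S, y ∈ E i) {B : ℝ}
    (hB : ∀ i ∈ S, nm volume ((E i).indicator F) ≤ B) :
    ∫ y, F y ^ 2 ≤ S.card * B ^ 2 := by
  have hi : ∀ i ∈ S, Integrable (fun y => (E i).indicator F y ^ 2) volume := fun i hi =>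
    (hF.ind (hE i hi)).2
  calc ∫ y, F y ^ 2 ≤ ∫ y, ∑ i ∈ S, (E i).indicator F y ^ 2 := by
        refine integral_mono_ae hF.2 (integrable_finsetSum _ hi) ?_
        filter_upwards [hcov] with y hy
        obtain ⟨i, hiS, hiy⟩ := hy
        have h1 : (E i).indicator F y ^ 2 ≤ ∑ i ∈ S, (E i).indicator F y ^ 2 :=
          Finset.single_le_sum (f := fun i => (E i).indicator F y ^ 2) (fun j _ => sq_nonneg _) hiS
        rwa [indicator_of_mem hiy] at h1
    _ = ∑ i ∈ S, ∫ y, (E i).indicator F y ^ 2 := integral_finsetSum _ hi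
    _ ≤ ∑ _i ∈ S, B ^ 2 := by
        refine Finset.sum_le_sum fun i hi => ?_
        rw [← nm_sq]
        exact pow_le_pow_left₀ (nm_nonneg _) (hB i hi) 2
    _ = S.card * B ^ 2 := by rw [Finset.sum_const, nsmul_eq_mul]

private theorem core32 {K M s T e : ℝ} (hK : 0 ≤ K) (hM : M = 3 + 2 * π * K) (hs : 0 < s) (hs1 : s ≤ 1)
    (hT : T = 2 ^ 18 * M) {A : ℕ → ℝ} (hA : ∀ j, |A j| ≤ K) {f : YY → ℝ} (hf : SQ volume f)
    (he : e = 127 * T / s * √((∫ y, f y ^ 2) - ∫ y, Qr srY s f A 4 y ^ 2)) :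
    nm volume (Qr srY s f A 4) ^ 2 ≤ 8 * (nm volume f / √(32 : ℕ) + 4 * e) ^ 2 ∧
      nm volume (Qr srY s f A 4) ≤ nm volume f := by
  have hM1 : 1 ≤ M := by
    have : 0 ≤ 2 * π * K := by positivity
    linarith
  have hT1 : 1 ≤ T := by rw [hT]; nlinarith
  have he0 : 0 ≤ e := by rw [he]; positivity
  obtain ⟨a3, b3, c3, d3⟩ := stages sys_Y hf hs hs1 hT1 A (J := 4) (i := 3) (by norm_num) he
  obtain ⟨a2, b2, -, d2⟩ := stages sys_Y hf hs hs1 hT1 A (J := 4) (i := 2) (by norm_num) he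
  obtain ⟨a1, b1, -, d1⟩ := stages sys_Y hf hs hs1 hT1 A (J := 4) (i := 1) (by norm_num) he
  obtain ⟨a0, b0, -, d0⟩ := stages sys_Y hf hs hs1 hT1 A (J := 4) (i := 0) (by norm_num) he
  set F3 : YY → ℝ := Qr srY s f (fun k => A (k + (4 - 3))) 3 with hF3
  set F2 : YY → ℝ := Qr srY s f (fun k => A (k + (4 - 2))) 2 with hF2
  set F1 : YY → ℝ := Qr srY s f (fun k => A (k + (4 - 1))) 1 with hF1
  set F0 : YY → ℝ := Qr srY s f (fun k => A (k + (4 - 0))) 0 with hF0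
  have q3 : SQ volume F3 := Qr_SQ sys_Y hf s _ _
  have q2 : SQ volume F2 := Qr_SQ sys_Y hf s _ _
  have q1 : SQ volume F1 := Qr_SQ sys_Y hf s _ _
  have q0 : SQ volume F0 := Qr_SQ sys_Y hf s _ _
  have r3 : F3 = fun y => av shY s F2 (srY (A 1) y) := by
    funext y
    exact Qr_succ sys_Y s f (fun k => A (k + (4 - 3))) 2 y
  have r2 : F2 = fun y => av shY s F1 (srY (A 2) y) := by
    funext y
    exact Qr_succ sys_Y s f (fun k => A (k + (4 - 2))) 1 y
  have r1 : F1 = fun y => av shY s F0 (srY (A 3) y) := by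
    funext y
    exact Qr_succ sys_Y s f (fun k => A (k + (4 - 1))) 0 y
  -- displacement for a function with small increments
  have dis : ∀ F : YY → ℝ, SQ volume F → (∀ t : ℝ, |t| ≤ T → nm volume (fun y => F (shY t y) - F y) ≤ e) →
      nm volume F ≤ nm volume f →
      (nm volume ((sA M (1 / 8192)).indicator F) ≤ nm volume f / √(32 : ℕ) + e) ∧
      (nm volume ((sB (1 / 128) (1 / 8192)).indicator F) ≤ nm volume f / √(32 : ℕ) + e) ∧
      (nm volume ((sD (1 / 128)).indicator F) ≤ nm volume f / √(32 : ℕ) + e) := by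
    intro F hF hFe hFn
    have h32 : (0 : ℝ) < √(32 : ℕ) := by
      rw [Real.sqrt_pos]
      norm_num
    have hk : ∀ k : ℕ, k < 32 → (k : ℝ) ≤ 31 := fun k hk => by
      have : k ≤ 31 := by omega
      exact_mod_cast this
    have hfin : nm volume F / √(32 : ℕ) ≤ nm volume f / √(32 : ℕ) := div_le_div_of_nonneg_right hFn h32.le
    refine ⟨?_, ?_, ?_⟩
    · have := disp sys_Y.fl hF (sA_meas32 M (1 / 8192)) (m := 32) (by norm_num) (t := M / (1 / 8192)) (e := e)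
        (fun k hk1 _ y hy => dispA hM1 (by norm_num) hk1 hy)
        (fun k hk32 => hFe _ (by
          have h31 := hk k hk32
          rw [abs_of_nonneg (by positivity), hT]
          nlinarith))
      linarith
    · have := disp sys_Y.fl hF (sB_meas32 (1 / 128) (1 / 8192)) (m := 32) (by norm_num) (t := 1 / 128) (e := e)
        (fun k hk1 hk2 y hy => dispB hk1 hk2 hy)
        (fun k hk32 => hFe _ (by
          have h31 := hk k hk32
          rw [abs_of_nonneg (by positivity)]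
          linarith))
      linarith
    · have := disp sys_Y.fl hF (sD_meas32 (1 / 128)) (m := 32) (by norm_num) (t := 1 / 128) (e := e)
        (fun k hk1 hk2 y hy => dispD hk1 hk2 hy)
        (fun k hk32 => hFe _ (by
          have h31 := hk k hk32
          rw [abs_of_nonneg (by positivity)]
          linarith))
      linarith
  obtain ⟨A1, -, D1⟩ := dis F3 q3 a3 d3
  obtain ⟨A2, B2, D2⟩ := dis F2 q2 a2 d2
  obtain ⟨A3, B3, -⟩ := dis F1 q1 a1 d1
  obtain ⟨A4, -, -⟩ := dis F0 q0 a0 d0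
  -- pulling back
  have p2 : ∀ E : Set YY, MeasurableSet E →
      nm volume ((srY (A 1) ⁻¹' E).indicator F3) ≤ nm volume (E.indicator F2) + e := by
    intro E hE
    rw [r3]
    exact pull sys_Y q2 (A 1) hE b2
  have p1 : ∀ E : Set YY, MeasurableSet E →
      nm volume ((srY (A 2) ⁻¹' E).indicator F2) ≤ nm volume (E.indicator F1) + e := by
    intro E hE
    rw [r2]
    exact pull sys_Y q1 (A 2) hE b1
  have p0 : ∀ E : Set YY, MeasurableSet E →
      nm volume ((srY (A 3) ⁻¹' E).indicator F1) ≤ nm volume (E.indicator F0) + e := by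
    intro E hE
    rw [r1]
    exact pull sys_Y q0 (A 3) hE b0
  set N : ℝ := nm volume f / √(32 : ℕ) with hN
  let E : Fin 8 → Set YY := ![sA M (1 / 8192), sD (1 / 128), srY (A 1) ⁻¹' sA M (1 / 8192),
    srY (A 1) ⁻¹' sB (1 / 128) (1 / 8192), srY (A 1) ⁻¹' sD (1 / 128),
    srY (A 1) ⁻¹' (srY (A 2) ⁻¹' sA M (1 / 8192)), srY (A 1) ⁻¹' (srY (A 2) ⁻¹' sB (1 / 128) (1 / 8192)),
    srY (A 1) ⁻¹' (srY (A 2) ⁻¹' (srY (A 3) ⁻¹' sA M (1 / 8192)))]
  have mA := sA_meas32 M (1 / 8192)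
  have mB := sB_meas32 (1 / 128) (1 / 8192)
  have mD := sD_meas32 (1 / 128)
  have hE : ∀ i ∈ (Finset.univ : Finset (Fin 8)), MeasurableSet (E i) := by
    intro i _
    fin_cases i
    · exact mA
    · exact mD
    · exact srY_meas32 _ mA
    · exact srY_meas32 _ mB
    · exact srY_meas32 _ mD
    · exact srY_meas32 _ (srY_meas32 _ mA)
    · exact srY_meas32 _ (srY_meas32 _ mB)
    · exact srY_meas32 _ (srY_meas32 _ (srY_meas32 _ mA))
  have hB : ∀ i ∈ (Finset.univ : Finset (Fin 8)), nm volume ((E i).indicator F3) ≤ N + 4 * e := by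
    intro i _
    fin_cases i
    · exact A1.trans (by linarith)
    · exact D1.trans (by linarith)
    · exact (p2 _ mA).trans (by linarith)
    · exact (p2 _ mB).trans (by linarith)
    · exact (p2 _ mD).trans (by linarith)
    · exact (p2 _ (srY_meas32 _ mA)).trans (by linarith [p1 _ mA])
    · exact (p2 _ (srY_meas32 _ mB)).trans (by linarith [p1 _ mB])
    · exact (p2 _ (srY_meas32 _ (srY_meas32 _ mA))).trans
        (by linarith [p1 _ (srY_meas32 (A 3) mA), p0 _ mA])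
  have hcov : ∀ᵐ y : YY ∂volume, ∃ i ∈ (Finset.univ : Finset (Fin 8)), y ∈ E i := by
    filter_upwards [ae_ne32] with y hy
    rcases cover (M := M) hM.ge (hA 1) (hA 2) (hA 3) hy rfl rfl rfl with h | h | h | h | h | h | h | h
    · exact ⟨0, Finset.mem_univ _, h⟩
    · exact ⟨1, Finset.mem_univ _, h⟩
    · exact ⟨2, Finset.mem_univ _, h⟩
    · exact ⟨3, Finset.mem_univ _, h⟩
    · exact ⟨4, Finset.mem_univ _, h⟩
    · exact ⟨5, Finset.mem_univ _, h⟩
    · exact ⟨6, Finset.mem_univ _, h⟩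
    · exact ⟨7, Finset.mem_univ _, h⟩
  have hfin := cover_le32 q3 Finset.univ E hE hcov hB
  rw [Finset.card_univ, Fintype.card_fin] at hfin
  refine ⟨?_, c3.trans d3⟩
  calc nm volume (Qr srY s f A 4) ^ 2 ≤ nm volume F3 ^ 2 := pow_le_pow_left₀ (nm_nonneg _) c3 2
    _ = ∫ y, F3 y ^ 2 := nm_sq _
    _ ≤ _ := by exact_mod_cast hfin

theorem gap4 (K : ℝ) (hK : 0 ≤ K) : ∃ η : ℝ, 0 < η ∧ η ≤ 1 ∧ ∀ s : ℝ, 0 < s → s ≤ 1 → ∀ A : ℕ → ℝ, (∀ j, |A j| ≤ K) →
    ∀ f : YY → ℝ, SQ volume f → ∫ y, Qr srY s f A 4 y ^ 2 ≤ (1 - η * s ^ 2) * ∫ y, f y ^ 2 := by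
  set M : ℝ := 3 + 2 * π * K with hM
  set T : ℝ := 2 ^ 18 * M with hT
  set c : ℝ := 256 * (127 * T) ^ 2 with hc
  have hc0 : 0 ≤ c := by positivity
  refine ⟨1 / (2 * (1 + c)), by positivity, ?_, ?_⟩
  · rw [div_le_one (by positivity)]
    linarith
  intro s hs hs1 A hA f hf
  obtain ⟨h1, h2⟩ := core32 hK hM hs hs1 hT hA hf rfl
  set Λ : ℝ := (∫ y, f y ^ 2) - ∫ y, Qr srY s f A 4 y ^ 2 with hΛ
  have hΛ0 : 0 ≤ Λ := by
    rw [hΛ, ← nm_sq, ← nm_sq]
    have := pow_le_pow_left₀ (nm_nonneg _) h2 2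
    linarith
  set e : ℝ := 127 * T / s * √Λ with he
  have he2 : 256 * e ^ 2 = c / s ^ 2 * Λ := by
    rw [he, mul_pow, Real.sq_sqrt hΛ0, hc]
    field_simp
  have h3 : 8 * (nm volume f / √(32 : ℕ) + 4 * e) ^ 2 ≤ nm volume f ^ 2 / 2 + 256 * e ^ 2 := by
    have h4 : (nm volume f / √(32 : ℕ)) ^ 2 = nm volume f ^ 2 / 32 := by
      rw [div_pow, Real.sq_sqrt (by positivity)]
      norm_num
    nlinarith [sq_nonneg (nm volume f / √(32 : ℕ) - 4 * e)]
  have h5 : nm volume (Qr srY s f A 4) ^ 2 = nm volume f ^ 2 - Λ := by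
    rw [nm_sq, nm_sq, hΛ]
    ring
  rw [he2] at h3
  have h6 : nm volume f ^ 2 / 2 ≤ (1 + c / s ^ 2) * Λ := by linarith
  have hs2 : s ^ 2 ≤ 1 := pow_le_one₀ hs.le hs1
  have hs20 : 0 < s ^ 2 := by positivity
  have h7 : s ^ 2 * (nm volume f ^ 2 / 2) ≤ (1 + c) * Λ := by
    calc s ^ 2 * (nm volume f ^ 2 / 2) ≤ s ^ 2 * ((1 + c / s ^ 2) * Λ) :=
          mul_le_mul_of_nonneg_left h6 hs20.le
      _ = (s ^ 2 + c) * Λ := by field_simp
      _ ≤ (1 + c) * Λ := by nlinarith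
  have h8 : 1 / (2 * (1 + c)) * s ^ 2 * nm volume f ^ 2 ≤ Λ := by
    have h9 : 1 / (2 * (1 + c)) * s ^ 2 * nm volume f ^ 2 = s ^ 2 * (nm volume f ^ 2 / 2) / (1 + c) := by
      field_simp
    rw [h9, div_le_iff₀ (by positivity)]
    linarith
  rw [← nm_sq, ← nm_sq, h5]
  linarith

theorem gapR (K : ℝ) (hK : 0 ≤ K) : ∃ η : ℝ, 0 < η ∧ η ≤ 1 ∧ ∀ s : ℝ, 0 < s → s ≤ 1 → ∀ A : ℕ → ℝ, (∀ j, |A j| ≤ K) →
    ∀ f : YY → ℝ, SQ volume f → ∀ n : ℕ, ∫ y, Qr srY s f A n y ^ 2 ≤ (1 - η * s ^ 2) ^ (n / 4) * ∫ y, f y ^ 2 := by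
  obtain ⟨η, h0, h1, h2⟩ := gap4 K hK
  refine ⟨η, h0, h1, ?_⟩
  intro s hs hs1 A hA f hf n
  have hr : 0 ≤ 1 - η * s ^ 2 := by
    have : s ^ 2 ≤ 1 := pow_le_one₀ hs.le hs1
    nlinarith [sq_nonneg s]
  induction n using Nat.strong_induction_on generalizing A with
  | _ n ih =>
  rcases Nat.lt_or_ge n 4 with hn | hn
  · rw [Nat.div_eq_of_lt hn, pow_zero, one_mul]
    rcases Nat.eq_zero_or_pos n with hz | hz
    · subst hz
      exact le_rfl
    · obtain ⟨-, -, c, d⟩ := stages sys_Y hf hs hs1 le_rfl A (J := n) (i := 0) hz rfl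
      rw [← nm_sq, ← nm_sq]
      exact pow_le_pow_left₀ (nm_nonneg _) (c.trans d) 2
  · obtain ⟨n', rfl⟩ : ∃ n', n = 4 + n' := ⟨n - 4, by omega⟩
    have e1 : ∀ y, Qr srY s f A (4 + n') y = Qr srY s (Qr srY s f (fun j => A (j + 4)) n') A 4 y :=
      fun y => Qr_add srY s f A 4 n' y
    simp only [e1]
    have h3 := h2 s hs hs1 A hA _ (Qr_SQ sys_Y hf s (fun j => A (j + 4)) n')
    have h4 := ih n' (by omega) (fun j => A (j + 4)) (fun j => hA _)
    have e2 : (4 + n') / 4 = n' / 4 + 1 := by omega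
    rw [e2, pow_succ]
    calc ∫ y, Qr srY s (Qr srY s f (fun j => A (j + 4)) n') A 4 y ^ 2
        ≤ (1 - η * s ^ 2) * ∫ y, Qr srY s f (fun j => A (j + 4)) n' y ^ 2 := h3
      _ ≤ (1 - η * s ^ 2) * ((1 - η * s ^ 2) ^ (n' / 4) * ∫ y, f y ^ 2) :=
          mul_le_mul_of_nonneg_left h4 hr
      _ = _ := by ring

end Pool.Agent.Helper82.QR
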