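import Pool.Agent.Helper82.QR.Stg
import Pool.Agent.Helper82.QR.Tan
import Pool.Agent.Helper78.SM.Sub

/-! Block QR-GAPT: the gap on the torus, functions of mean zero (README, GAP 1).

Let `M = 3 + 2 π K`, `β = 1/(640 M²)`, `T = 1/β`. -/

set_option autoImplicit false
open MeasureTheory Real Set
open scoped ENNReal

namespace Pool.Agent.Helper82.QR

open Pool.Agent.Helper46.QP (dl BM TT Dd Dd_nonneg Dd_BM int_Dd meas_coe)

/-! ### trigonometry -/

lemma sn_neg59 (x : UnitAddCircle) : sn (-x) = -sn x := by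
  induction x using QuotientAddGroup.induction_on with
  | H r =>
    have e : (-(QuotientAddGroup.mk r : UnitAddCircle)) = ((-r : ℝ) : UnitAddCircle) := rfl
    rw [e, sn_coe, show (QuotientAddGroup.mk r : UnitAddCircle) = (r : UnitAddCircle) from rfl, sn_coe]
    rw [mul_neg, Real.sin_neg]

lemma abs_sn59 (x : UnitAddCircle) : |sn x| ≤ 1 := by
  have h := sn_cs x
  rw [abs_le]
  constructor <;> nlinarith [sq_nonneg (cs x)]

lemma abs_cs59 (x : UnitAddCircle) : |cs x| ≤ 1 := by
  have h := sn_cs x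
  rw [abs_le]
  constructor <;> nlinarith [sq_nonneg (sn x)]

lemma sn_add_le59 (x y : UnitAddCircle) : |sn (x + y)| ≤ |sn x| + |sn y| := by
  rw [sn_add']
  refine (abs_add_le _ _).trans ?_
  rw [abs_mul, abs_mul]
  have h1 := abs_cs59 x
  have h2 := abs_cs59 y
  have h3 := abs_nonneg (sn x)
  have h4 := abs_nonneg (sn y)
  nlinarith

lemma sn_sub_le59 (x y : UnitAddCircle) : |sn (x - y)| ≤ |sn x| + |sn y| := by
  rw [sub_eq_add_neg]
  refine (sn_add_le59 x (-y)).trans ?_
  rw [sn_neg59, abs_neg]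

/-- the middle term of the recurrence -/
lemma mid59 {K c : ℝ} (hc : |c| ≤ K) (x : UnitAddCircle) :
    |sn (x + x + ((c * sn x : ℝ) : UnitAddCircle))| ≤ (2 + 2 * π * K) * |sn x| := by
  refine (sn_add_le59 _ _).trans ?_
  have h1 := sn_add_le59 x x
  have h2 : |sn ((c * sn x : ℝ) : UnitAddCircle)| ≤ 2 * π * K * |sn x| := by
    rw [sn_coe]
    refine (Real.abs_sin_le_abs).trans ?_
    rw [abs_mul (2 * π) (c * sn x), abs_mul c (sn x), abs_of_pos (by positivity : (0 : ℝ) < 2 * π)]
    have h3 := abs_nonneg (sn x)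
    calc 2 * π * (|c| * |sn x|) ≤ 2 * π * (K * |sn x|) :=
          mul_le_mul_of_nonneg_left (mul_le_mul_of_nonneg_right hc h3) (by positivity)
      _ = 2 * π * K * |sn x| := by ring
  linarith

/-- a translation which keeps the sine small is small -/
lemma sin_le59 (x : UnitAddCircle) (h : ℝ) :
    |Real.sin (2 * π * h)| ≤ |sn (x + (h : UnitAddCircle))| + |sn x| := by
  have e : Real.sin (2 * π * h) = sn (x + (h : UnitAddCircle)) * cs x - cs (x + (h : UnitAddCircle)) * sn x := by
    rw [sn_add, cs_add]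
    have := sn_cs x
    linear_combination (-Real.sin (2 * π * h)) * this
  rw [e]
  refine (abs_sub _ _).trans ?_
  rw [abs_mul, abs_mul]
  have h1 := abs_cs59 x
  have h2 := abs_cs59 (x + (h : UnitAddCircle))
  have h3 := abs_nonneg (sn x)
  have h4 := abs_nonneg (sn (x + (h : UnitAddCircle)))
  nlinarith

lemma four_le59 {h : ℝ} (hh : |h| ≤ 1 / 4) : 4 * |h| ≤ |Real.sin (2 * π * h)| := by
  have h2 : |2 * π * h| ≤ π / 2 := by
    rw [abs_mul, abs_of_pos (by positivity : (0 : ℝ) < 2 * π)]
    nlinarith [Real.pi_pos]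
  have h3 := Real.mul_abs_le_abs_sin h2
  rw [abs_mul, abs_of_pos (by positivity : (0 : ℝ) < 2 * π)] at h3
  have h4 : 2 / π * (2 * π * |h|) = 4 * |h| := by
    field_simp
    ring
  linarith

/-- measure of the strips -/
lemma strip59 {β : ℝ} (hβ : 0 ≤ β) : volume {x : UnitAddCircle | |sn x| < β} ≤ ENNReal.ofReal (2 * β) := by
  have hsub : {x : UnitAddCircle | |sn x| < β} ⊆ Metric.closedBall ((0 : ℝ) : UnitAddCircle) (β / 2) ∪
      Metric.closedBall ((-(1 / 2) : ℝ) : UnitAddCircle) (β / 2) := by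
    intro x hx
    induction x using QuotientAddGroup.induction_on with
    | H r =>
      rw [mem_ofPred_eq, show (QuotientAddGroup.mk r : UnitAddCircle) = (r : UnitAddCircle) from rfl, sn_coe] at hx
      have e1 : Real.sin (2 * π * r) = 2 * Real.sin (π * r) * Real.sin (π * (r + 1 / 2)) := by
        rw [show 2 * π * r = 2 * (π * r) by ring, Real.sin_two_mul, show π * (r + 1 / 2) = π * r + π / 2 by ring,
          Real.sin_add_pi_div_two]
      have e2 : Real.sin (π * r) ^ 2 + Real.sin (π * (r + 1 / 2)) ^ 2 = 1 := by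
        rw [show π * (r + 1 / 2) = π * r + π / 2 by ring, Real.sin_add_pi_div_two]
        exact Real.sin_sq_add_cos_sq _
      rw [e1, abs_mul, abs_mul, abs_of_pos (by norm_num : (0 : ℝ) < 2)] at hx
      have h1 := Pool.Agent.Helper78.SM.norm_le_sin r
      have h2 := Pool.Agent.Helper78.SM.norm_le_sin (r + 1 / 2)
      rw [← sq_abs (Real.sin (π * r)), ← sq_abs (Real.sin (π * (r + 1 / 2)))] at e2
      set a := |Real.sin (π * r)| with ha
      set b := |Real.sin (π * (r + 1 / 2))| with hb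
      have ha0 : 0 ≤ a := abs_nonneg _
      have hb0 : 0 ≤ b := abs_nonneg _
      rcases le_total a b with h | h
      · left
        rw [Metric.mem_closedBall, dist_eq_norm]
        have h3 : 1 / 2 ≤ b := by nlinarith
        have h4 : a ≤ β := by nlinarith
        have e3 : ((QuotientAddGroup.mk r : UnitAddCircle)) - ((0 : ℝ) : UnitAddCircle) = (r : UnitAddCircle) := by
          rw [AddCircle.coe_zero, sub_zero]
        rw [e3]
        linarith
      · right
        rw [Metric.mem_closedBall, dist_eq_norm]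
        have h3 : 1 / 2 ≤ a := by nlinarith
        have h4 : b ≤ β := by nlinarith
        have e3 : ((QuotientAddGroup.mk r : UnitAddCircle)) - ((-(1 / 2) : ℝ) : UnitAddCircle) =
            ((r + 1 / 2 : ℝ) : UnitAddCircle) := by
          rw [show r + 1 / 2 = r - -(1 / 2) by ring, AddCircle.coe_sub]
        rw [e3]
        linarith
  have hball : ∀ z : UnitAddCircle, volume (Metric.closedBall z (β / 2)) ≤ ENNReal.ofReal β := by
    intro z
    rw [AddCircle.volume_closedBall]
    apply ENNReal.ofReal_le_ofReal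
    refine (min_le_right _ _).trans ?_
    linarith
  calc volume {x : UnitAddCircle | |sn x| < β} ≤ _ := measure_mono hsub
    _ ≤ _ := measure_union_le _ _
    _ ≤ ENNReal.ofReal β + ENNReal.ofReal β := add_le_add (hball _) (hball _)
    _ = ENNReal.ofReal (2 * β) := by
        rw [← ENNReal.ofReal_add hβ hβ]
        congr 1; ring

lemma null59 : volume {x : UnitAddCircle | sn x = 0} = 0 := by
  refine le_antisymm (le_of_forall_pos_le_add fun ε hε => ?_) zero_le
  rw [zero_add]
  rcases eq_or_ne ε ⊤ with rfl | ht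
  · exact le_top
  · have h1 : 0 < ε.toReal := ENNReal.toReal_pos hε.ne' ht
    calc volume {x : UnitAddCircle | sn x = 0} ≤ volume {x : UnitAddCircle | |sn x| < ε.toReal / 2} := by
          refine measure_mono fun x hx => ?_
          rw [mem_ofPred_eq] at hx ⊢
          rw [hx, abs_zero]
          linarith
      _ ≤ ENNReal.ofReal (2 * (ε.toReal / 2)) := strip59 (by linarith)
      _ = ε := by
          rw [mul_div_cancel₀ _ (two_ne_zero), ENNReal.ofReal_toReal ht]

/-! ### displacement -/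

/-- the set near the four fixed points which is displaced -/
def EE59 (M β : ℝ) : Set TT := {z | sn z.2 ≠ 0 ∧ |sn z.1| ≤ M * |sn z.2| ∧ |sn z.2| ≤ M * β}

lemma EE_meas59 (M β : ℝ) : MeasurableSet (EE59 M β) := by
  have h1 : Measurable fun z : TT => sn z.1 := sn_meas.comp measurable_fst
  have h2 : Measurable fun z : TT => sn z.2 := sn_meas.comp measurable_snd
  have e1 : MeasurableSet {z : TT | sn z.2 ≠ 0} := (h2 (measurableSet_singleton 0)).compl
  have e2 : MeasurableSet {z : TT | |sn z.1| ≤ M * |sn z.2|} := measurableSet_le h1.norm (h2.norm.const_mul M)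
  have e3 : MeasurableSet {z : TT | |sn z.2| ≤ M * β} := measurableSet_le h2.norm measurable_const
  exact e1.inter (e2.inter e3)

lemma edisp59 {M β : ℝ} (hM : 1 ≤ M) (hβ : 60 * M ^ 2 * β ≤ 1) (k : ℕ) (hk : 1 ≤ k) (hk' : k < 16)
    (z : TT) (hz : z ∈ EE59 M β) : sh (k * M) z ∉ EE59 M β := by
  intro hz'
  obtain ⟨h1, h2, h3⟩ := hz
  obtain ⟨-, h4, -⟩ := hz'
  simp only [sh] at h4
  set S := |sn z.2| with hS
  have hS0 : 0 < S := abs_pos.2 h1
  have hk1 : (1 : ℝ) ≤ k := by exact_mod_cast hk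
  have hk15 : (k : ℝ) ≤ 15 := by exact_mod_cast (by omega : k ≤ 15)
  set h : ℝ := k * M * sn z.2 with hh
  have hab : |h| = k * M * S := by
    rw [hh, abs_mul, abs_of_nonneg (by positivity)]
  have hle : |h| ≤ 1 / 4 := by
    rw [hab]
    have e1 : (k : ℝ) * M * S ≤ 15 * M * (M * β) :=
      mul_le_mul (mul_le_mul_of_nonneg_right hk15 (by linarith)) h3 hS0.le (by positivity)
    nlinarith
  have e2 := four_le59 hle
  have e3 := sin_le59 z.1 h
  rw [hab] at e2
  have e4 : (1 : ℝ) * (M * S) ≤ k * (M * S) := mul_le_mul_of_nonneg_right hk1 (by positivity)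
  have e5 : 0 < M * S := by positivity
  nlinarith

/-- a point between the strips is displaced, or the point before it -/
lemma cover59 {K M β c : ℝ} (hM : M = 3 + 2 * π * K) (hK : 0 ≤ K) (hβ : 0 ≤ β) (hc : |c| ≤ K) (z : TT)
    (h1 : |sn (sr c z).1| < β) (h2 : |sn (sr c z).2| < β) (h0 : sn (sr c z).2 ≠ 0) (hE : sr c z ∉ EE59 M β) :
    z ∈ EE59 M β := by
  have hM1 : 3 ≤ M := by
    rw [hM]
    have : 0 ≤ 2 * π * K := by positivity
    linarith
  have e2 : (sr c z).2 = z.1 := rfl
  have e1 : (sr c z).1 = (z.1 + z.1 + ((c * sn z.1 : ℝ) : UnitAddCircle)) - z.2 := by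
    show z.1 + z.1 - z.2 + ((c * sn z.1 : ℝ) : UnitAddCircle) = _
    abel
  have e3 : z.2 = (z.1 + z.1 + ((c * sn z.1 : ℝ) : UnitAddCircle)) - (sr c z).1 := by
    rw [e1]; abel
  rw [e2] at h2 h0
  have hm := mid59 hc z.1
  have hm' : |sn (z.1 + z.1 + ((c * sn z.1 : ℝ) : UnitAddCircle))| ≤ (M - 1) * |sn z.1| := by
    rw [hM]
    refine hm.trans (le_of_eq ?_)
    ring
  have f1 : |sn (sr c z).1| ≤ (M - 1) * |sn z.1| + |sn z.2| := by
    rw [e1]
    exact (sn_sub_le59 _ _).trans (by linarith)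
  have f2 : |sn z.2| ≤ (M - 1) * |sn z.1| + |sn (sr c z).1| := by
    conv_lhs => rw [e3]
    exact (sn_sub_le59 _ _).trans (by linarith)
  have hS0 : 0 < |sn z.1| := abs_pos.2 h0
  have f3 : M * |sn z.1| < |sn (sr c z).1| := by
    by_contra hcon
    push Not at hcon
    refine hE ⟨by rw [e2]; exact h0, by rw [e2]; exact hcon, ?_⟩
    rw [e2]
    nlinarith
  have f4 : |sn z.1| < |sn z.2| := by nlinarith
  refine ⟨abs_pos.1 (hS0.trans f4), by nlinarith, ?_⟩
  nlinarith

end Pool.Agent.Helper82.QR
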