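import Pool.Agent.Helper82.QR.Fl

/-! Block QR-LOSS: the averaging over a flow loses as much as the function moves.

`av_SQ`: measurability by `StronglyMeasurable.integral_prod_right'`; `(av f y)^2 ≤ ∫ w, f (V (s w.re) y)^2 ∂dl` (Jensen / Cauchy-Schwarz, `dl` is a probability), Tonelli / Fubini on `μ.prod dl` and `hV.mp`.
`loss`: with `D t = nm μ (fun y => f (V t y) - f y)` (even: `D (-t) = D t` by `hV.mp`; `D (t + u) ≤ D t + D u`: `f (V (t+u) y) - f y = (f (V u (V t y)) - f (V t y)) + (f (V t y) - f y)`, `nm_add`, `nm_comp`). Fubini and `hV.mp` as in `contr1` of `Helper46/QP/Gap1.lean`: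
`∫ y, (av f y)^2 = ∫ ζ, ∫ ζ', ∫ y, f (V (s ζ.re) y) f (V (s ζ'.re) y) = ∫ f^2 - (1/2) ∫ ζ', ∫ ζ, D (s (ζ.re - ζ'.re))^2`. As in `dbl_ge` there (it is stated for `Dd g` and for the imaginary part; `dl_rot` with `u = Complex.I` (`Helper46/QP/Res.lean`) exchanges `re` and `im` up to sign; only nonnegativity, measurability and boundedness are used: prove it for a bounded measurable `F : ℝ → ℝ`, `0 ≤ F`, even):
`π⁻¹^2 / 2 * ∫ t in Ioc 0 (1/2), F (s t) ≤ ∫ ζ', ∫ ζ, F (s (ζ.re - ζ'.re))` with `F = D^2`. So `I := ∫ t in Ioc 0 (1/2), D (s t)^2 ≤ 4 π² loss ≤ 40 loss`.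
For `0 ≤ h ≤ s/4` and `0 ≤ u ≤ s/4`: `D h ≤ D (h + u) + D u`, `D h^2 ≤ 2 D (h+u)^2 + 2 D u^2`; average over `u ∈ (0, s/4]`: `D h^2 ≤ (4/s) * 4 * ∫ u in 0..s/2, D u^2 = 16 I ≤ 640 loss`. For `|t| ≤ T` let `n = ⌈4 T / s⌉₊ ≤ 5 T / s`: `D t ≤ n D (|t|/n)`, so `D t^2 ≤ 25 T²/s² * 640 loss = 16000 T²/s² loss`.
`loss_av`: `av f y - f y = ∫ w, (f (V (s w.re) y) - f y) ∂dl`, Cauchy-Schwarz and Fubini: `∫ y, (av f y - f y)^2 ≤ ∫ w, D (s w.re)^2 ∂dl`, `|s w.re| ≤ 1` for `dl`-a.e. `w` (`‖w‖ ≤ 1`), `loss` with `T = 1`. -/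

set_option autoImplicit false
open MeasureTheory Real Set
open scoped ENNReal

namespace Pool.Agent.Helper82.QR

open Pool.Agent.Helper46.QP (dl BM)

variable {Y : Type*} [MeasurableSpace Y] {μ : Measure Y}

open Pool.Agent.Helper46.QP (dl_im_ge dl_rot)

/-- the square of the distance moved -/
private noncomputable def d12 (μ : Measure Y) (V : ℝ → Y → Y) (f : Y → ℝ) (t : ℝ) : ℝ :=
  ∫ y, (f (V t y) - f y) ^ 2 ∂μ

private theorem d_nonneg12 {V : ℝ → Y → Y} {f : Y → ℝ} (t : ℝ) : 0 ≤ d12 μ V f t := int_sq_nonneg _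

private theorem mf12 {V : ℝ → Y → Y} (hV : Flow μ V) {f : Y → ℝ} (hf : BM f) {Q : Type*} [MeasurableSpace Q]
    {φ : Q → ℝ} (hφ : Measurable φ) : BM fun p : Y × Q => f (V (φ p.2) p.1) := by
  have h0 : Measurable fun p : Y × Q => ((φ p.2, p.1) : ℝ × Y) :=
    (hφ.comp measurable_snd).prodMk measurable_fst
  have h1 : Measurable fun p : Y × Q => V (φ p.2) p.1 := hV.meas.comp h0
  exact hf.comp h1

private theorem sub_sq12 {f g : Y → ℝ} (hf : SQ μ f) (hg : SQ μ g) :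
    ∫ y, (f y - g y) ^ 2 ∂μ ≤ 2 * (∫ y, f y ^ 2 ∂μ) + 2 * ∫ y, g y ^ 2 ∂μ := by
  rw [← integral_const_mul, ← integral_const_mul, ← integral_add (hf.2.const_mul 2) (hg.2.const_mul 2)]
  refine integral_mono (hf.sub hg).2 ((hf.2.const_mul 2).add (hg.2.const_mul 2)) fun y => ?_
  show (f y - g y) ^ 2 ≤ 2 * f y ^ 2 + 2 * g y ^ 2
  nlinarith [sq_nonneg (f y + g y)]

private theorem d_BM12 [SFinite μ] {V : ℝ → Y → Y} (hV : Flow μ V) {f : Y → ℝ} (hf : SQ μ f) :
    BM (d12 μ V f) := by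
  have h1 : Measurable fun p : ℝ × Y => (f (V p.1 p.2) - f p.2) ^ 2 :=
    ((hf.1.1.comp hV.meas).sub (hf.1.1.comp measurable_snd)).pow_const 2
  have h2 : StronglyMeasurable (Function.uncurry fun (t : ℝ) (y : Y) => (f (V t y) - f y) ^ 2) :=
    h1.stronglyMeasurable
  refine ⟨(h2.integral_prod_right (ν := μ)).measurable, 4 * ∫ y, f y ^ 2 ∂μ, fun t => ?_⟩
  rw [abs_of_nonneg (d_nonneg12 t)]
  have h3 := sub_sq12 (hf.comp (hV.mp t)) hf
  rw [int_comp (f := fun y => f y ^ 2) (hf.1.1.pow_const 2) (hV.mp t)] at h3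
  unfold d12
  linarith

private theorem d_shift12 {V : ℝ → Y → Y} (hV : Flow μ V) {f : Y → ℝ} (hf : SQ μ f) (h u : ℝ) :
    ∫ y, (f (V (h + u) y) - f (V u y)) ^ 2 ∂μ = d12 μ V f h := by
  have e : ∀ y, (f (V (h + u) y) - f (V u y)) ^ 2 = (fun z => (f (V h z) - f z) ^ 2) (V u y) := by
    intro y
    rw [hV.add]
  simp only [e]
  exact int_comp (f := fun z => (f (V h z) - f z) ^ 2)
    (((hf.1.1.comp (hV.mp h).measurable).sub hf.1.1).pow_const 2) (hV.mp u)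

private theorem d_even12 {V : ℝ → Y → Y} (hV : Flow μ V) {f : Y → ℝ} (hf : SQ μ f) (t : ℝ) :
    d12 μ V f (-t) = d12 μ V f t := by
  rw [← d_shift12 hV hf (-t) t, neg_add_cancel]
  unfold d12
  refine integral_congr_ae (Filter.Eventually.of_forall fun y => ?_)
  simp only [hV.zero]
  ring

private theorem d_tri12 {V : ℝ → Y → Y} (hV : Flow μ V) {f : Y → ℝ} (hf : SQ μ f) (h u : ℝ) :
    d12 μ V f h ≤ 2 * d12 μ V f (h + u) + 2 * d12 μ V f u := by
  rw [← d_shift12 hV hf h u]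
  have h1 := sub_sq12 ((hf.comp (hV.mp (h + u))).sub hf) ((hf.comp (hV.mp u)).sub hf)
  refine le_trans (le_of_eq ?_) h1
  refine integral_congr_ae (Filter.Eventually.of_forall fun y => ?_)
  simp only
  ring

private theorem d_mul12 {V : ℝ → Y → Y} (hV : Flow μ V) {f : Y → ℝ} (hf : SQ μ f) (m : ℕ) (h : ℝ) :
    d12 μ V f (m * h) ≤ (m : ℝ) ^ 2 * d12 μ V f h := by
  have hB : ∀ a b : ℝ, Integrable (fun y => (f (V a y) - f (V b y)) ^ 2) μ :=
    fun a b => ((hf.comp (hV.mp a)).sub (hf.comp (hV.mp b))).2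
  have h1 : ∀ y : Y, (f (V (m * h) y) - f y) ^ 2 ≤
      (m : ℝ) * ∑ j ∈ Finset.range m, (f (V ((j + 1 : ℕ) * h) y) - f (V (j * h) y)) ^ 2 := by
    intro y
    have e : f (V (m * h) y) - f y =
        ∑ j ∈ Finset.range m, (f (V ((j + 1 : ℕ) * h) y) - f (V (j * h) y)) := by
      rw [Finset.sum_range_sub fun j : ℕ => f (V (j * h) y)]
      simp [hV.zero]
    rw [e]
    have := sq_sum_le_card_mul_sum_sq (s := Finset.range m) (f := fun j : ℕ =>
      (f (V ((j + 1 : ℕ) * h) y) - f (V (j * h) y)))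
    rwa [Finset.card_range] at this
  have h2 : d12 μ V f (m * h) ≤ ∫ y, (m : ℝ) * ∑ j ∈ Finset.range m,
      (f (V ((j + 1 : ℕ) * h) y) - f (V (j * h) y)) ^ 2 ∂μ := by
    refine integral_mono ((hf.comp (hV.mp _)).sub hf).2 ?_ h1
    exact (integrable_finsetSum _ fun j _ => hB _ _).const_mul _
  refine h2.trans (le_of_eq ?_)
  rw [integral_const_mul, integral_finsetSum _ fun j _ => hB _ _]
  have h3 : ∀ j ∈ Finset.range m, ∫ y, (f (V ((j + 1 : ℕ) * h) y) - f (V (j * h) y)) ^ 2 ∂μ = d12 μ V f h := by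
    intro j _
    rw [← d_shift12 hV hf h (j * h)]
    have e : ((j + 1 : ℕ) : ℝ) * h = h + j * h := by
      push_cast
      ring
    rw [e]
  rw [Finset.sum_congr rfl h3, Finset.sum_const, Finset.card_range, nsmul_eq_mul]
  ring

private theorem polar12 {V : ℝ → Y → Y} (hV : Flow μ V) {f : Y → ℝ} (hf : SQ μ f) (a b : ℝ) :
    ∫ y, f (V a y) * f (V b y) ∂μ = (∫ y, f y ^ 2 ∂μ) - d12 μ V f (b - a) / 2 := by
  have h1 := d_shift12 hV hf (b - a) a
  rw [sub_add_cancel] at h1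
  have ha := hf.comp (hV.mp a)
  have hb := hf.comp (hV.mp b)
  have e1 : ∀ y, (f (V b y) - f (V a y)) ^ 2 = f (V b y) ^ 2 + f (V a y) ^ 2 - 2 * (f (V a y) * f (V b y)) :=
    fun y => by ring
  simp only [e1] at h1
  have i12 : Integrable (fun y => f (V b y) ^ 2 + f (V a y) ^ 2) μ := hb.2.add ha.2
  rw [integral_sub i12 ((mul_int ha hb).const_mul 2), integral_add hb.2 ha.2, integral_const_mul,
    int_comp (f := fun y => f y ^ 2) (hf.1.1.pow_const 2) (hV.mp a),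
    int_comp (f := fun y => f y ^ 2) (hf.1.1.pow_const 2) (hV.mp b)] at h1
  linarith

private theorem int_prod12 [SFinite μ] {V : ℝ → Y → Y} (hV : Flow μ V) {f : Y → ℝ} (hf : SQ μ f)
    {Q : Type*} [MeasurableSpace Q] (ν : Measure Q) [IsProbabilityMeasure ν] {φ : Q → ℝ} (hφ : Measurable φ) :
    Integrable (fun p : Y × Q => f (V (φ p.2) p.1) ^ 2) (μ.prod ν) := by
  have hm : Measurable fun p : Y × Q => f (V (φ p.2) p.1) ^ 2 := (mf12 hV hf.1 hφ).1.pow_const 2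
  rw [integrable_prod_iff' hm.aestronglyMeasurable]
  refine ⟨Filter.Eventually.of_forall fun q => (hf.comp (hV.mp (φ q))).2, ?_⟩
  have e : (fun q : Q => ∫ y, ‖f (V (φ q) y) ^ 2‖ ∂μ) = fun _ => ∫ y, f y ^ 2 ∂μ := by
    funext q
    have e1 : ∀ y, ‖f (V (φ q) y) ^ 2‖ = (fun z => f z ^ 2) (V (φ q) y) := fun y => by
      rw [Real.norm_eq_abs, abs_of_nonneg (sq_nonneg _)]
    simp only [e1]
    exact int_comp (f := fun z => f z ^ 2) (hf.1.1.pow_const 2) (hV.mp (φ q))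
  rw [e]
  exact integrable_const _

private theorem re_meas12 (s : ℝ) : Measurable fun w : ℂ => s * w.re :=
  measurable_const.mul Complex.measurable_re

private theorem int_two12 [SFinite μ] {V : ℝ → Y → Y} (hV : Flow μ V) {f : Y → ℝ} (hf : SQ μ f) (s : ℝ) :
    Integrable (fun p : Y × (ℂ × ℂ) => f (V (s * p.2.1.re) p.1) * f (V (s * p.2.2.re) p.1))
      (μ.prod (dl.prod dl)) := by
  have h1 : Measurable fun q : ℂ × ℂ => s * q.1.re := (re_meas12 s).comp measurable_fst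
  have h2 : Measurable fun q : ℂ × ℂ => s * q.2.re := (re_meas12 s).comp measurable_snd
  have i1 := int_prod12 hV hf (dl.prod dl) h1
  have i2 := int_prod12 hV hf (dl.prod dl) h2
  refine (i1.add i2).mono' ((mf12 hV hf.1 h1).1.mul (mf12 hV hf.1 h2).1).aestronglyMeasurable
    (Filter.Eventually.of_forall fun p => ?_)
  rw [Real.norm_eq_abs, abs_mul]
  show |f (V (s * p.2.1.re) p.1)| * |f (V (s * p.2.2.re) p.1)| ≤
    f (V (s * p.2.1.re) p.1) ^ 2 + f (V (s * p.2.2.re) p.1) ^ 2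
  nlinarith [sq_nonneg (|f (V (s * p.2.1.re) p.1)| - |f (V (s * p.2.2.re) p.1)|),
    sq_abs (f (V (s * p.2.1.re) p.1)), sq_abs (f (V (s * p.2.2.re) p.1)),
    abs_nonneg (f (V (s * p.2.1.re) p.1)), abs_nonneg (f (V (s * p.2.2.re) p.1))]

private theorem av_sq12 (V : ℝ → Y → Y) (f : Y → ℝ) (s : ℝ) (y : Y) :
    av V s f y ^ 2 = ∫ q : ℂ × ℂ, f (V (s * q.1.re) y) * f (V (s * q.2.re) y) ∂(dl.prod dl) := by
  rw [integral_prod_mul (fun ζ : ℂ => f (V (s * ζ.re) y)) (fun ζ : ℂ => f (V (s * ζ.re) y)), sq]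
  rfl

private theorem av_int12 [SFinite μ] {V : ℝ → Y → Y} (hV : Flow μ V) {f : Y → ℝ} (hf : SQ μ f) (s : ℝ) :
    ∫ y, av V s f y ^ 2 ∂μ = (∫ y, f y ^ 2 ∂μ) -
      (∫ ζ', ∫ ζ, d12 μ V f (s * (ζ.re - ζ'.re)) ∂dl ∂dl) / 2 := by
  have hD := d_BM12 hV hf
  have hBK : BM fun q : ℂ × ℂ => d12 μ V f (s * (q.2.re - q.1.re)) :=
    hD.comp (measurable_const.mul ((Complex.measurable_re.comp measurable_snd).sub
      (Complex.measurable_re.comp measurable_fst)))
  have h5 : ∫ q : ℂ × ℂ, d12 μ V f (s * (q.2.re - q.1.re)) ∂(dl.prod dl) =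
      ∫ ζ', ∫ ζ, d12 μ V f (s * (ζ.re - ζ'.re)) ∂dl ∂dl := integral_prod _ (hBK.int _)
  simp only [av_sq12]
  rw [integral_integral_swap (int_two12 hV hf s)]
  simp only [polar12 hV hf]
  have e : ∀ q : ℂ × ℂ, s * q.2.re - s * q.1.re = s * (q.2.re - q.1.re) := fun q => by ring
  simp only [e]
  have i3 : Integrable (fun q : ℂ × ℂ => d12 μ V f (s * (q.2.re - q.1.re)) / 2) (dl.prod dl) :=
    (hBK.int _).div_const 2
  rw [integral_sub (integrable_const _) i3, integral_div, integral_const, probReal_univ, one_smul, h5]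

theorem av_SQ [SFinite μ] {V : ℝ → Y → Y} (hV : Flow μ V) {f : Y → ℝ} (hf : SQ μ f) (s : ℝ) :
    SQ μ (av V s f) ∧ nm μ (av V s f) ≤ nm μ f := by
  have h1 : BM (av V s f) := (mf12 hV hf.1 (re_meas12 s)).integral dl
  refine ⟨⟨h1, ?_⟩, ?_⟩
  · have h2 := (int_two12 hV hf s).integral_prod_left
    refine h2.congr (Filter.Eventually.of_forall fun y => ?_)
    exact (av_sq12 V f s y).symm
  · unfold nm
    refine Real.sqrt_le_sqrt ?_
    rw [av_int12 hV hf s]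
    have h3 : 0 ≤ ∫ ζ', ∫ ζ, d12 μ V f (s * (ζ.re - ζ'.re)) ∂dl ∂dl :=
      integral_nonneg fun _ => integral_nonneg fun _ => d_nonneg12 _
    linarith

private theorem re_im12 {F : ℝ → ℝ} (hF : Measurable F) : ∫ ζ, F ζ.re ∂dl = ∫ ζ, F ζ.im ∂dl := by
  have h1 := int_comp (μ := dl) (f := fun ζ : ℂ => F ζ.re) (hF.comp Complex.measurable_re)
    (dl_rot (u := -Complex.I) (by simp))
  rw [← h1]
  refine integral_congr_ae (Filter.Eventually.of_forall fun ζ => ?_)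
  simp

private theorem dbl12 {F : ℝ → ℝ} (hF : BM F) (h0 : ∀ r, 0 ≤ F r) (s : ℝ) :
    π⁻¹ ^ 2 / 2 * ∫ t in Ioc (0 : ℝ) (1 / 2), F (s * t) ≤
      ∫ ζ', ∫ ζ, F (s * (ζ.re - ζ'.re)) ∂dl ∂dl := by
  set I : ℝ := ∫ t in Ioc (0 : ℝ) (1 / 2), F (s * t) with hI
  have hI0 : 0 ≤ I := setIntegral_nonneg measurableSet_Ioc fun t _ => h0 _
  have hB1 : BM fun p : ℝ × ℝ => F (s * (p.2 - p.1)) :=
    hF.comp (measurable_const.mul (measurable_snd.sub measurable_fst))
  have hfin : IsFiniteMeasure (volume.restrict (Icc (-(1 / 2) : ℝ) (1 / 2))) := inferInstance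
  set H : ℝ → ℝ := fun r' => π⁻¹ * ∫ r in Icc (-(1 / 2) : ℝ) (1 / 2), F (s * (r - r')) with hH
  have hHi : BM H := by
    have hp : IsProbabilityMeasure (volume.restrict (Icc (-(1 / 2) : ℝ) (1 / 2))) := ⟨by
      rw [Measure.restrict_apply_univ, Real.volume_Icc]
      norm_num⟩
    exact (hB1.integral (volume.restrict (Icc (-(1 / 2) : ℝ) (1 / 2)))).const_mul _
  have hH0 : ∀ r, 0 ≤ H r := fun r =>
    mul_nonneg (by positivity) (integral_nonneg fun _ => h0 _)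
  have hre : ∀ c : ℝ, ∫ ζ, F (s * (ζ.re - c)) ∂dl = ∫ ζ, F (s * (ζ.im - c)) ∂dl := fun c =>
    re_im12 (F := fun r => F (s * (r - c))) (hF.1.comp (measurable_const.mul (measurable_id.sub_const _)))
  have h1 : ∀ ζ' : ℂ, H ζ'.re ≤ ∫ ζ, F (s * (ζ.re - ζ'.re)) ∂dl := fun ζ' => by
    rw [hre]
    exact dl_im_ge (F := fun r => F (s * (r - ζ'.re)))
      (hF.comp (measurable_const.mul (measurable_id.sub_const _))) fun r => h0 _
  have hB2 : BM fun p : ℂ × ℂ => F (s * (p.2.re - p.1.re)) :=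
    hF.comp (measurable_const.mul ((Complex.measurable_re.comp measurable_snd).sub
      (Complex.measurable_re.comp measurable_fst)))
  have h2 : ∫ ζ', H ζ'.re ∂dl ≤ ∫ ζ', ∫ ζ, F (s * (ζ.re - ζ'.re)) ∂dl ∂dl :=
    integral_mono ((hHi.comp Complex.measurable_re).int dl) ((hB2.integral dl).int dl) h1
  rw [re_im12 hHi.1] at h2
  refine le_trans ?_ (le_trans (dl_im_ge hHi hH0) h2)
  have h3 : ∀ r' ∈ Icc (-(1 / 2) : ℝ) 0, π⁻¹ * I ≤ H r' := by
    intro r' hr'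
    refine mul_le_mul_of_nonneg_left ?_ (by positivity)
    have e1 : I = ∫ r in Ioc r' (r' + 1 / 2), F (s * (r - r')) := by
      rw [hI, ← intervalIntegral.integral_of_le (by norm_num), ← intervalIntegral.integral_of_le (by linarith),
        intervalIntegral.integral_comp_sub_right (fun t => F (s * t)) r', sub_self, add_sub_cancel_left]
    rw [e1]
    refine setIntegral_mono_set ((hF.comp (measurable_const.mul (measurable_id.sub_const _))).int _)
      (Filter.Eventually.of_forall fun _ => h0 _) ?_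
    refine HasSubset.Subset.eventuallyLE fun r hr => ?_
    exact ⟨by linarith [hr.1, hr'.1], by linarith [hr.2, hr'.2]⟩
  have h4 : π⁻¹ * I / 2 ≤ ∫ r in Icc (-(1 / 2) : ℝ) (1 / 2), H r := by
    calc π⁻¹ * I / 2 = ∫ _ in Icc (-(1 / 2) : ℝ) 0, π⁻¹ * I := by
          rw [setIntegral_const, Measure.real, Real.volume_Icc, ENNReal.toReal_ofReal (by norm_num), smul_eq_mul]
          ring
      _ ≤ ∫ r in Icc (-(1 / 2) : ℝ) 0, H r :=
          setIntegral_mono_on (integrable_const _) (hHi.int _) measurableSet_Icc h3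
      _ ≤ ∫ r in Icc (-(1 / 2) : ℝ) (1 / 2), H r :=
          setIntegral_mono_set (hHi.int _) (Filter.Eventually.of_forall hH0)
            (HasSubset.Subset.eventuallyLE fun r hr => ⟨hr.1, by linarith [hr.2]⟩)
  have h5 := mul_le_mul_of_nonneg_left h4 (show (0 : ℝ) ≤ π⁻¹ by positivity)
  refine le_trans (le_of_eq ?_) h5
  ring

/-- the loss controls the integral of the square of the distance moved -/
private theorem int_le12 [SFinite μ] {V : ℝ → Y → Y} (hV : Flow μ V) {f : Y → ℝ} (hf : SQ μ f) (s : ℝ) :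
    ∫ t in Ioc (0 : ℝ) (1 / 2), d12 μ V f (s * t) ≤
      40 * ((∫ y, f y ^ 2 ∂μ) - ∫ y, av V s f y ^ 2 ∂μ) := by
  have h6 := dbl12 (d_BM12 hV hf) d_nonneg12 s
  rw [av_int12 hV hf s]
  set I : ℝ := ∫ t in Ioc (0 : ℝ) (1 / 2), d12 μ V f (s * t)
  set K : ℝ := ∫ ζ', ∫ ζ, d12 μ V f (s * (ζ.re - ζ'.re)) ∂dl ∂dl
  have hpi : (1 / 10 : ℝ) ≤ π⁻¹ ^ 2 := by
    have h10 := Real.pi_lt_d2
    have h11 : π ^ 2 ≤ 10 := by nlinarith [Real.pi_pos]
    rw [inv_pow, ← one_div]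
    exact one_div_le_one_div_of_le (by positivity) h11
  have hI0 : 0 ≤ I := setIntegral_nonneg measurableSet_Ioc fun t _ => d_nonneg12 _
  have h12 : 1 / 10 / 2 * I ≤ K :=
    le_trans (mul_le_mul_of_nonneg_right (by linarith) hI0) h6
  linarith

private theorem small12 [SFinite μ] {V : ℝ → Y → Y} (hV : Flow μ V) {f : Y → ℝ} (hf : SQ μ f) {s h : ℝ}
    (hs : 0 < s) (h0 : 0 ≤ h) (h1 : h ≤ s / 4) :
    d12 μ V f h ≤ 640 * ((∫ y, f y ^ 2 ∂μ) - ∫ y, av V s f y ^ 2 ∂μ) := by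
  have hD := d_BM12 hV hf
  have hI := int_le12 hV hf s
  set L : ℝ := (∫ y, f y ^ 2 ∂μ) - ∫ y, av V s f y ^ 2 ∂μ
  have hint : ∀ a b : ℝ, IntegrableOn (d12 μ V f) (Ioc a b) := fun a b => hD.int _
  have e1 : ∫ t in Ioc (0 : ℝ) (s / 2), d12 μ V f t = s * ∫ t in Ioc (0 : ℝ) (1 / 2), d12 μ V f (s * t) := by
    rw [← intervalIntegral.integral_of_le (by positivity), ← intervalIntegral.integral_of_le (by norm_num),
      intervalIntegral.integral_comp_mul_left (d12 μ V f) hs.ne', smul_eq_mul, ← mul_assoc,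
      mul_inv_cancel₀ hs.ne', one_mul, mul_zero]
    congr 1
    ring
  have h2 : s / 4 * d12 μ V f h ≤ 4 * ∫ t in Ioc (0 : ℝ) (s / 2), d12 μ V f t := by
    have hB : BM fun u : ℝ => d12 μ V f (h + u) := hD.comp (measurable_const.add measurable_id)
    calc s / 4 * d12 μ V f h = ∫ _u in Ioc (0 : ℝ) (s / 4), d12 μ V f h := by
          rw [setIntegral_const, Measure.real, Real.volume_Ioc, ENNReal.toReal_ofReal (by linarith), smul_eq_mul,
            sub_zero]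
      _ ≤ ∫ u in Ioc (0 : ℝ) (s / 4), (2 * d12 μ V f (h + u) + 2 * d12 μ V f u) := by
          refine integral_mono (integrable_const _) (((hB.int _).const_mul 2).add ((hD.int _).const_mul 2))
            fun u => d_tri12 hV hf h u
      _ = 2 * (∫ u in Ioc (0 : ℝ) (s / 4), d12 μ V f (h + u)) + 2 * ∫ u in Ioc (0 : ℝ) (s / 4), d12 μ V f u := by
          rw [integral_add ((hB.int _).const_mul 2) ((hD.int _).const_mul 2), integral_const_mul,
            integral_const_mul]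
      _ ≤ 2 * (∫ t in Ioc (0 : ℝ) (s / 2), d12 μ V f t) + 2 * ∫ t in Ioc (0 : ℝ) (s / 2), d12 μ V f t := by
          have j1 : ∫ u in Ioc (0 : ℝ) (s / 4), d12 μ V f (h + u) ≤ ∫ t in Ioc (0 : ℝ) (s / 2), d12 μ V f t := by
            have e2 : ∫ u in Ioc (0 : ℝ) (s / 4), d12 μ V f (h + u) = ∫ t in Ioc h (h + s / 4), d12 μ V f t := by
              rw [← intervalIntegral.integral_of_le (by positivity), ← intervalIntegral.integral_of_le (by linarith),
                intervalIntegral.integral_comp_add_left (d12 μ V f) h, add_zero]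
            rw [e2]
            refine setIntegral_mono_set (hint _ _) (Filter.Eventually.of_forall d_nonneg12) ?_
            refine HasSubset.Subset.eventuallyLE fun r hr => ?_
            exact ⟨by linarith [hr.1], by linarith [hr.2]⟩
          have j2 : ∫ u in Ioc (0 : ℝ) (s / 4), d12 μ V f u ≤ ∫ t in Ioc (0 : ℝ) (s / 2), d12 μ V f t := by
            refine setIntegral_mono_set (hint _ _) (Filter.Eventually.of_forall d_nonneg12) ?_
            refine HasSubset.Subset.eventuallyLE fun r hr => ?_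
            exact ⟨hr.1, by linarith [hr.2]⟩
          linarith
      _ = 4 * ∫ t in Ioc (0 : ℝ) (s / 2), d12 μ V f t := by ring
  rw [e1] at h2
  have h3 : s * d12 μ V f h ≤ s * (640 * L) := by
    have h4 := mul_le_mul_of_nonneg_left hI hs.le
    linarith
  exact le_of_mul_le_mul_left h3 hs

theorem loss [SFinite μ] {V : ℝ → Y → Y} (hV : Flow μ V) {f : Y → ℝ} (hf : SQ μ f) {s T t : ℝ} (hs : 0 < s)
    (hs1 : s ≤ 1) (hT : 1 ≤ T) (ht : |t| ≤ T) :
    ∫ y, (f (V t y) - f y) ^ 2 ∂μ ≤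
      16000 * T ^ 2 / s ^ 2 * ((∫ y, f y ^ 2 ∂μ) - ∫ y, av V s f y ^ 2 ∂μ) := by
  show d12 μ V f t ≤ _
  have e0 : d12 μ V f t = d12 μ V f |t| := by
    rcases abs_choice t with h | h
    · rw [h]
    · rw [h, d_even12 hV hf]
  set n : ℕ := ⌈4 * T / s⌉₊ with hn
  have hTs : 1 ≤ T / s := by
    rw [le_div_iff₀ hs]
    linarith
  have hn1 : 4 * T / s ≤ n := Nat.le_ceil _
  have hn2 : (n : ℝ) ≤ 5 * T / s := by
    have h1 : (n : ℝ) < 4 * T / s + 1 := Nat.ceil_lt_add_one (by positivity)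
    have h2 : 4 * T / s = 4 * (T / s) := by ring
    have h3 : 5 * T / s = 5 * (T / s) := by ring
    rw [h2] at h1
    rw [h3]
    linarith
  have hn0 : (0 : ℝ) < n := lt_of_lt_of_le (by positivity) hn1
  have h5 : |t| / n ≤ s / 4 := by
    rw [div_le_iff₀ hn0]
    have h6 : s / 4 * (4 * T / s) = T := by field_simp
    have h7 := mul_le_mul_of_nonneg_left hn1 (show (0 : ℝ) ≤ s / 4 by positivity)
    linarith
  have h8 := small12 hV hf hs (h := |t| / n) (by positivity) h5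
  have h9 := d_mul12 hV hf n (|t| / n)
  rw [mul_div_cancel₀ _ hn0.ne'] at h9
  set L : ℝ := (∫ y, f y ^ 2 ∂μ) - ∫ y, av V s f y ^ 2 ∂μ
  have hL : 0 ≤ L := by
    have h10 := (d_nonneg12 (μ := μ) (V := V) (f := f) (|t| / n)).trans h8
    linarith
  rw [e0]
  calc d12 μ V f |t| ≤ (n : ℝ) ^ 2 * d12 μ V f (|t| / n) := h9
    _ ≤ (5 * T / s) ^ 2 * (640 * L) := by
        refine mul_le_mul (pow_le_pow_left₀ hn0.le hn2 2) h8 (d_nonneg12 _) (by positivity)
    _ = 16000 * T ^ 2 / s ^ 2 * L := by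
        rw [div_pow]
        ring

private theorem jen12 {h : ℂ → ℝ} (hh : BM h) : (∫ w, h w ∂dl) ^ 2 ≤ ∫ w, h w ^ 2 ∂dl := by
  have h1 : SQ dl h := ⟨hh, hh.sq.int dl⟩
  have h2 : SQ dl fun _ : ℂ => (1 : ℝ) := ⟨BM.const 1, (BM.const 1).sq.int dl⟩
  have h3 := cau h1 h2
  have h4 : nm dl (fun _ : ℂ => (1 : ℝ)) = 1 := by
    unfold nm
    simp
  rw [h4, mul_one] at h3
  simp only [mul_one] at h3
  rw [← nm_sq, ← sq_abs]
  exact pow_le_pow_left₀ (abs_nonneg _) h3 2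

private theorem ball_ae12 : ∀ᵐ w ∂dl, ‖w‖ ≤ 1 := by
  unfold dl
  refine Measure.ae_smul_measure ?_ _
  filter_upwards [ae_restrict_mem (μ := (volume : Measure ℂ))
    (Metric.isClosed_closedBall (x := (0 : ℂ)) (ε := 1)).measurableSet] with w hw
  exact mem_closedBall_zero_iff.1 hw

theorem loss_av [SFinite μ] {V : ℝ → Y → Y} (hV : Flow μ V) {f : Y → ℝ} (hf : SQ μ f) {s : ℝ} (hs : 0 < s)
    (hs1 : s ≤ 1) :
    ∫ y, (av V s f y - f y) ^ 2 ∂μ ≤ 16000 / s ^ 2 * ((∫ y, f y ^ 2 ∂μ) - ∫ y, av V s f y ^ 2 ∂μ) := by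
  have hB := mf12 hV hf.1 (re_meas12 s)
  have hBy : ∀ y, BM fun w : ℂ => f (V (s * w.re) y) := fun y =>
    hB.comp (measurable_const.prodMk measurable_id)
  have hBd : ∀ y, BM fun w : ℂ => f (V (s * w.re) y) - f y := fun y => (hBy y).sub (BM.const _)
  have i1 := int_prod12 hV hf dl (re_meas12 s)
  have i0 := int_prod12 hV hf dl (φ := fun _ : ℂ => (0 : ℝ)) measurable_const
  have hsq : Integrable (fun p : Y × ℂ => (f (V (s * p.2.re) p.1) - f p.1) ^ 2) (μ.prod dl) := by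
    have hm : Measurable fun p : Y × ℂ => (f (V (s * p.2.re) p.1) - f p.1) ^ 2 :=
      (hB.1.sub (hf.1.1.comp measurable_fst)).pow_const 2
    refine ((i1.const_mul 2).add (i0.const_mul 2)).mono' hm.aestronglyMeasurable
      (Filter.Eventually.of_forall fun p => ?_)
    rw [Real.norm_eq_abs, abs_of_nonneg (sq_nonneg _)]
    show (f (V (s * p.2.re) p.1) - f p.1) ^ 2 ≤ 2 * f (V (s * p.2.re) p.1) ^ 2 + 2 * f (V 0 p.1) ^ 2
    rw [hV.zero]
    nlinarith [sq_nonneg (f (V (s * p.2.re) p.1) + f p.1)]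
  have h1 : ∀ y, (av V s f y - f y) ^ 2 ≤ ∫ w, (f (V (s * w.re) y) - f y) ^ 2 ∂dl := by
    intro y
    have e : av V s f y - f y = ∫ w, (f (V (s * w.re) y) - f y) ∂dl := by
      rw [integral_sub ((hBy y).int dl) (integrable_const _), integral_const, probReal_univ, one_smul]
      rfl
    rw [e]
    exact jen12 (hBd y)
  have h2 : ∫ y, (av V s f y - f y) ^ 2 ∂μ ≤ ∫ y, (∫ w, (f (V (s * w.re) y) - f y) ^ 2 ∂dl) ∂μ :=
    integral_mono ((av_SQ hV hf s).1.sub hf).2 hsq.integral_prod_left h1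
  rw [integral_integral_swap hsq] at h2
  refine h2.trans ?_
  have h3 : ∀ᵐ w ∂dl, ∫ y, (f (V (s * w.re) y) - f y) ^ 2 ∂μ ≤
      16000 / s ^ 2 * ((∫ y, f y ^ 2 ∂μ) - ∫ y, av V s f y ^ 2 ∂μ) := by
    filter_upwards [ball_ae12] with w hw
    have h4 : |s * w.re| ≤ 1 := by
      rw [abs_mul, abs_of_pos hs]
      have h5 := (Complex.abs_re_le_norm w).trans hw
      nlinarith [abs_nonneg w.re]
    have h6 := loss hV hf hs hs1 le_rfl h4
    simpa using h6
  calc ∫ w, (∫ y, (f (V (s * w.re) y) - f y) ^ 2 ∂μ) ∂dl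
      ≤ ∫ _w, 16000 / s ^ 2 * ((∫ y, f y ^ 2 ∂μ) - ∫ y, av V s f y ^ 2 ∂μ) ∂dl :=
        integral_mono_ae (((d_BM12 hV hf).comp (re_meas12 s)).int dl) (integrable_const _) h3
    _ = _ := by rw [integral_const, probReal_univ, one_smul]

end Pool.Agent.Helper82.QR
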